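import Mathlib

/-!
A directed-multigraph matrix tree theorem: the determinant of a Laplacian whose rows are sums of
`e_u - e_{target}` counts acyclic choice functions.
-/

namespace Pool.Agent.H.MP_9bb806_co

section
variable {U ι : Type*} [Fintype U] [DecidableEq U] [Fintype ι]

/-- Row vector of the option `o` at `u`. -/
def rowv (tgt : U → ι → Option U) (u : U) (o : ι) : U → ℤ :=
  fun v => (if u = v then 1 else 0) - (if tgt u o = some v then 1 else 0)

/-- Laplacian-type matrix of a system of options: at `u` every valid option `o` leads to
`tgt u o` (`none` is the ground). -/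
def stepMat (valid : U → ι → Prop) [∀ u, DecidablePred (valid u)] (tgt : U → ι → Option U) :
    Matrix U U ℤ :=
  Matrix.of fun u => ∑ o ∈ Finset.univ.filter (valid u), rowv tgt u o

/-- Following the choice `c`. -/
def nxt (tgt : U → ι → Option U) (c : U → ι) : Option U → Option U
  | none => none
  | some u => tgt u (c u)

/-- Every orbit reaches the ground. -/
def Acyclic (tgt : U → ι → Option U) (c : U → ι) : Prop :=
  ∀ u, ∃ n : ℕ, (nxt tgt c)^[n] (some u) = none

omit [Fintype U] [DecidableEq U] [Fintype ι] in
lemma nxt_iterate_none (tgt : U → ι → Option U) (c : U → ι) (n : ℕ) :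
    (nxt tgt c)^[n] none = none := by
  induction n with
  | zero => rfl
  | succ n ih => rw [Function.iterate_succ_apply]; exact ih

omit [Fintype ι] in
lemma det_acyclic (tgt : U → ι → Option U) (c : U → ι) (h : Acyclic tgt c) :
    Matrix.det (Matrix.of fun u => rowv tgt u (c u)) = 1 := by
  classical
  let rank : U → ℕ := fun u => Nat.find (h u)
  have hrank : ∀ u v, tgt u (c u) = some v → rank v < rank u := by
    intro u v huv
    have hu := Nat.find_spec (h u)
    have hpos : 0 < Nat.find (h u) := by
      rw [Nat.find_pos]
      simp
    obtain ⟨m, hm⟩ : ∃ m, Nat.find (h u) = m + 1 := ⟨Nat.find (h u) - 1, by omega⟩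
    rw [hm, Function.iterate_succ_apply] at hu
    have hstep : nxt tgt c (some u) = some v := huv
    rw [hstep] at hu
    have : Nat.find (h v) ≤ m := Nat.find_min' (h v) hu
    change Nat.find (h v) < Nat.find (h u)
    omega
  set M : Matrix U U ℤ := Matrix.of fun u => rowv tgt u (c u) with hM
  have hbt : M.BlockTriangular (OrderDual.toDual ∘ rank) := by
    intro i j hij
    have hij' : rank i < rank j := hij
    have h1 : i ≠ j := by rintro rfl; exact lt_irrefl _ hij'
    have h2 : tgt i (c i) ≠ some j := fun hc => by
      have := hrank i j hc
      omega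
    simp [hM, rowv, h1, h2]
  rw [hbt.det]
  apply Finset.prod_eq_one
  intro a _
  have : M.toSquareBlock (OrderDual.toDual ∘ rank) a = 1 := by
    ext ⟨i, hi⟩ ⟨j, hj⟩
    have hij : rank i = rank j := by
      have : (OrderDual.toDual ∘ rank) i = (OrderDual.toDual ∘ rank) j := by rw [hi, hj]
      exact this
    have h2 : tgt i (c i) ≠ some j := fun hc => by
      have := hrank i j hc
      omega
    rw [Matrix.toSquareBlock_def, Matrix.of_apply, hM, Matrix.of_apply]
    simp only [rowv, Matrix.one_apply, Subtype.mk.injEq, h2, if_false, sub_zero]
  rw [this, Matrix.det_one]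

omit [Fintype ι] in
lemma det_not_acyclic (tgt : U → ι → Option U) (c : U → ι) (h : ¬ Acyclic tgt c) :
    Matrix.det (Matrix.of fun u => rowv tgt u (c u)) = 0 := by
  classical
  rw [← Matrix.exists_mulVec_eq_zero_iff]
  let A : U → Prop := fun u => ∀ n : ℕ, (nxt tgt c)^[n] (some u) ≠ none
  refine ⟨fun u => if A u then 1 else 0, ?_, ?_⟩
  · rw [Acyclic] at h
    push Not at h
    obtain ⟨u, hu⟩ := h
    intro h0
    have := congrFun h0 u
    have hAu : A u := hu
    simp [hAu] at this
  · funext u
    simp only [Matrix.mulVec, dotProduct, Matrix.of_apply, rowv, Pi.zero_apply]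
    have key : ∀ v, ((if u = v then (1 : ℤ) else 0) - (if tgt u (c u) = some v then 1 else 0)) *
        (if A v then 1 else 0) = (if u = v then (if A u then 1 else 0) else 0) -
        (if tgt u (c u) = some v then (if A v then 1 else 0) else 0) := by
      intro v
      by_cases h1 : u = v
      · subst h1
        by_cases h2 : tgt u (c u) = some u <;> simp [h2]
      · by_cases h2 : tgt u (c u) = some v <;> by_cases h3 : A v <;> simp [h1, h2, h3]
    simp_rw [key]
    rw [Finset.sum_sub_distrib, Finset.sum_ite_eq Finset.univ u]
    simp only [Finset.mem_univ, if_true]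
    rcases ht : tgt u (c u) with _ | w
    · have : ¬ A u := by
        intro hA
        exact hA 1 ht
      simp [this]
    · have hsum : ∑ v : U, (if (some w : Option U) = some v then (if A v then (1 : ℤ) else 0)
          else 0) = if A w then 1 else 0 := by
        simp only [Option.some.injEq]
        rw [Finset.sum_ite_eq Finset.univ w]
        simp
      rw [hsum]
      have hiff : A u ↔ A w := by
        constructor
        · intro hA n hn
          apply hA (n + 1)
          rw [Function.iterate_succ_apply]
          have : nxt tgt c (some u) = some w := ht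
          rw [this]; exact hn
        · intro hA n hn
          rcases n with _ | n
          · simp at hn
          · rw [Function.iterate_succ_apply] at hn
            have : nxt tgt c (some u) = some w := ht
            rw [this] at hn
            exact hA n hn
      by_cases hA : A u
      · simp [hA, hiff.mp hA]
      · have : ¬ A w := fun h => hA (hiff.mpr h)
        simp [hA, this]

/-- The determinant counts acyclic choices. -/
theorem det_stepMat (valid : U → ι → Prop) [∀ u, DecidablePred (valid u)]
    (tgt : U → ι → Option U) :
    (stepMat valid tgt).det =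
      (Nat.card {c : U → ι // (∀ u, valid u (c u)) ∧ Acyclic tgt c} : ℤ) := by
  classical
  have h1 : (stepMat valid tgt).det =
      ∑ c ∈ Fintype.piFinset (fun u => Finset.univ.filter (valid u)),
        Matrix.det (Matrix.of fun u => rowv tgt u (c u)) := by
    have := (Matrix.detRowAlternating (R := ℤ) (n := U)).toMultilinearMap.map_sum_finset
      (fun u o => rowv tgt u o) (fun u => Finset.univ.filter (valid u))
    exact this
  rw [h1]
  have h2 : ∀ c ∈ Fintype.piFinset (fun u => Finset.univ.filter (valid u)),
      Matrix.det (Matrix.of fun u => rowv tgt u (c u)) = if Acyclic tgt c then 1 else 0 := by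
    intro c _
    by_cases hc : Acyclic tgt c
    · rw [if_pos hc, det_acyclic tgt c hc]
    · rw [if_neg hc, det_not_acyclic tgt c hc]
  rw [Finset.sum_congr rfl h2, Finset.sum_ite, Finset.sum_const_zero, add_zero, Finset.sum_const,
    nsmul_eq_mul, mul_one]
  congr 1
  rw [Nat.card_eq_fintype_card, Fintype.card_subtype]
  congr 1
  ext c
  simp [Fintype.mem_piFinset]

end

end Pool.Agent.H.MP_9bb806_co
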