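import Mathlib

/-!
Words and walks: basic definitions shared by all modules for MP_9bb806_co.
-/

namespace Pool.Agent.H.MP_9bb806_co

/-- Sum of `f` over all words of length `n` in the alphabet `α`. -/
def W {α : Type} [Fintype α] : ℕ → (List α → ℝ) → ℝ
  | 0, f => f []
  | n + 1, f => ∑ a : α, W n (fun s => f (a :: s))

/-- The sign `±1` of a bit. -/
def sgn (b : Bool) : ℤ := if b then 1 else -1

/-- End point of the one-dimensional walk started at `0`. -/
def tot : List Bool → ℤ
  | [] => 0
  | b :: s => sgn b + tot s

/-- Maximum of the one-dimensional walk started at `0`. -/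
def mx : List Bool → ℤ
  | [] => 0
  | b :: s => max 0 (sgn b + mx s)

/-- Minimum of the one-dimensional walk started at `0`. -/
def mn : List Bool → ℤ
  | [] => 0
  | b :: s => min 0 (sgn b + mn s)

/-- The four directions; `vec d` has `x`-coordinate `(sgn d.1 + sgn d.2)/2` and `y`-coordinate
`(sgn d.1 - sgn d.2)/2`. -/
abbrev Dir := Bool × Bool

/-- The unit vector of a direction. -/
def vec : Dir → ℤ × ℤ
  | (true, true) => (1, 0)
  | (true, false) => (0, 1)
  | (false, true) => (0, -1)
  | (false, false) => (-1, 0)

/-- Total displacement of a two-dimensional walk. -/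
def totv : List Dir → ℤ × ℤ
  | [] => 0
  | d :: s => vec d + totv s

/-- Maximum of the `x`-coordinate. -/
def mxx : List Dir → ℤ
  | [] => 0
  | d :: s => max 0 ((vec d).1 + mxx s)

/-- Minimum of the `x`-coordinate. -/
def mnx : List Dir → ℤ
  | [] => 0
  | d :: s => min 0 ((vec d).1 + mnx s)

/-- Maximum of the `y`-coordinate. -/
def mxy : List Dir → ℤ
  | [] => 0
  | d :: s => max 0 ((vec d).2 + mxy s)

/-- Minimum of the `y`-coordinate. -/
def mny : List Dir → ℤ
  | [] => 0
  | d :: s => min 0 ((vec d).2 + mny s)

/-- Closed walks. -/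
def Closed (s : List Dir) : Prop := totv s = 0

instance : DecidablePred Closed := fun s => inferInstanceAs (Decidable (totv s = 0))

/-- Sum over closed walks of length `n` of (`x`-extent `+ 1`). -/
noncomputable def bX (n : ℕ) : ℝ :=
  W n (fun s : List Dir => if Closed s then ((mxx s - mnx s + 1 : ℤ) : ℝ) else 0)

/-- Sum over closed walks of length `n` of (`y`-extent `+ 1`). -/
noncomputable def bY (n : ℕ) : ℝ :=
  W n (fun s : List Dir => if Closed s then ((mxy s - mny s + 1 : ℤ) : ℝ) else 0)

end Pool.Agent.H.MP_9bb806_co
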