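import Mathlib
import Pool.Agent.H.MP_9bb806_co.Words

/-!
Finite sets of lattice points: faces, outside points, hole-free sets, connectedness.
-/

namespace Pool.Agent.H.MP_9bb806_co

/-- Unit squares (given by their lower left corner) all of whose corners lie in `S`. -/
def faces (S : Finset (ℤ × ℤ)) : Finset (ℤ × ℤ) :=
  S.filter (fun p => p + (1, 0) ∈ S ∧ p + (0, 1) ∈ S ∧ p + (1, 1) ∈ S)

lemma mem_faces {S : Finset (ℤ × ℤ)} {p : ℤ × ℤ} :
    p ∈ faces S ↔ p ∈ S ∧ p + (1, 0) ∈ S ∧ p + (0, 1) ∈ S ∧ p + (1, 1) ∈ S := by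
  simp [faces]

/-- Points of the complement of `S` that can be connected to far away in the complement. -/
inductive Out (S : Finset (ℤ × ℤ)) : ℤ × ℤ → Prop
  | far (p : ℤ × ℤ) (h : ∀ q ∈ S, q.1 < p.1) : Out S p
  | step (p : ℤ × ℤ) (d : Dir) (hp : p ∉ S) (h : Out S (p + vec d)) : Out S p

lemma Out.notMem {S : Finset (ℤ × ℤ)} {p : ℤ × ℤ} (h : Out S p) : p ∉ S := by
  cases h with
  | far _ h => intro hp; exact lt_irrefl _ (h p hp)
  | step _ _ hp _ => exact hp

/-- Every point of the complement is connected to far away. -/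
def HoleFree (S : Finset (ℤ × ℤ)) : Prop := ∀ p, p ∉ S → Out S p

/-- Connectedness in the form of an induction principle. -/
def Conn (S : Finset (ℤ × ℤ)) : Prop :=
  ∀ (P : ℤ × ℤ → Prop) (p : ℤ × ℤ), p ∈ S → P p →
    (∀ q ∈ S, ∀ d : Dir, q + vec d ∈ S → P q → P (q + vec d)) → ∀ q ∈ S, P q

end Pool.Agent.H.MP_9bb806_co
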