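import Mathlib
import Pool.Agent.H.MP_9bb806_co.Plane
import Pool.Agent.H.MP_9bb806_co.DetExpand

/-!
Incidence matrices of lattice sets.
-/

namespace Pool.Agent.H.MP_9bb806_co

open Finset

/-- Target map inside a finite set `A` (the ground is the outside). -/
def tgtA (A : Finset (ℤ × ℤ)) (u : A) (d : Dir) : Option A :=
  if h : (u : ℤ × ℤ) + vec d ∈ A then some ⟨(u : ℤ × ℤ) + vec d, h⟩ else none

lemma tgtA_eq_some {A : Finset (ℤ × ℤ)} {u v : A} {d : Dir} :
    tgtA A u d = some v ↔ (u : ℤ × ℤ) + vec d = v := by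
  unfold tgtA
  by_cases h : (u : ℤ × ℤ) + vec d ∈ A
  · simp only [h, dif_pos, Option.some.injEq]
    exact Subtype.ext_iff
  · simp only [h, dif_neg, not_false_eq_true]
    constructor
    · intro hc; exact absurd hc (by simp)
    · intro hc; exact absurd (hc ▸ v.2) h

/-- Reduced Laplacian of the induced subgraph on `S` with root `r`. -/
def lapS (S : Finset (ℤ × ℤ)) (r : ℤ × ℤ) : Matrix (S.erase r) (S.erase r) ℤ :=
  stepMat (fun (u : S.erase r) (d : Dir) => (u : ℤ × ℤ) + vec d ∈ S) (tgtA (S.erase r))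

/-- Dirichlet Laplacian `4 - A` of a finite set. -/
def dirM (F : Finset (ℤ × ℤ)) : Matrix F F ℤ :=
  stepMat (fun (_ : F) (_ : Dir) => True) (tgtA F)

/-- Edge vectors: `true` is horizontal. -/
def ev (b : Bool) : ℤ × ℤ := if b then (1, 0) else (0, 1)

/-- Edges of type `b` inside `S`, given by their lower left end. -/
def eset (S : Finset (ℤ × ℤ)) (b : Bool) : Finset (ℤ × ℤ) := S.filter (fun p => p + ev b ∈ S)

lemma mem_eset {S : Finset (ℤ × ℤ)} {b : Bool} {p : ℤ × ℤ} :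
    p ∈ eset S b ↔ p ∈ S ∧ p + ev b ∈ S := by simp [eset]

/-- The type of edges. -/
abbrev ET (S : Finset (ℤ × ℤ)) : Type := (b : Bool) × (eset S b)

/-- Vertex-edge incidence. -/
def bf (v : ℤ × ℤ) (b : Bool) (p : ℤ × ℤ) : ℤ :=
  (if p = v then 1 else 0) - (if p + ev b = v then 1 else 0)

/-- Offset of the positively oriented edge of type `b` of a face. -/
def ca (b : Bool) : ℤ × ℤ := if b then (0, 0) else (1, 0)
/-- Offset of the negatively oriented edge of type `b` of a face. -/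
def cb (b : Bool) : ℤ × ℤ := if b then (0, 1) else (0, 0)

/-- Face-edge incidence. -/
def cf (f : ℤ × ℤ) (b : Bool) (p : ℤ × ℤ) : ℤ :=
  (if p = f + ca b then 1 else 0) - (if p = f + cb b then 1 else 0)

/-- Vertex-edge incidence matrix without the root. -/
def BM (S : Finset (ℤ × ℤ)) (r : ℤ × ℤ) : Matrix (S.erase r) (ET S) ℤ :=
  Matrix.of fun v e => bf v e.1 e.2

/-- Face-edge incidence matrix. -/
def CM (S : Finset (ℤ × ℤ)) : Matrix (faces S) (ET S) ℤ :=
  Matrix.of fun f e => cf f e.1 e.2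

lemma sum_coe_ite (A : Finset (ℤ × ℤ)) (v : ℤ × ℤ) (g : ℤ × ℤ → ℤ) :
    ∑ p : A, (if (p : ℤ × ℤ) = v then (1 : ℤ) else 0) * g p = if v ∈ A then g v else 0 := by
  rw [Finset.sum_coe_sort A (fun p => (if p = v then (1 : ℤ) else 0) * g p)]
  simp only [ite_mul, one_mul, zero_mul]
  rw [Finset.sum_ite_eq' A v]

lemma sumB {S : Finset (ℤ × ℤ)} {v : ℤ × ℤ} (hv : v ∈ S) (G : Bool → ℤ × ℤ → ℤ) :
    ∑ e : ET S, bf v e.1 e.2 * G e.1 e.2 =
      ∑ b : Bool, ((if v + ev b ∈ S then G b v else 0) -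
        (if v - ev b ∈ S then G b (v - ev b) else 0)) := by
  rw [Fintype.sum_sigma]
  apply Finset.sum_congr rfl
  intro b _
  have h1 : ∀ p : eset S b, bf v b p * G b p = (if (p : ℤ × ℤ) = v then (1 : ℤ) else 0) * G b p -
      (if (p : ℤ × ℤ) = v - ev b then (1 : ℤ) else 0) * G b p := by
    intro p
    unfold bf
    rw [sub_mul]
    congr 2
    simp only [eq_sub_iff_add_eq]
  simp only [h1]
  rw [Finset.sum_sub_distrib, sum_coe_ite, sum_coe_ite]
  congr 1
  · simp only [mem_eset, hv, true_and]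
  · simp only [mem_eset, sub_add_cancel, hv, and_true]

lemma sumC {S : Finset (ℤ × ℤ)} {f : ℤ × ℤ} (hf : f ∈ faces S) (G : Bool → ℤ × ℤ → ℤ) :
    ∑ e : ET S, cf f e.1 e.2 * G e.1 e.2 =
      G true f - G true (f + (0, 1)) + (G false (f + (1, 0)) - G false f) := by
  rw [mem_faces] at hf
  obtain ⟨h0, h1, h2, h3⟩ := hf
  have e3 : f + (0, 1) + (1, 0) = f + (1, 1) := by ext <;> simp
  have e4 : f + (1, 0) + (0, 1) = f + (1, 1) := by ext <;> simp
  rw [Fintype.sum_sigma, Fintype.sum_bool]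
  have key : ∀ b : Bool, f + ca b ∈ eset S b → f + cb b ∈ eset S b →
      ∑ p : eset S b, cf f b p * G b p = G b (f + ca b) - G b (f + cb b) := by
    intro b hb1 hb2
    have h1 : ∀ p : eset S b, cf f b p * G b p =
        (if (p : ℤ × ℤ) = f + ca b then (1 : ℤ) else 0) * G b p -
        (if (p : ℤ × ℤ) = f + cb b then (1 : ℤ) else 0) * G b p := by
      intro p
      unfold cf
      rw [sub_mul]
    simp only [h1]
    rw [Finset.sum_sub_distrib, sum_coe_ite, sum_coe_ite, if_pos hb1, if_pos hb2]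
  have c1 : f + ca true = f := by ext <;> simp [ca]
  have c2 : f + cb false = f := by ext <;> simp [cb]
  have t := key true (by rw [c1, mem_eset]; exact ⟨h0, h1⟩)
    (by rw [mem_eset]; exact ⟨h2, by change f + (0, 1) + (1, 0) ∈ S; rw [e3]; exact h3⟩)
  have t' := key false (by rw [mem_eset]; exact ⟨h1, by change f + (1, 0) + (0, 1) ∈ S; rw [e4]; exact h3⟩)
    (by rw [c2, mem_eset]; exact ⟨h0, h2⟩)
  rw [c1] at t
  rw [c2] at t'
  change (∑ p : eset S true, cf f true p * G true p) +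
    (∑ p : eset S false, cf f false p * G false p) = _
  rw [t, t']
  rfl

lemma dir_sum {M : Type*} [AddCommMonoid M] (g : Dir → M) :
    ∑ d : Dir, g d = g (true, true) + g (true, false) + (g (false, true) + g (false, false)) := by
  rw [Fintype.sum_prod_type, Fintype.sum_bool, Fintype.sum_bool, Fintype.sum_bool]

lemma lapS_apply (S : Finset (ℤ × ℤ)) (r : ℤ × ℤ) (v w : S.erase r) :
    lapS S r v w = ∑ d : Dir, if (v : ℤ × ℤ) + vec d ∈ S then
      ((if (v : ℤ × ℤ) = w then (1 : ℤ) else 0) - (if (v : ℤ × ℤ) + vec d = w then 1 else 0))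
      else 0 := by
  unfold lapS stepMat
  rw [Matrix.of_apply, Finset.sum_apply, Finset.sum_filter]
  apply Finset.sum_congr rfl
  intro d _
  congr 1
  unfold rowv
  simp only [tgtA_eq_some, Subtype.ext_iff]

lemma dirM_apply (F : Finset (ℤ × ℤ)) (v w : F) :
    dirM F v w = ∑ d : Dir,
      ((if (v : ℤ × ℤ) = w then (1 : ℤ) else 0) - (if (v : ℤ × ℤ) + vec d = w then 1 else 0)) := by
  unfold dirM stepMat
  rw [Matrix.of_apply, Finset.sum_apply, Finset.sum_filter]
  apply Finset.sum_congr rfl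
  intro d _
  rw [if_pos trivial]
  unfold rowv
  simp only [tgtA_eq_some, Subtype.ext_iff]

/-- `B Bᵀ` is the reduced Laplacian. -/
lemma BBt (S : Finset (ℤ × ℤ)) (r : ℤ × ℤ) : BM S r * (BM S r).transpose = lapS S r := by
  ext v w
  have hv : (v : ℤ × ℤ) ∈ S := Finset.mem_of_mem_erase v.2
  rw [Matrix.mul_apply, lapS_apply]
  have h1 : ∀ e : ET S, BM S r v e * (BM S r).transpose e w = bf v e.1 e.2 * bf w e.1 e.2 := by
    intro e; rfl
  simp only [h1]
  rw [sumB hv (fun b p => bf w b p), dir_sum, Fintype.sum_bool]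
  have a1 : (v : ℤ × ℤ) + vec (true, true) = v + ev true := rfl
  have a2 : (v : ℤ × ℤ) + vec (true, false) = v + ev false := rfl
  have a3 : (v : ℤ × ℤ) + vec (false, true) = v - ev false := by
    ext <;> simp [vec, ev, sub_eq_add_neg]
  have a4 : (v : ℤ × ℤ) + vec (false, false) = v - ev true := by
    ext <;> simp [vec, ev, sub_eq_add_neg]
  rw [a1, a2, a3, a4]
  unfold bf
  simp only [sub_add_cancel]
  split_ifs <;> ring

/-- `C Cᵀ` is the Dirichlet Laplacian of the faces. -/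
lemma CCt (S : Finset (ℤ × ℤ)) : CM S * (CM S).transpose = dirM (faces S) := by
  ext f g
  rw [Matrix.mul_apply, dirM_apply]
  have h1 : ∀ e : ET S, CM S f e * (CM S).transpose e g = cf f e.1 e.2 * cf g e.1 e.2 := by
    intro e; rfl
  simp only [h1]
  rw [sumC f.2 (fun b p => cf g b p), dir_sum]
  unfold cf ca cb
  simp only [if_true, Bool.false_eq_true, if_false]
  have z : ∀ x : ℤ × ℤ, x + (0, 0) = x := by intro x; ext <;> simp
  simp only [z]
  have i1 : ((f : ℤ × ℤ) + (0, 1) = (g : ℤ × ℤ) + (0, 1)) ↔ ((f : ℤ × ℤ) = g) := by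
    simp
  have i2 : ((f : ℤ × ℤ) + (1, 0) = (g : ℤ × ℤ) + (1, 0)) ↔ ((f : ℤ × ℤ) = g) := by
    simp
  have i3 : ((f : ℤ × ℤ) = (g : ℤ × ℤ) + (0, 1)) ↔ ((f : ℤ × ℤ) + vec (false, true) = g) := by
    constructor
    · intro h; rw [h]; ext <;> simp [vec]
    · intro h; rw [← h]; ext <;> simp [vec]
  have i4 : ((f : ℤ × ℤ) = (g : ℤ × ℤ) + (1, 0)) ↔ ((f : ℤ × ℤ) + vec (false, false) = g) := by
    constructor
    · intro h; rw [h]; ext <;> simp [vec]
    · intro h; rw [← h]; ext <;> simp [vec]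
  have i5 : ((f : ℤ × ℤ) + (0, 1) = (g : ℤ × ℤ)) ↔ ((f : ℤ × ℤ) + vec (true, false) = g) := Iff.rfl
  have i6 : ((f : ℤ × ℤ) + (1, 0) = (g : ℤ × ℤ)) ↔ ((f : ℤ × ℤ) + vec (true, true) = g) := Iff.rfl
  simp only [i1, i2, i3, i4, i5, i6]
  ring

/-- `B Cᵀ = 0`. -/
lemma BCt (S : Finset (ℤ × ℤ)) (r : ℤ × ℤ) : BM S r * (CM S).transpose = 0 := by
  ext v f
  rw [Matrix.mul_apply, Matrix.zero_apply]
  have h1 : ∀ e : ET S, BM S r v e * (CM S).transpose e f = cf f e.1 e.2 * bf v e.1 e.2 := by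
    intro e; exact mul_comm _ _
  simp only [h1]
  rw [sumC f.2 (fun b p => bf v b p)]
  unfold bf ev
  simp only [if_true, Bool.false_eq_true, if_false]
  have e3 : (f : ℤ × ℤ) + (0, 1) + (1, 0) = (f : ℤ × ℤ) + (1, 1) := by ext <;> simp
  have e4 : (f : ℤ × ℤ) + (1, 0) + (0, 1) = (f : ℤ × ℤ) + (1, 1) := by ext <;> simp
  rw [e3, e4]
  ring

lemma det_lapS (S : Finset (ℤ × ℤ)) (r : ℤ × ℤ) : (lapS S r).det =
    (Nat.card {c : S.erase r → Dir // (∀ u : S.erase r, (u : ℤ × ℤ) + vec (c u) ∈ S) ∧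
      Acyclic (tgtA (S.erase r)) c} : ℤ) := det_stepMat _ _

lemma det_dirM (F : Finset (ℤ × ℤ)) : (dirM F).det =
    (Nat.card {c : F → Dir // (∀ _u : F, True) ∧ Acyclic (tgtA F) c} : ℤ) := det_stepMat _ _

end Pool.Agent.H.MP_9bb806_co
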