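import Mathlib
import Pool.Agent.H.MP_9bb806_co.Mats

/-!
Filling the holes of a finite set of lattice points.
-/

namespace Pool.Agent.H.MP_9bb806_co

open Finset

namespace Fill

/-- Closedness of a predicate under steps inside `S`. -/
def Cl (S : Finset (ℤ × ℤ)) (P : ℤ × ℤ → Prop) : Prop :=
  ∀ q ∈ S, ∀ d : Dir, q + vec d ∈ S → P q → P (q + vec d)

lemma add_neg (q : ℤ × ℤ) (d : Dir) : q + vec d + vec (!d.1, !d.2) = q := by
  rcases d with ⟨_ | _, _ | _⟩ <;> ext <;> simp [vec]

lemma Cl.iff {S : Finset (ℤ × ℤ)} {P : ℤ × ℤ → Prop} (h : Cl S P) {q : ℤ × ℤ} (hq : q ∈ S)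
    {d : Dir} (hd : q + vec d ∈ S) : P q ↔ P (q + vec d) := by
  refine ⟨h q hq d hd, fun hp => ?_⟩
  have := h (q + vec d) hd (!d.1, !d.2) (by rw [add_neg]; exact hq) hp
  rwa [add_neg] at this

lemma exists_bound (S : Finset (ℤ × ℤ)) : ∃ M : ℤ, ∀ q ∈ S, q.1 < M ∧ q.2 < M := by
  induction S using Finset.induction_on with
  | empty => exact ⟨0, by simp⟩
  | insert a S _ ih =>
    obtain ⟨M, hM⟩ := ih
    refine ⟨max M (max (a.1 + 1) (a.2 + 1)), ?_⟩
    intro q hq
    rw [mem_insert] at hq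
    rcases hq with rfl | hq
    · constructor <;> omega
    · have := hM q hq
      constructor <;> omega

lemma out_of_row {S : Finset (ℤ × ℤ)} {p : ℤ × ℤ} (h : ∀ q ∈ S, q.2 ≠ p.2) : Out S p := by
  obtain ⟨M, hM⟩ := exists_bound S
  have key : ∀ (n : ℕ) (p : ℤ × ℤ), (∀ q ∈ S, q.2 ≠ p.2) → (M - p.1).toNat ≤ n → Out S p := by
    intro n
    induction n with
    | zero =>
      intro p _ hn
      apply Out.far
      intro q hq
      have := (hM q hq).1
      omega
    | succ n ih =>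
      intro p hp hn
      refine Out.step p (true, true) (fun hc => hp p hc rfl) ?_
      apply ih
      · intro q hq
        have := hp q hq
        simpa [vec] using this
      · have : (p + vec (true, true)).1 = p.1 + 1 := rfl
        rw [this]
        omega
  exact key _ p h le_rfl

lemma out_of_col {S : Finset (ℤ × ℤ)} {p : ℤ × ℤ} (h : ∀ q ∈ S, q.1 ≠ p.1) : Out S p := by
  obtain ⟨M, hM⟩ := exists_bound S
  have key : ∀ (n : ℕ) (p : ℤ × ℤ), (∀ q ∈ S, q.1 ≠ p.1) → (M - p.2).toNat ≤ n → Out S p := by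
    intro n
    induction n with
    | zero =>
      intro p _ hn
      apply out_of_row
      intro q hq
      have := (hM q hq).2
      omega
    | succ n ih =>
      intro p hp hn
      refine Out.step p (true, false) (fun hc => hp p hc rfl) ?_
      apply ih
      · intro q hq
        have := hp q hq
        simpa [vec] using this
      · have : (p + vec (true, false)).2 = p.2 + 1 := rfl
        rw [this]
        omega
  exact key _ p h le_rfl

/-- The set with its holes filled. -/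
noncomputable def fill (S : Finset (ℤ × ℤ)) : Finset (ℤ × ℤ) := by
  classical
  exact ((S.image Prod.fst) ×ˢ (S.image Prod.snd)).filter (fun p => ¬ Out S p)

lemma mem_fill {S : Finset (ℤ × ℤ)} {p : ℤ × ℤ} : p ∈ fill S ↔ ¬ Out S p := by
  classical
  unfold fill
  rw [mem_filter, mem_product, mem_image, mem_image]
  constructor
  · exact fun h => h.2
  · intro h
    refine ⟨⟨?_, ?_⟩, h⟩
    · by_contra hc
      apply h
      apply out_of_col
      intro q hq he
      exact hc ⟨q, hq, he⟩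
    · by_contra hc
      apply h
      apply out_of_row
      intro q hq he
      exact hc ⟨q, hq, he⟩

lemma subset_fill (S : Finset (ℤ × ℤ)) : S ⊆ fill S := fun p hp =>
  mem_fill.mpr (fun h => h.notMem hp)

lemma holeFree_fill (S : Finset (ℤ × ℤ)) : HoleFree (fill S) := by
  intro p hp
  rw [mem_fill, not_not] at hp
  induction hp with
  | far p h =>
    apply Out.far
    intro q hq
    by_contra hc
    rw [mem_fill] at hq
    apply hq
    apply Out.far
    intro t ht
    have := h t ht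
    omega
  | step p d hp h ih =>
    refine Out.step p d ?_ ih
    rw [mem_fill, not_not]
    exact Out.step p d hp h

lemma hole_nbr {S : Finset (ℤ × ℤ)} {p : ℤ × ℤ} (hp : p ∈ fill S) (hpS : p ∉ S) (d : Dir) :
    p + vec d ∈ fill S := by
  rw [mem_fill] at hp ⊢
  intro hc
  exact hp (Out.step p d hpS hc)

lemma connect (S : Finset (ℤ × ℤ)) {q : ℤ × ℤ} (hq : q ∈ fill S) :
    ∃ s ∈ S, ∀ Q : ℤ × ℤ → Prop, Cl (fill S) Q → (Q q ↔ Q s) := by
  obtain ⟨M, hM⟩ := exists_bound (fill S)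
  have key : ∀ (n : ℕ) (q : ℤ × ℤ), q ∈ fill S → (M - q.1).toNat ≤ n →
      ∃ s ∈ S, ∀ Q : ℤ × ℤ → Prop, Cl (fill S) Q → (Q q ↔ Q s) := by
    intro n
    induction n with
    | zero =>
      intro q hq hn
      have := (hM q hq).1
      omega
    | succ n ih =>
      intro q hq hn
      by_cases hqS : q ∈ S
      · exact ⟨q, hqS, fun Q _ => Iff.rfl⟩
      · have h1 := hole_nbr hq hqS (true, true)
        have e : (q + vec (true, true)).1 = q.1 + 1 := rfl
        obtain ⟨s, hs, hQ⟩ := ih (q + vec (true, true)) h1 (by rw [e]; omega)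
        exact ⟨s, hs, fun Q hcl => (hcl.iff hq h1).trans (hQ Q hcl)⟩
  exact key _ q hq le_rfl

lemma conn_fill {S : Finset (ℤ × ℤ)} (hS : Conn S) : Conn (fill S) := by
  intro P p hp hPp hcl q hq
  obtain ⟨s, hs, hQs⟩ := connect S hp
  obtain ⟨t, ht, hQt⟩ := connect S hq
  have h1 := (hQs P hcl).mp hPp
  have h2 := hS P s hs h1 (fun u hu d hd hPu => hcl u (subset_fill S hu) d (subset_fill S hd) hPu)
    t ht
  exact (hQt P hcl).mpr h2

/-- The holes. -/
noncomputable def hol (S : Finset (ℤ × ℤ)) : Finset (ℤ × ℤ) := fill S \ S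

lemma card_fill (S : Finset (ℤ × ℤ)) : (fill S).card = S.card + (hol S).card := by
  unfold hol
  have := card_sdiff_add_card_eq_card (subset_fill S)
  omega

section glue

variable {U ι : Type*}

lemma good_none {tgt : U → ι → Option U} {c : U → ι} {u : U} (h : tgt u (c u) = none) :
    ∃ n : ℕ, (nxt tgt c)^[n] (some u) = none := ⟨1, h⟩

lemma good_some {tgt : U → ι → Option U} {c : U → ι} {u v : U} (h : tgt u (c u) = some v)
    (hv : ∃ n : ℕ, (nxt tgt c)^[n] (some v) = none) :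
    ∃ n : ℕ, (nxt tgt c)^[n] (some u) = none := by
  obtain ⟨n, hn⟩ := hv
  refine ⟨n + 1, ?_⟩
  rw [Function.iterate_succ_apply]
  have : nxt tgt c (some u) = some v := h
  rw [this]; exact hn

end glue

lemma tgtA_eq_none {A : Finset (ℤ × ℤ)} {u : A} {d : Dir} :
    tgtA A u d = none ↔ (u : ℤ × ℤ) + vec d ∉ A := by
  unfold tgtA
  by_cases h : (u : ℤ × ℤ) + vec d ∈ A
  · simp [h]
  · simp [h]

variable {S : Finset (ℤ × ℤ)} {r : ℤ × ℤ}

/-- Gluing choices. -/
noncomputable def glue (S : Finset (ℤ × ℤ)) (r : ℤ × ℤ) (c1 : S.erase r → Dir) (c2 : hol S → Dir) :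
    (fill S).erase r → Dir := by
  classical
  exact fun u => if h : (u : ℤ × ℤ) ∈ S then c1 ⟨u, mem_erase.mpr ⟨(mem_erase.mp u.2).1, h⟩⟩
    else c2 ⟨u, mem_sdiff.mpr ⟨(mem_erase.mp u.2).2, h⟩⟩

lemma glue_of_mem (c1 : S.erase r → Dir) (c2 : hol S → Dir) (u : (fill S).erase r)
    (h : (u : ℤ × ℤ) ∈ S) :
    glue S r c1 c2 u = c1 ⟨u, mem_erase.mpr ⟨(mem_erase.mp u.2).1, h⟩⟩ := dif_pos h

lemma glue_of_notMem (c1 : S.erase r → Dir) (c2 : hol S → Dir) (u : (fill S).erase r)
    (h : (u : ℤ × ℤ) ∉ S) :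
    glue S r c1 c2 u = c2 ⟨u, mem_sdiff.mpr ⟨(mem_erase.mp u.2).2, h⟩⟩ := dif_neg h

lemma glue_valid (c1 : S.erase r → Dir) (c2 : hol S → Dir)
    (h1 : ∀ u : S.erase r, (u : ℤ × ℤ) + vec (c1 u) ∈ S) (u : (fill S).erase r) :
    (u : ℤ × ℤ) + vec (glue S r c1 c2 u) ∈ fill S := by
  by_cases h : (u : ℤ × ℤ) ∈ S
  · rw [glue_of_mem c1 c2 u h]
    exact subset_fill S (h1 ⟨u, mem_erase.mpr ⟨(mem_erase.mp u.2).1, h⟩⟩)
  · exact hole_nbr (mem_erase.mp u.2).2 h _

lemma glue_acyclic (hr : r ∈ S) (c1 : S.erase r → Dir) (c2 : hol S → Dir)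
    (h1 : ∀ u : S.erase r, (u : ℤ × ℤ) + vec (c1 u) ∈ S)
    (ha1 : Acyclic (tgtA (S.erase r)) c1) (ha2 : Acyclic (tgtA (hol S)) c2) :
    Acyclic (tgtA ((fill S).erase r)) (glue S r c1 c2) := by
  have hS : ∀ (n : ℕ) (u : S.erase r) (u' : (fill S).erase r), (u' : ℤ × ℤ) = u →
      (nxt (tgtA (S.erase r)) c1)^[n] (some u) = none →
      ∃ m : ℕ, (nxt (tgtA ((fill S).erase r)) (glue S r c1 c2))^[m] (some u') = none := by
    intro n
    induction n with
    | zero => intro u u' _ hn; simp at hn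
    | succ n ih =>
      intro u u' huu hn
      have huS : (u' : ℤ × ℤ) ∈ S := by rw [huu]; exact mem_of_mem_erase u.2
      have hg : glue S r c1 c2 u' = c1 u := by
        rw [glue_of_mem c1 c2 u' huS]
        congr 1
        exact Subtype.ext huu
      rw [Function.iterate_succ_apply] at hn
      rcases ht : tgtA (S.erase r) u (c1 u) with _ | v
      · apply good_none
        rw [hg, tgtA_eq_none, huu]
        rw [tgtA_eq_none] at ht
        intro hc
        apply ht
        rw [mem_erase] at hc ⊢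
        exact ⟨hc.1, h1 u⟩
      · have hv := tgtA_eq_some.mp ht
        have hv' : (v : ℤ × ℤ) ∈ (fill S).erase r :=
          mem_erase.mpr ⟨(mem_erase.mp v.2).1, subset_fill S (mem_erase.mp v.2).2⟩
        have : nxt (tgtA (S.erase r)) c1 (some u) = some v := ht
        rw [this] at hn
        apply good_some (v := ⟨v, hv'⟩)
        · rw [hg, tgtA_eq_some, huu]
          exact hv
        · exact ih v ⟨v, hv'⟩ rfl hn
  have hI : ∀ (n : ℕ) (u : hol S) (u' : (fill S).erase r), (u' : ℤ × ℤ) = u →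
      (nxt (tgtA (hol S)) c2)^[n] (some u) = none →
      ∃ m : ℕ, (nxt (tgtA ((fill S).erase r)) (glue S r c1 c2))^[m] (some u') = none := by
    intro n
    induction n with
    | zero => intro u u' _ hn; simp at hn
    | succ n ih =>
      intro u u' huu hn
      have huS : (u' : ℤ × ℤ) ∉ S := by rw [huu]; exact (mem_sdiff.mp u.2).2
      have hg : glue S r c1 c2 u' = c2 u := by
        rw [glue_of_notMem c1 c2 u' huS]
        congr 1
        exact Subtype.ext huu
      rw [Function.iterate_succ_apply] at hn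
      have hfill : (u : ℤ × ℤ) + vec (c2 u) ∈ fill S :=
        hole_nbr (mem_sdiff.mp u.2).1 (mem_sdiff.mp u.2).2 _
      rcases ht : tgtA (hol S) u (c2 u) with _ | v
      · rw [tgtA_eq_none] at ht
        have hin : (u : ℤ × ℤ) + vec (c2 u) ∈ S := by
          by_contra hc
          exact ht (mem_sdiff.mpr ⟨hfill, hc⟩)
        by_cases hrr : (u : ℤ × ℤ) + vec (c2 u) = r
        · apply good_none
          rw [hg, tgtA_eq_none, huu, hrr]
          simp
        · have hv : (u : ℤ × ℤ) + vec (c2 u) ∈ S.erase r := mem_erase.mpr ⟨hrr, hin⟩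
          have hv' : (u : ℤ × ℤ) + vec (c2 u) ∈ (fill S).erase r := mem_erase.mpr ⟨hrr, hfill⟩
          apply good_some (v := ⟨_, hv'⟩)
          · rw [hg, tgtA_eq_some, huu]
          · obtain ⟨m, hm⟩ := ha1 ⟨_, hv⟩
            exact hS m ⟨_, hv⟩ ⟨_, hv'⟩ rfl hm
      · have hv := tgtA_eq_some.mp ht
        have hv' : (v : ℤ × ℤ) ∈ (fill S).erase r := by
          refine mem_erase.mpr ⟨?_, (mem_sdiff.mp v.2).1⟩
          intro hc
          exact (mem_sdiff.mp v.2).2 (hc ▸ hr)
        have : nxt (tgtA (hol S)) c2 (some u) = some v := ht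
        rw [this] at hn
        apply good_some (v := ⟨v, hv'⟩)
        · rw [hg, tgtA_eq_some, huu]
          exact hv
        · exact ih v ⟨v, hv'⟩ rfl hn
  intro u
  by_cases h : (u : ℤ × ℤ) ∈ S
  · obtain ⟨m, hm⟩ := ha1 ⟨u, mem_erase.mpr ⟨(mem_erase.mp u.2).1, h⟩⟩
    exact hS m _ u rfl hm
  · obtain ⟨m, hm⟩ := ha2 ⟨u, mem_sdiff.mpr ⟨(mem_erase.mp u.2).2, h⟩⟩
    exact hI m _ u rfl hm

/-- Filling the holes. -/
theorem main (hr : r ∈ S) :
    (lapS S r).det * (dirM (hol S)).det ≤ (lapS (fill S) r).det := by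
  rw [det_lapS, det_lapS, det_dirM]
  have h : Nat.card {c : S.erase r → Dir // (∀ u : S.erase r, (u : ℤ × ℤ) + vec (c u) ∈ S) ∧
      Acyclic (tgtA (S.erase r)) c} *
      Nat.card {c : hol S → Dir // (∀ _u : hol S, True) ∧ Acyclic (tgtA (hol S)) c} ≤
      Nat.card {c : (fill S).erase r → Dir // (∀ u : (fill S).erase r,
        (u : ℤ × ℤ) + vec (c u) ∈ fill S) ∧ Acyclic (tgtA ((fill S).erase r)) c} := by
    rw [← Nat.card_prod]
    apply Nat.card_le_card_of_injective (fun x => ⟨glue S r x.1.1 x.2.1,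
      glue_valid _ _ x.1.2.1, glue_acyclic hr _ _ x.1.2.1 x.1.2.2 x.2.2.2⟩)
    rintro ⟨⟨c1, h1, h1'⟩, ⟨c2, h2, h2'⟩⟩ ⟨⟨d1, k1, k1'⟩, ⟨d2, k2, k2'⟩⟩ heq
    have hfun : glue S r c1 c2 = glue S r d1 d2 := congrArg Subtype.val heq
    have e1 : c1 = d1 := by
      funext u
      have hu' : (u : ℤ × ℤ) ∈ (fill S).erase r :=
        mem_erase.mpr ⟨(mem_erase.mp u.2).1, subset_fill S (mem_erase.mp u.2).2⟩
      have := congrFun hfun ⟨u, hu'⟩
      rw [glue_of_mem c1 c2 ⟨u, hu'⟩ (mem_erase.mp u.2).2,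
        glue_of_mem d1 d2 ⟨u, hu'⟩ (mem_erase.mp u.2).2] at this
      exact this
    have e2 : c2 = d2 := by
      funext u
      have hu' : (u : ℤ × ℤ) ∈ (fill S).erase r := by
        refine mem_erase.mpr ⟨?_, (mem_sdiff.mp u.2).1⟩
        intro hc
        exact (mem_sdiff.mp u.2).2 (hc ▸ hr)
      have := congrFun hfun ⟨u, hu'⟩
      rw [glue_of_notMem c1 c2 ⟨u, hu'⟩ (mem_sdiff.mp u.2).2,
        glue_of_notMem d1 d2 ⟨u, hu'⟩ (mem_sdiff.mp u.2).2] at this
      exact this
    subst e1 e2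
    rfl
  exact_mod_cast h

lemma one_le_dirM (F : Finset (ℤ × ℤ)) : 1 ≤ (dirM F).det := by
  rw [det_dirM]
  obtain ⟨M, hM⟩ := exists_bound F
  have key : ∀ (n : ℕ) (u : F), (M - (u : ℤ × ℤ).1).toNat ≤ n →
      ∃ m : ℕ, (nxt (tgtA F) (fun _ => (true, true)))^[m] (some u) = none := by
    intro n
    induction n with
    | zero =>
      intro u hn
      have := (hM u u.2).1
      omega
    | succ n ih =>
      intro u hn
      rcases ht : tgtA F u (true, true) with _ | v
      · exact good_none ht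
      · refine good_some ht (ih v ?_)
        have := tgtA_eq_some.mp ht
        have e : (v : ℤ × ℤ).1 = (u : ℤ × ℤ).1 + 1 := by rw [← this]; rfl
        rw [e]
        omega
  have : 0 < Nat.card {c : F → Dir // (∀ _u : F, True) ∧ Acyclic (tgtA F) c} := by
    have : Nonempty {c : F → Dir // (∀ _u : F, True) ∧ Acyclic (tgtA F) c} :=
      ⟨⟨fun _ => (true, true), fun _ => trivial, fun u => key _ u le_rfl⟩⟩
    exact Nat.card_pos
  exact_mod_cast this

end Fill

end Pool.Agent.H.MP_9bb806_co
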