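import Pool.Agent.H.MP_9bb806_co.Defs

set_option autoImplicit false

namespace Pool.Agent.H.MP_9bb806_co

/-- `f` is an acyclic parent function of `G` towards the root `r`. -/
def ParentFun {V : Type*} (G : SimpleGraph V) (r : V) (f : V → V) : Prop :=
  f r = r ∧ (∀ v, v ≠ r → G.Adj v (f v)) ∧ ∀ v, ∃ n : ℕ, f^[n] v = r

namespace Trees

variable {V : Type*}

/-- The graph of a function. -/
def gr (f : V → V) : SimpleGraph V where
  Adj u v := u ≠ v ∧ (f u = v ∨ f v = u)
  symm := ⟨fun _ _ h => ⟨h.1.symm, h.2.symm⟩⟩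
  loopless := ⟨fun _ h => h.1 rfl⟩

lemma iter_two {f : V → V} {v : V} (h : f (f v) = v) (n : ℕ) : f^[n] v = v ∨ f^[n] v = f v := by
  induction n with
  | zero => exact Or.inl rfl
  | succ n ih =>
    rw [Function.iterate_succ_apply']
    rcases ih with h1 | h1
    · rw [h1]; exact Or.inr rfl
    · rw [h1, h]; exact Or.inl rfl

lemma no_two_cycle {G : SimpleGraph V} {r : V} {f : V → V} (hf : ParentFun G r f) {v : V}
    (h : f (f v) = v) : v = r := by
  obtain ⟨n, hn⟩ := hf.2.2 v
  rcases iter_two h n with h1 | h1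
  · rw [← h1, hn]
  · rw [hn] at h1
    rw [← h1, hf.1] at h
    exact h.symm

lemma gr_le {G : SimpleGraph V} {r : V} {f : V → V} (hf : ParentFun G r f) : gr f ≤ G := by
  intro u v h
  obtain ⟨hne, h1⟩ := h
  have key : ∀ a b : V, a ≠ b → f a = b → G.Adj a b := by
    intro a b hab hfa
    have har : a ≠ r := by
      rintro rfl
      exact hab (hf.1.symm.trans hfa)
    have := hf.2.1 a har
    rwa [hfa] at this
  rcases h1 with h1 | h1
  · exact key u v hne h1
  · exact (key v u hne.symm h1).symm

lemma reach {G : SimpleGraph V} {r : V} {f : V → V} (_hf : ParentFun G r f) (n : ℕ) :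
    ∀ v, f^[n] v = r → (gr f).Reachable v r := by
  induction n with
  | zero =>
    intro v hv
    have : v = r := hv
    rw [this]
  | succ n ih =>
    intro v hv
    rw [Function.iterate_succ_apply] at hv
    have h1 := ih (f v) hv
    by_cases h : v = f v
    · rwa [← h] at h1
    · have : (gr f).Adj v (f v) := ⟨h, Or.inl rfl⟩
      exact this.reachable.trans h1

lemma connected {G : SimpleGraph V} {r : V} {f : V → V} (hf : ParentFun G r f) :
    (gr f).Connected := by
  have : Nonempty V := ⟨r⟩
  refine SimpleGraph.Connected.mk ?_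
  intro u v
  obtain ⟨n, hn⟩ := hf.2.2 u
  obtain ⟨k, hk⟩ := hf.2.2 v
  exact (reach hf n u hn).trans (reach hf k v hk).symm

lemma card_edges {G : SimpleGraph V} [Finite V] {r : V} {f : V → V} (hf : ParentFun G r f) :
    Nat.card (gr f).edgeSet + 1 = Nat.card V := by
  classical
  have := Fintype.ofFinite V
  have hne : ∀ v : V, v ≠ r → v ≠ f v := fun v hv => (hf.2.1 v hv).ne
  let φ : {v : V // v ≠ r} → (gr f).edgeSet := fun v =>
    ⟨s(v.1, f v.1), by
      rw [SimpleGraph.mem_edgeSet]
      exact ⟨hne v.1 v.2, Or.inl rfl⟩⟩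
  have hφ : Function.Bijective φ := by
    constructor
    · rintro ⟨v, hv⟩ ⟨u, hu⟩ h
      have h1 : s(v, f v) = s(u, f u) := congrArg Subtype.val h
      rw [Sym2.eq_iff] at h1
      rcases h1 with ⟨h1, _⟩ | ⟨h1, h2⟩
      · exact Subtype.ext h1
      · exfalso
        apply hv
        refine no_two_cycle hf ?_
        rw [h2, ← h1]
    · rintro ⟨e, he⟩
      induction e using Sym2.ind with
      | _ a b =>
        rw [SimpleGraph.mem_edgeSet] at he
        obtain ⟨hab, h1⟩ := he
        rcases h1 with h1 | h1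
        · refine ⟨⟨a, ?_⟩, ?_⟩
          · rintro rfl
            exact hab (hf.1.symm.trans h1)
          · apply Subtype.ext
            show s(a, f a) = s(a, b)
            rw [h1]
        · refine ⟨⟨b, ?_⟩, ?_⟩
          · rintro rfl
            exact hab (hf.1.symm.trans h1).symm
          · apply Subtype.ext
            show s(b, f b) = s(a, b)
            rw [h1, Sym2.eq_swap]
  rw [← Nat.card_congr (Equiv.ofBijective φ hφ), Nat.card_eq_fintype_card,
    Nat.card_eq_fintype_card, Fintype.card_subtype_compl, Fintype.card_subtype_eq]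
  have : 0 < Fintype.card V := Fintype.card_pos_iff.2 ⟨r⟩
  omega

lemma isTree {G : SimpleGraph V} [Finite V] {r : V} {f : V → V} (hf : ParentFun G r f) :
    (gr f).IsTree :=
  SimpleGraph.isTree_iff_connected_and_card.2 ⟨connected hf, card_edges hf⟩

lemma gr_injective {G : SimpleGraph V} {r : V} {f g : V → V} (hf : ParentFun G r f)
    (hg : ParentFun G r g) (h : gr f = gr g) : f = g := by
  have key : ∀ a : V, a ≠ r → f a ≠ g a → f a ≠ r ∧ f (f a) ≠ g (f a) := by
    intro a ha hab
    have hadj : (gr f).Adj a (f a) := ⟨(hf.2.1 a ha).ne, Or.inl rfl⟩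
    rw [h] at hadj
    have h1 : g (f a) = a := by
      rcases hadj.2 with h2 | h2
      · exact absurd h2.symm hab
      · exact h2
    have h2 : f a ≠ r := by
      intro h3
      rw [h3, hg.1] at h1
      exact ha h1.symm
    refine ⟨h2, fun h3 => ?_⟩
    rw [h1] at h3
    exact ha (no_two_cycle hf h3)
  by_contra hne
  obtain ⟨v, hv⟩ := Function.ne_iff.1 hne
  have hvr : v ≠ r := by
    rintro rfl
    exact hv (hf.1.trans hg.1.symm)
  have all : ∀ n : ℕ, f^[n] v ≠ r ∧ f (f^[n] v) ≠ g (f^[n] v) := by
    intro n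
    induction n with
    | zero => exact ⟨hvr, hv⟩
    | succ n ih =>
      rw [Function.iterate_succ_apply']
      exact key _ ih.1 ih.2
  obtain ⟨n, hn⟩ := hf.2.2 v
  exact (all n).1 hn

lemma exists_closer {T : SimpleGraph V} (hT : T.Connected) (r v : V) (hv : v ≠ r) :
    ∃ w, T.Adj v w ∧ T.dist w r + 1 = T.dist v r := by
  obtain ⟨p, hp⟩ := hT.exists_walk_length_eq_dist v r
  cases p with
  | nil => exact absurd rfl hv
  | @cons _ w _ hadj q =>
    refine ⟨w, hadj, ?_⟩
    have h1 : T.dist w r ≤ q.length := SimpleGraph.dist_le q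
    have h2 : T.dist v r ≤ T.dist v w + T.dist w r := hT.dist_triangle
    have h3 : T.dist v w = 1 := SimpleGraph.dist_eq_one_iff_adj.2 hadj
    rw [SimpleGraph.Walk.length_cons] at hp
    omega

lemma exists_parent {G T : SimpleGraph V} (hTG : T ≤ G) (hT : T.IsTree) (r : V) :
    ∃ f : V → V, ParentFun G r f ∧ gr f = T := by
  classical
  have hc : T.Connected := hT.connected
  have hex : ∀ v : V, ∃ w, (v = r → w = r) ∧ (v ≠ r → T.Adj v w ∧ T.dist w r + 1 = T.dist v r) := by
    intro v
    by_cases hv : v = r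
    · exact ⟨r, fun _ => rfl, fun h => absurd hv h⟩
    · obtain ⟨w, hw⟩ := exists_closer hc r v hv
      exact ⟨w, fun h => absurd h hv, fun _ => hw⟩
  choose f hf1 hf2 using hex
  have hfr : f r = r := hf1 r rfl
  have hreach : ∀ n : ℕ, ∀ v, T.dist v r = n → ∃ k : ℕ, f^[k] v = r := by
    intro n
    induction n with
    | zero =>
      intro v hv
      refine ⟨0, ?_⟩
      exact (hc.dist_eq_zero_iff).1 hv
    | succ n ih =>
      intro v hv
      have hvr : v ≠ r := by
        rintro rfl
        simp at hv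
      obtain ⟨_, h2⟩ := hf2 v hvr
      obtain ⟨k, hk⟩ := ih (f v) (by omega)
      exact ⟨k + 1, by rw [Function.iterate_succ_apply]; exact hk⟩
  have hP : ∀ H : SimpleGraph V, T ≤ H → ParentFun H r f := fun H hH =>
    ⟨hfr, fun v hv => hH (hf2 v hv).1, fun v => hreach _ v rfl⟩
  refine ⟨f, hP G hTG, ?_⟩
  have hle : gr f ≤ T := gr_le (hP T le_rfl)
  have hmin := (SimpleGraph.isTree_iff_minimal_connected.1 hT).2 (connected (hP T le_rfl)) hle
  exact le_antisymm hle hmin

end Trees

/-- Spanning trees are counted by the acyclic parent functions towards a root. -/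
theorem numSpanningTrees_eq_card_parentFun {V : Type*} [Finite V] (G : SimpleGraph V) (r : V) :
    numSpanningTrees G = Nat.card {f : V → V // ParentFun G r f} := by
  unfold numSpanningTrees
  rw [← Nat.card_coe_set_eq]
  symm
  refine Nat.card_congr (Equiv.ofBijective
    (fun f : {f : V → V // ParentFun G r f} =>
      (⟨Trees.gr f.1, Trees.gr_le f.2, Trees.isTree f.2⟩ : {T : SimpleGraph V | T ≤ G ∧ T.IsTree}))
    ⟨?_, ?_⟩)
  · rintro ⟨f, hf⟩ ⟨g, hg⟩ h
    exact Subtype.ext (Trees.gr_injective hf hg (congrArg Subtype.val h))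
  · rintro ⟨T, hTG, hT⟩
    obtain ⟨f, hf, hfT⟩ := Trees.exists_parent hTG hT r
    exact ⟨⟨f, hf⟩, Subtype.ext hfT⟩

/-- The number of spanning trees is invariant under isomorphism. -/
theorem numSpanningTrees_iso {V W : Type*} [Finite V] {G : SimpleGraph V} {H : SimpleGraph W}
    (e : G ≃g H) : numSpanningTrees G = numSpanningTrees H := by
  unfold numSpanningTrees
  have key : ∀ T : SimpleGraph V, (T ≤ G ∧ T.IsTree) ↔
      (e.toEquiv.simpleGraph T ≤ H ∧ (e.toEquiv.simpleGraph T).IsTree) := by
    intro T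
    refine and_congr ?_ ?_
    · constructor
      · intro h a b hab
        have h1 : T.Adj (e.symm a) (e.symm b) := hab
        have h2 := h h1
        have h3 := e.map_adj_iff.2 h2
        simpa using h3
      · intro h a b hab
        have h1 : (e.toEquiv.simpleGraph T).Adj (e a) (e b) := by
          show T.Adj (e.toEquiv.symm (e a)) (e.toEquiv.symm (e b))
          have : ∀ x : V, e.toEquiv.symm (e x) = x := fun x => e.toEquiv.symm_apply_apply x
          rwa [this, this]
        exact e.map_adj_iff.1 (h h1)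
    · exact ((SimpleGraph.Iso.comap e.toEquiv.symm T).isTree_iff).symm
  have hset : {T : SimpleGraph W | T ≤ H ∧ T.IsTree} =
      e.toEquiv.simpleGraph '' {T : SimpleGraph V | T ≤ G ∧ T.IsTree} := by
    ext S
    constructor
    · intro hS
      refine ⟨e.toEquiv.simpleGraph.symm S, ?_, Equiv.apply_symm_apply _ _⟩
      have := (key (e.toEquiv.simpleGraph.symm S))
      rw [Equiv.apply_symm_apply] at this
      exact this.2 hS
    · rintro ⟨T, hT, rfl⟩
      exact (key T).1 hT
  rw [hset, Set.ncard_image_of_injective _ (Equiv.injective _)]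

end Pool.Agent.H.MP_9bb806_co
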