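import Mathlib
import Pool.Agent.H.MP_9bb806_co.Trees
import Pool.Agent.H.MP_9bb806_co.Fill

/-!
Spanning trees of induced subgraphs of the lattice and the reduced Laplacian.
-/

namespace Pool.Agent.H.MP_9bb806_co

open Finset

namespace Link

lemma vec_injective : Function.Injective vec := by
  rintro ⟨_ | _, _ | _⟩ ⟨_ | _, _ | _⟩ h <;> first | rfl | (exact absurd h (by decide))

lemma lattice_adj {p q : ℤ × ℤ} : lattice.Adj p q ↔ ∃ d : Dir, p + vec d = q := by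
  constructor
  · intro h
    rcases h with ⟨h1, h2⟩ | ⟨h1, h2⟩
    · rcases (abs_eq (by norm_num : (0 : ℤ) ≤ 1)).mp h2 with h3 | h3
      · exact ⟨(false, true), by ext <;> simp [vec] <;> omega⟩
      · exact ⟨(true, false), by ext <;> simp [vec] <;> omega⟩
    · rcases (abs_eq (by norm_num : (0 : ℤ) ≤ 1)).mp h2 with h3 | h3
      · exact ⟨(false, false), by ext <;> simp [vec] <;> omega⟩
      · exact ⟨(true, true), by ext <;> simp [vec] <;> omega⟩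
  · rintro ⟨d, rfl⟩
    rcases d with ⟨_ | _, _ | _⟩
    · right; simp [vec]
    · left; simp [vec]
    · left; simp [vec]
    · right; simp [vec]

lemma conn_of_connected {S : Finset (ℤ × ℤ)}
    (h : (lattice.induce (S : Set (ℤ × ℤ))).Connected) : Conn S := by
  intro P p hp hPp hcl q hq
  have hreach := h.preconnected ⟨p, hp⟩ ⟨q, hq⟩
  obtain ⟨w⟩ := hreach
  have key : ∀ (a b : (S : Set (ℤ × ℤ))) (w : (lattice.induce (S : Set (ℤ × ℤ))).Walk a b),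
      P a → P b := by
    intro a b w
    induction w with
    | nil => exact id
    | @cons a b c hab _ ih =>
      intro ha
      apply ih
      have hadj : lattice.Adj (a : ℤ × ℤ) b := hab
      obtain ⟨d, hd⟩ := lattice_adj.mp hadj
      rw [← hd]
      apply hcl _ a.2 d _ ha
      rw [hd]
      exact b.2
  exact key _ _ w hPp

variable {S : Finset (ℤ × ℤ)} {r : ℤ × ℤ}

/-- The parent function of a choice. -/
noncomputable def par (hr : r ∈ S) (c : S.erase r → Dir)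
    (hc : ∀ u : S.erase r, (u : ℤ × ℤ) + vec (c u) ∈ S) :
    ↥(S : Set (ℤ × ℤ)) → ↥(S : Set (ℤ × ℤ)) := by
  classical
  exact fun u => if h : (u : ℤ × ℤ) = r then ⟨r, hr⟩ else
    ⟨(u : ℤ × ℤ) + vec (c ⟨u, mem_erase.mpr ⟨h, u.2⟩⟩), hc ⟨u, mem_erase.mpr ⟨h, u.2⟩⟩⟩

lemma par_root (hr : r ∈ S) (c : S.erase r → Dir)
    (hc : ∀ u : S.erase r, (u : ℤ × ℤ) + vec (c u) ∈ S) :
    par hr c hc ⟨r, hr⟩ = ⟨r, hr⟩ := dif_pos rfl

lemma par_ne (hr : r ∈ S) (c : S.erase r → Dir)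
    (hc : ∀ u : S.erase r, (u : ℤ × ℤ) + vec (c u) ∈ S) (u : (S : Set (ℤ × ℤ)))
    (h : (u : ℤ × ℤ) ≠ r) :
    par hr c hc u = ⟨(u : ℤ × ℤ) + vec (c ⟨u, mem_erase.mpr ⟨h, u.2⟩⟩),
      hc ⟨u, mem_erase.mpr ⟨h, u.2⟩⟩⟩ := dif_neg h

/-- Killing the root. -/
noncomputable def tau (S : Finset (ℤ × ℤ)) (r : ℤ × ℤ) (u : (S : Set (ℤ × ℤ))) :
    Option (S.erase r) := by
  classical
  exact if h : (u : ℤ × ℤ) = r then none else some ⟨u, mem_erase.mpr ⟨h, u.2⟩⟩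

lemma tau_none {u : (S : Set (ℤ × ℤ))} : tau S r u = none ↔ (u : ℤ × ℤ) = r := by
  unfold tau
  by_cases h : (u : ℤ × ℤ) = r <;> simp [h]

lemma tau_step (hr : r ∈ S) (c : S.erase r → Dir)
    (hc : ∀ u : S.erase r, (u : ℤ × ℤ) + vec (c u) ∈ S) (u : (S : Set (ℤ × ℤ))) :
    tau S r (par hr c hc u) = nxt (tgtA (S.erase r)) c (tau S r u) := by
  by_cases h : (u : ℤ × ℤ) = r
  · have h1 : tau S r u = none := tau_none.mpr h
    have h2 : par hr c hc u = ⟨r, hr⟩ := dif_pos h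
    rw [h1, h2]
    exact tau_none.mpr rfl
  · have h1 : tau S r u = some ⟨u, mem_erase.mpr ⟨h, u.2⟩⟩ := dif_neg h
    rw [h1, par_ne hr c hc u h]
    change _ = tgtA (S.erase r) ⟨u, mem_erase.mpr ⟨h, u.2⟩⟩ (c ⟨u, mem_erase.mpr ⟨h, u.2⟩⟩)
    by_cases h2 : (u : ℤ × ℤ) + vec (c ⟨u, mem_erase.mpr ⟨h, u.2⟩⟩) = r
    · rw [tau_none.mpr h2]
      symm
      rw [Fill.tgtA_eq_none]
      simp only
      rw [h2]
      simp
    · have h3 : (u : ℤ × ℤ) + vec (c ⟨u, mem_erase.mpr ⟨h, u.2⟩⟩) ∈ S.erase r :=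
        mem_erase.mpr ⟨h2, hc ⟨u, mem_erase.mpr ⟨h, u.2⟩⟩⟩
      have h4 : tau S r ⟨(u : ℤ × ℤ) + vec (c ⟨u, mem_erase.mpr ⟨h, u.2⟩⟩),
        hc ⟨u, mem_erase.mpr ⟨h, u.2⟩⟩⟩ = some ⟨_, h3⟩ := dif_neg h2
      rw [h4]
      symm
      rw [tgtA_eq_some]

lemma tau_iterate (hr : r ∈ S) (c : S.erase r → Dir)
    (hc : ∀ u : S.erase r, (u : ℤ × ℤ) + vec (c u) ∈ S) (n : ℕ) (u : (S : Set (ℤ × ℤ))) :
    tau S r ((par hr c hc)^[n] u) = (nxt (tgtA (S.erase r)) c)^[n] (tau S r u) := by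
  induction n generalizing u with
  | zero => rfl
  | succ n ih => rw [Function.iterate_succ_apply, Function.iterate_succ_apply, ih, tau_step]

lemma parentFun_iff (hr : r ∈ S) (c : S.erase r → Dir)
    (hc : ∀ u : S.erase r, (u : ℤ × ℤ) + vec (c u) ∈ S) :
    ParentFun (lattice.induce (S : Set (ℤ × ℤ))) ⟨r, hr⟩ (par hr c hc) ↔
      Acyclic (tgtA (S.erase r)) c := by
  constructor
  · rintro ⟨_, _, h3⟩ u
    obtain ⟨n, hn⟩ := h3 ⟨u, (mem_erase.mp u.2).2⟩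
    refine ⟨n, ?_⟩
    have h1 : tau S r ⟨u, (mem_erase.mp u.2).2⟩ = some u := dif_neg (mem_erase.mp u.2).1
    rw [← h1, ← tau_iterate hr c hc, hn]
    exact tau_none.mpr rfl
  · intro ha
    refine ⟨par_root hr c hc, ?_, ?_⟩
    · intro v hv
      have hv' : (v : ℤ × ℤ) ≠ r := fun h => hv (Subtype.ext h)
      rw [par_ne hr c hc v hv']
      change lattice.Adj (v : ℤ × ℤ) ((v : ℤ × ℤ) + vec (c ⟨v, mem_erase.mpr ⟨hv', v.2⟩⟩))
      exact lattice_adj.mpr ⟨_, rfl⟩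
    · intro v
      by_cases hv : (v : ℤ × ℤ) = r
      · exact ⟨0, Subtype.ext hv⟩
      · obtain ⟨n, hn⟩ := ha ⟨v, mem_erase.mpr ⟨hv, v.2⟩⟩
        refine ⟨n, ?_⟩
        have h1 : tau S r v = some ⟨v, mem_erase.mpr ⟨hv, v.2⟩⟩ := dif_neg hv
        rw [← h1, ← tau_iterate hr c hc, tau_none] at hn
        exact Subtype.ext hn

/-- Matrix tree theorem for lattice sets. -/
theorem main (hr : r ∈ S) :
    (numSpanningTrees (lattice.induce (S : Set (ℤ × ℤ))) : ℤ) = (lapS S r).det := by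
  rw [det_lapS, numSpanningTrees_eq_card_parentFun _ (⟨r, hr⟩ : (S : Set (ℤ × ℤ)))]
  congr 1
  symm
  refine Nat.card_congr (Equiv.ofBijective
    (fun c : {c : S.erase r → Dir // (∀ u : S.erase r, (u : ℤ × ℤ) + vec (c u) ∈ S) ∧
      Acyclic (tgtA (S.erase r)) c} =>
      (⟨par hr c.1 c.2.1, (parentFun_iff hr c.1 c.2.1).mpr c.2.2⟩ :
        {f : ↥(S : Set (ℤ × ℤ)) → ↥(S : Set (ℤ × ℤ)) //
          ParentFun (lattice.induce (S : Set (ℤ × ℤ))) ⟨r, hr⟩ f}))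
    ⟨?_, ?_⟩)
  · rintro ⟨c, hc, hc'⟩ ⟨e, he, he'⟩ h
    have hfun : par hr c hc = par hr e he := congrArg Subtype.val h
    apply Subtype.ext
    funext u
    have hu : (u : ℤ × ℤ) ≠ r := (mem_erase.mp u.2).1
    have := congrFun hfun ⟨u, (mem_erase.mp u.2).2⟩
    rw [par_ne hr c hc _ hu, par_ne hr e he _ hu] at this
    have h2 := congrArg Subtype.val this
    simp only at h2
    exact vec_injective (add_left_cancel h2)
  · rintro ⟨f, hf⟩
    have hex : ∀ u : S.erase r, ∃ d : Dir, (u : ℤ × ℤ) + vec d =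
        (f ⟨u, (mem_erase.mp u.2).2⟩ : ℤ × ℤ) := by
      intro u
      have hne : (⟨u, (mem_erase.mp u.2).2⟩ : (S : Set (ℤ × ℤ))) ≠ ⟨r, hr⟩ := by
        intro hc
        exact (mem_erase.mp u.2).1 (congrArg Subtype.val hc)
      have hadj : lattice.Adj (u : ℤ × ℤ) (f ⟨u, (mem_erase.mp u.2).2⟩ : ℤ × ℤ) := hf.2.1 _ hne
      exact lattice_adj.mp hadj
    choose c hc using hex
    have hval : ∀ u : S.erase r, (u : ℤ × ℤ) + vec (c u) ∈ S := by
      intro u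
      rw [hc u]
      exact (f ⟨u, (mem_erase.mp u.2).2⟩).2
    have hpf : par hr c hval = f := by
      funext u
      by_cases hu : (u : ℤ × ℤ) = r
      · have hu' : u = ⟨r, hr⟩ := Subtype.ext hu
        rw [hu', par_root, hf.1]
      · rw [par_ne hr c hval u hu]
        apply Subtype.ext
        simp only
        exact hc ⟨u, mem_erase.mpr ⟨hu, u.2⟩⟩
    refine ⟨⟨c, hval, (parentFun_iff hr c hval).mp (by rw [hpf]; exact hf)⟩, ?_⟩
    exact Subtype.ext hpf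

end Link

end Pool.Agent.H.MP_9bb806_co
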