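import Mathlib

/-!
`log det (x - A)` as a power series in traces of powers of `A`.
-/

namespace Pool.Agent.H.MP_9bb806_co

open Matrix

section
variable {n : Type*} [Fintype n] [DecidableEq n]

lemma eigenvalue_abs_le {A : Matrix n n ℝ} (hA : A.IsHermitian) {c : ℝ}
    (hc : ∀ i, ∑ j, |A i j| ≤ c) (i : n) : |hA.eigenvalues i| ≤ c := by
  set v : n → ℝ := ⇑(hA.eigenvectorBasis i) with hv
  have hmul : A *ᵥ v = hA.eigenvalues i • v := hA.mulVec_eigenvectorBasis i
  have hvne : v ≠ 0 := by
    intro h0
    have := hA.eigenvectorBasis.orthonormal.ne_zero i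
    apply this
    ext j
    exact congrFun h0 j
  obtain ⟨p, -, hp⟩ := Finset.exists_max_image Finset.univ (fun j => |v j|)
    ⟨i, Finset.mem_univ i⟩
  have hvp : 0 < |v p| := by
    rcases (abs_nonneg (v p)).eq_or_lt with h | h
    · exfalso
      apply hvne
      funext j
      have := hp j (Finset.mem_univ j)
      rw [← h] at this
      exact abs_nonpos_iff.mp this
    · exact h
  have h1 : hA.eigenvalues i * v p = ∑ j, A p j * v j := by
    have := congrFun hmul p
    simp only [mulVec, dotProduct, Pi.smul_apply, smul_eq_mul] at this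
    exact this.symm
  have h2 : |hA.eigenvalues i| * |v p| ≤ c * |v p| := by
    rw [← abs_mul, h1]
    calc |∑ j, A p j * v j| ≤ ∑ j, |A p j * v j| := Finset.abs_sum_le_sum_abs _ _
      _ ≤ ∑ j, |A p j| * |v p| := by
          apply Finset.sum_le_sum
          intro j _
          rw [abs_mul]
          exact mul_le_mul_of_nonneg_left (hp j (Finset.mem_univ j)) (abs_nonneg _)
      _ = (∑ j, |A p j|) * |v p| := by rw [Finset.sum_mul]
      _ ≤ c * |v p| := mul_le_mul_of_nonneg_right (hc p) hvp.le
  exact le_of_mul_le_mul_right h2 hvp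

lemma trace_pow_eq_sum {A : Matrix n n ℝ} (hA : A.IsHermitian) (k : ℕ) :
    (A ^ k).trace = ∑ i, hA.eigenvalues i ^ k := by
  have h := hA.spectral_theorem
  have h2 : A ^ k = Unitary.conjStarAlgAut ℝ _ hA.eigenvectorUnitary
      ((diagonal (RCLike.ofReal ∘ hA.eigenvalues)) ^ k) := by
    rw [map_pow, ← h]
  rw [h2, Unitary.conjStarAlgAut_apply, trace_mul_comm, ← mul_assoc, Matrix.diagonal_pow]
  simp [trace_diagonal]

lemma det_sub_eq_prod {A : Matrix n n ℝ} (hA : A.IsHermitian) (x : ℝ) :
    (x • (1 : Matrix n n ℝ) - A).det = ∏ i, (x - hA.eigenvalues i) := by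
  have h1 : (x • (1 : Matrix n n ℝ) - A).det = A.charpoly.eval x := by
    rw [Matrix.eval_charpoly]
    congr 1
    rw [Matrix.scalar_apply, ← Matrix.smul_one_eq_diagonal]
  rw [h1, hA.charpoly_eq, Polynomial.eval_prod]
  simp

theorem det_pos_of_rowsum {A : Matrix n n ℝ} (hA : A.IsHermitian) {c x : ℝ}
    (hc : ∀ i, ∑ j, |A i j| ≤ c) (hx : c < x) : 0 < (x • (1 : Matrix n n ℝ) - A).det := by
  rw [det_sub_eq_prod hA]
  apply Finset.prod_pos
  intro i _
  have := (abs_le.mp (eigenvalue_abs_le hA hc i)).2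
  linarith

theorem hasSum_logdet {A : Matrix n n ℝ} (hA : A.IsHermitian) {c x : ℝ} (hc0 : 0 ≤ c)
    (hc : ∀ i, ∑ j, |A i j| ≤ c) (hx : c < x) :
    HasSum (fun k : ℕ => (A ^ (k + 1)).trace / ((k + 1 : ℕ) * x ^ (k + 1)))
      (Fintype.card n * Real.log x - Real.log (x • (1 : Matrix n n ℝ) - A).det) := by
  have hxpos : 0 < x := lt_of_le_of_lt hc0 hx
  have hlt : ∀ i, |hA.eigenvalues i / x| < 1 := by
    intro i
    rw [abs_div, abs_of_pos hxpos, div_lt_one hxpos]
    exact lt_of_le_of_lt (eigenvalue_abs_le hA hc i) hx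
  have hsum : HasSum (fun k : ℕ => ∑ i, (hA.eigenvalues i / x) ^ (k + 1) / ((k : ℝ) + 1))
      (∑ i, - Real.log (1 - hA.eigenvalues i / x)) :=
    hasSum_sum (fun i _ => Real.hasSum_pow_div_log_of_abs_lt_one (hlt i))
  have hval : (∑ i, - Real.log (1 - hA.eigenvalues i / x)) =
      Fintype.card n * Real.log x - Real.log (x • (1 : Matrix n n ℝ) - A).det := by
    rw [det_sub_eq_prod hA, Real.log_prod]
    · have : ∀ i, - Real.log (1 - hA.eigenvalues i / x) =
          Real.log x - Real.log (x - hA.eigenvalues i) := by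
        intro i
        have h1 : 1 - hA.eigenvalues i / x = (x - hA.eigenvalues i) / x := by
          field_simp
        have h2 : 0 < x - hA.eigenvalues i := by
          have := (abs_le.mp (eigenvalue_abs_le hA hc i)).2
          linarith
        rw [h1, Real.log_div h2.ne' hxpos.ne']
        ring
      simp_rw [this]
      rw [Finset.sum_sub_distrib, Finset.sum_const, Finset.card_univ, nsmul_eq_mul]
    · intro i _
      have := (abs_le.mp (eigenvalue_abs_le hA hc i)).2
      have : 0 < x - hA.eigenvalues i := by linarith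
      exact this.ne'
  rw [← hval]
  convert hsum using 1
  funext k
  rw [trace_pow_eq_sum hA, Finset.sum_div]
  apply Finset.sum_congr rfl
  intro i _
  rw [div_pow]
  push_cast
  field_simp

end

end Pool.Agent.H.MP_9bb806_co
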