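import Mathlib
import Pool.Agent.H.MP_9bb806_co.Words
import Pool.Agent.H.MP_9bb806_co.LogDet

/-!
Traces of powers of the adjacency matrix of a finite set of cells, as sums over closed words.
-/

namespace Pool.Agent.H.MP_9bb806_co

open Matrix

namespace TW

section
variable {α : Type} [Fintype α]

lemma W_congr {n : ℕ} {f g : List α → ℝ} (h : ∀ s, f s = g s) : W n f = W n g := by
  have : f = g := funext h
  rw [this]

lemma W_zero (n : ℕ) : W n (fun _ : List α => (0 : ℝ)) = 0 := by
  induction n with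
  | zero => rfl
  | succ n ih => simp only [W, ih, Finset.sum_const_zero]

lemma W_add (n : ℕ) (f g : List α → ℝ) : W n (fun s => f s + g s) = W n f + W n g := by
  induction n generalizing f g with
  | zero => rfl
  | succ n ih =>
    simp only [W]
    rw [← Finset.sum_add_distrib]
    exact Finset.sum_congr rfl (fun a _ => ih _ _)

lemma W_sub (n : ℕ) (f g : List α → ℝ) : W n (fun s => f s - g s) = W n f - W n g := by
  induction n generalizing f g with
  | zero => rfl
  | succ n ih =>
    simp only [W]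
    rw [← Finset.sum_sub_distrib]
    exact Finset.sum_congr rfl (fun a _ => ih _ _)

lemma W_mul (n : ℕ) (c : ℝ) (f : List α → ℝ) : W n (fun s => c * f s) = c * W n f := by
  induction n generalizing f with
  | zero => rfl
  | succ n ih =>
    simp only [W]
    rw [Finset.mul_sum]
    exact Finset.sum_congr rfl (fun a _ => ih _)

lemma W_sum {ι : Type*} (n : ℕ) (A : Finset ι) (f : ι → List α → ℝ) :
    W n (fun s => ∑ i ∈ A, f i s) = ∑ i ∈ A, W n (f i) := by
  classical
  induction A using Finset.induction_on with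
  | empty => simp [W_zero]
  | insert a A ha ih =>
    rw [Finset.sum_insert ha, ← ih, ← W_add]
    exact W_congr (fun s => by rw [Finset.sum_insert ha])

lemma W_mono {n : ℕ} {f g : List α → ℝ} (h : ∀ s, f s ≤ g s) : W n f ≤ W n g := by
  induction n generalizing f g with
  | zero => exact h []
  | succ n ih => exact Finset.sum_le_sum (fun a _ => ih (fun s => h (a :: s)))

lemma W_map {β : Type} [Fintype β] (σ : α ≃ β) (n : ℕ) (f : List β → ℝ) :
    W n (fun s : List α => f (s.map σ)) = W n f := by
  induction n generalizing f with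
  | zero => rfl
  | succ n ih =>
    simp only [W, List.map_cons]
    rw [← Equiv.sum_comp σ]
    exact Finset.sum_congr rfl (fun a _ => ih (fun s => f (σ a :: s)))

end

/-- Opposite direction. -/
def neg (d : Dir) : Dir := (!d.1, !d.2)

lemma vec_neg (d : Dir) : vec (neg d) = - vec d := by
  rcases d with ⟨_ | _, _ | _⟩ <;> decide

lemma neg_neg' (d : Dir) : neg (neg d) = d := by
  rcases d with ⟨_ | _, _ | _⟩ <;> rfl

def negEquiv : Dir ≃ Dir := ⟨neg, neg, neg_neg', neg_neg'⟩

/-- Adjacency matrix of a finite set of cells. -/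
noncomputable def adjM (F : Finset (ℤ × ℤ)) : Matrix F F ℝ :=
  Matrix.of fun p q => ∑ d : Dir, if (p : ℤ × ℤ) + vec d = (q : ℤ × ℤ) then (1 : ℝ) else 0

lemma adjM_apply (F : Finset (ℤ × ℤ)) (p q : F) :
    adjM F p q = ∑ d : Dir, if (p : ℤ × ℤ) + vec d = (q : ℤ × ℤ) then (1 : ℝ) else 0 := rfl

lemma adjM_isHermitian (F : Finset (ℤ × ℤ)) : (adjM F).IsHermitian := by
  ext p q
  rw [conjTranspose_apply, adjM_apply, adjM_apply, star_trivial]
  rw [← Equiv.sum_comp negEquiv]
  apply Finset.sum_congr rfl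
  intro d _
  have : vec (negEquiv d) = - vec d := vec_neg d
  rw [this]
  congr 1
  rw [eq_iff_iff]
  constructor
  · intro h; rw [← h]; abel
  · intro h; rw [← h]; abel

lemma adjM_rowsum (F : Finset (ℤ × ℤ)) (p : F) : ∑ q, |adjM F p q| ≤ 4 := by
  have h1 : ∀ q : F, |adjM F p q| =
      ∑ d : Dir, if (p : ℤ × ℤ) + vec d = (q : ℤ × ℤ) then (1 : ℝ) else 0 := by
    intro q
    rw [adjM_apply, abs_of_nonneg]
    exact Finset.sum_nonneg (fun d _ => by split_ifs <;> norm_num)
  simp_rw [h1]
  rw [Finset.sum_comm]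
  have h2 : ∀ d : Dir, ∑ q : F, (if (p : ℤ × ℤ) + vec d = (q : ℤ × ℤ) then (1 : ℝ) else 0) ≤ 1 := by
    intro d
    by_cases h : (p : ℤ × ℤ) + vec d ∈ F
    · rw [Finset.sum_eq_single (⟨(p : ℤ × ℤ) + vec d, h⟩ : F)]
      · simp
      · intro q _ hq
        rw [if_neg]
        intro hc
        apply hq
        exact Subtype.ext hc.symm
      · intro hn; exact absurd (Finset.mem_univ _) hn
    · rw [Finset.sum_eq_zero]
      · norm_num
      · intro q _
        rw [if_neg]
        intro hc
        exact h (hc ▸ q.2)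
  calc ∑ d : Dir, ∑ q : F, (if (p : ℤ × ℤ) + vec d = (q : ℤ × ℤ) then (1 : ℝ) else 0)
      ≤ ∑ _d : Dir, (1 : ℝ) := Finset.sum_le_sum (fun d _ => h2 d)
    _ = 4 := by simp [Fintype.card_prod, Fintype.card_bool]

/-- The walk from `p` with steps `s` stays in `F`. -/
def Stay (F : Finset (ℤ × ℤ)) : ℤ × ℤ → List Dir → Prop
  | p, [] => p ∈ F
  | p, d :: s => p ∈ F ∧ Stay F (p + vec d) s

noncomputable instance (F : Finset (ℤ × ℤ)) (p : ℤ × ℤ) (s : List Dir) :
    Decidable (Stay F p s) := Classical.dec _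

lemma Stay.mem {F : Finset (ℤ × ℤ)} {p : ℤ × ℤ} {s : List Dir} (h : Stay F p s) : p ∈ F := by
  cases s with
  | nil => exact h
  | cons d s => exact h.1

lemma pow_apply (F : Finset (ℤ × ℤ)) (n : ℕ) (p q : F) :
    (adjM F ^ n) p q =
      W n (fun s => if Stay F p s ∧ (p : ℤ × ℤ) + totv s = q then (1 : ℝ) else 0) := by
  induction n generalizing p with
  | zero =>
    simp only [pow_zero, W, Matrix.one_apply, Stay, totv, add_zero, p.2, true_and]
    congr 1
    rw [eq_iff_iff]
    exact Subtype.ext_iff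
  | succ n ih =>
    rw [pow_succ', Matrix.mul_apply]
    simp only [W]
    have h1 : ∀ r : F, adjM F p r * (adjM F ^ n) r q =
        ∑ d : Dir, (if (p : ℤ × ℤ) + vec d = (r : ℤ × ℤ) then (adjM F ^ n) r q else 0) := by
      intro r
      rw [adjM_apply, Finset.sum_mul]
      apply Finset.sum_congr rfl
      intro d _
      split_ifs <;> simp
    simp_rw [h1]
    rw [Finset.sum_comm]
    apply Finset.sum_congr rfl
    intro d _
    by_cases h : (p : ℤ × ℤ) + vec d ∈ F
    · rw [Finset.sum_eq_single (⟨(p : ℤ × ℤ) + vec d, h⟩ : F)]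
      · rw [if_pos rfl, ih]
        apply W_congr
        intro s
        simp only [Stay, totv, p.2, true_and, add_assoc]
      · intro r _ hr
        rw [if_neg]
        intro hc
        apply hr
        exact Subtype.ext hc.symm
      · intro hn; exact absurd (Finset.mem_univ _) hn
    · rw [Finset.sum_eq_zero]
      · symm
        refine Eq.trans (W_congr (g := fun _ => (0 : ℝ)) (fun s => ?_)) (W_zero n)
        rw [if_neg]
        rintro ⟨⟨_, hs⟩, _⟩
        exact h hs.mem
      · intro r _
        rw [if_neg]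
        intro hc
        exact h (hc ▸ r.2)

/-- Number of starting points from which the walk stays in `F`. -/
noncomputable def Np (F : Finset (ℤ × ℤ)) (s : List Dir) : ℕ :=
  (F.filter (fun p => Stay F p s)).card

lemma trace_pow (F : Finset (ℤ × ℤ)) (n : ℕ) :
    (adjM F ^ n).trace = W n (fun s => if Closed s then (Np F s : ℝ) else 0) := by
  rw [Matrix.trace]
  simp only [Matrix.diag_apply, pow_apply]
  rw [← W_sum]
  apply W_congr
  intro s
  have h1 : ∀ p : F, ((p : ℤ × ℤ) + totv s = p) ↔ Closed s := by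
    intro p
    rw [Closed]
    constructor
    · intro h; exact left_eq_add.mp h.symm
    · intro h; rw [h, add_zero]
  simp only [h1]
  by_cases hs : Closed s
  · simp only [hs, and_true, if_true]
    rw [Finset.sum_coe_sort F (fun p : ℤ × ℤ => if Stay F p s then (1 : ℝ) else 0)]
    rw [Np, Finset.card_filter]
    push_cast
    rfl
  · simp [hs]

/-- Lower bound for `Np`: a rectangle of cells accommodates the walk. -/
lemma stay_of_rect {F : Finset (ℤ × ℤ)} {p : ℤ × ℤ} {s : List Dir}
    (h : ∀ q : ℤ × ℤ, p.1 + mnx s ≤ q.1 → q.1 ≤ p.1 + mxx s → p.2 + mny s ≤ q.2 →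
      q.2 ≤ p.2 + mxy s → q ∈ F) : Stay F p s := by
  induction s generalizing p with
  | nil =>
    apply h <;> simp [mnx, mxx, mny, mxy]
  | cons d s ih =>
    simp only [mnx, mxx, mny, mxy] at h
    refine ⟨?_, ?_⟩
    · apply h <;> omega
    · apply ih
      intro q h1 h2 h3 h4
      simp only [Prod.fst_add, Prod.snd_add] at h1 h2 h3 h4
      apply h <;> omega

lemma mnx_nonpos (s : List Dir) : mnx s ≤ 0 := by cases s <;> simp [mnx]
lemma mny_nonpos (s : List Dir) : mny s ≤ 0 := by cases s <;> simp [mny]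
lemma mxx_nonneg (s : List Dir) : 0 ≤ mxx s := by cases s <;> simp [mxx]
lemma mxy_nonneg (s : List Dir) : 0 ≤ mxy s := by cases s <;> simp [mxy]

/-- `x`-extent. -/
def wx (s : List Dir) : ℕ := (mxx s - mnx s).toNat
/-- `y`-extent. -/
def wy (s : List Dir) : ℕ := (mxy s - mny s).toNat

lemma wx_cast (s : List Dir) : (wx s : ℤ) = mxx s - mnx s := by
  have := mnx_nonpos s
  have := mxx_nonneg s
  exact Int.toNat_of_nonneg (by omega)

lemma wy_cast (s : List Dir) : (wy s : ℤ) = mxy s - mny s := by
  have := mny_nonpos s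
  have := mxy_nonneg s
  exact Int.toNat_of_nonneg (by omega)

/-- Number of positions of a full `(w+1) × (h+1)` rectangle in `F` (lower left corners). -/
noncomputable def rects (F : Finset (ℤ × ℤ)) (w h : ℕ) : Finset (ℤ × ℤ) := by
  classical
  exact F.filter (fun q => ∀ i ≤ w, ∀ j ≤ h, q + ((i : ℤ), (j : ℤ)) ∈ F)

lemma rects_le_Np (F : Finset (ℤ × ℤ)) (s : List Dir) :
    (rects F (wx s) (wy s)).card ≤ Np F s := by
  classical
  rw [Np]
  apply Finset.card_le_card_of_injOn (fun q => q - (mnx s, mny s))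
  · intro q hq
    rw [Finset.mem_coe, rects, Finset.mem_filter] at hq
    have hstay : Stay F (q - (mnx s, mny s)) s := by
      apply stay_of_rect
      intro t h1 h2 h3 h4
      simp only [Prod.fst_sub, Prod.snd_sub] at h1 h2 h3 h4
      have e1 := wx_cast s
      have e2 := wy_cast s
      have := hq.2 (t.1 - q.1).toNat (by omega) (t.2 - q.2).toNat (by omega)
      have e3 : q + (((t.1 - q.1).toNat : ℤ), ((t.2 - q.2).toNat : ℤ)) = t := by
        ext
        · simp only [Prod.fst_add]; omega
        · simp only [Prod.snd_add]; omega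
      rwa [e3] at this
    rw [Finset.mem_coe, Finset.mem_filter]
    exact ⟨hstay.mem, hstay⟩
  · intro a _ b _ hab
    exact sub_left_injective hab

/-- The box of cells `[0,N) × [0,N)`. -/
noncomputable def boxF (N : ℕ) : Finset (ℤ × ℤ) := Finset.Ico (0 : ℤ) N ×ˢ Finset.Ico (0 : ℤ) N

lemma mem_boxF {N : ℕ} {p : ℤ × ℤ} : p ∈ boxF N ↔ (0 ≤ p.1 ∧ p.1 < N) ∧ (0 ≤ p.2 ∧ p.2 < N) := by
  simp [boxF, Finset.mem_product]

lemma stay_box {N : ℕ} {p : ℤ × ℤ} {s : List Dir} (h : Stay (boxF N) p s) :
    0 ≤ p.1 + mnx s ∧ p.1 + mxx s < N ∧ 0 ≤ p.2 + mny s ∧ p.2 + mxy s < N := by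
  induction s generalizing p with
  | nil =>
    have := mem_boxF.mp h
    simp [mnx, mxx, mny, mxy]
    tauto
  | cons d s ih =>
    have h1 := mem_boxF.mp h.1
    have h2 := ih h.2
    simp only [Prod.fst_add, Prod.snd_add] at h2
    simp only [mnx, mxx, mny, mxy]
    omega

/-- Exact upper bound of `Np` for the box. -/
lemma Np_box_le (N : ℕ) (s : List Dir) : Np (boxF N) s ≤ (N - wx s) * (N - wy s) := by
  classical
  rw [Np]
  have hsub : (boxF N).filter (fun p => Stay (boxF N) p s) ⊆
      Finset.Ico (-mnx s) (N - mxx s) ×ˢ Finset.Ico (-mny s) (N - mxy s) := by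
    intro p hp
    rw [Finset.mem_filter] at hp
    have := stay_box hp.2
    rw [Finset.mem_product, Finset.mem_Ico, Finset.mem_Ico]
    omega
  refine (Finset.card_le_card hsub).trans ?_
  rw [Finset.card_product, Int.card_Ico, Int.card_Ico]
  have e1 := wx_cast s
  have e2 := wy_cast s
  apply Nat.mul_le_mul
  · omega
  · omega

/-- The power series for `log det` in terms of words. -/
theorem hasSum_word (F : Finset (ℤ × ℤ)) {x : ℝ} (hx : 4 < x) :
    HasSum (fun k : ℕ => W (k + 1) (fun s => if Closed s then (Np F s : ℝ) else 0) /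
        ((k + 1 : ℕ) * x ^ (k + 1)))
      (F.card * Real.log x - Real.log (x • (1 : Matrix F F ℝ) - adjM F).det) := by
  have := hasSum_logdet (adjM_isHermitian F) (c := 4) (by norm_num) (adjM_rowsum F) hx
  simp only [trace_pow, Fintype.card_coe] at this
  exact this

theorem det_pos (F : Finset (ℤ × ℤ)) {x : ℝ} (hx : 4 < x) :
    0 < (x • (1 : Matrix F F ℝ) - adjM F).det :=
  det_pos_of_rowsum (adjM_isHermitian F) (adjM_rowsum F) hx

end TW

end Pool.Agent.H.MP_9bb806_co
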