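import Mathlib
import Pool.Agent.H.MP_9bb806_co.Link
import Pool.Agent.H.MP_9bb806_co.TraceWords

/-!
The square box of lattice points.
-/

namespace Pool.Agent.H.MP_9bb806_co

open Finset

namespace Box

lemma faces_box (N : ℕ) : faces (TW.boxF (N + 1)) = TW.boxF N := by
  ext p
  rw [mem_faces, TW.mem_boxF, TW.mem_boxF, TW.mem_boxF, TW.mem_boxF, TW.mem_boxF]
  simp only [Prod.fst_add, Prod.snd_add]
  push_cast
  omega

lemma holeFree_box (n : ℕ) : HoleFree (TW.boxF n) := by
  intro p hp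
  rw [TW.mem_boxF] at hp
  by_cases h : 0 ≤ p.1 ∧ p.1 < n
  · apply Fill.out_of_row
    intro q hq he
    rw [TW.mem_boxF] at hq
    omega
  · apply Fill.out_of_col
    intro q hq he
    rw [TW.mem_boxF] at hq
    omega

lemma conn_box (n : ℕ) : Conn (TW.boxF n) := by
  intro P p hp hPp hcl q hq
  have hcl' : Fill.Cl (TW.boxF n) P := hcl
  have col : ∀ (k : ℕ) (a : ℤ), (a, (k : ℤ)) ∈ TW.boxF n → (P (a, (k : ℤ)) ↔ P (a, 0)) := by
    intro k
    induction k with
    | zero => intro a _; simp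
    | succ k ih =>
      intro a ha
      have ha' : (a, (k : ℤ)) ∈ TW.boxF n := by
        rw [TW.mem_boxF] at ha ⊢
        simp only at ha ⊢
        push_cast at ha
        omega
      have e : (a, (k : ℤ)) + vec (true, false) = (a, ((k + 1 : ℕ) : ℤ)) := by
        ext <;> simp [vec]
      have := hcl'.iff ha' (d := (true, false)) (by rw [e]; exact ha)
      rw [e] at this
      exact this.symm.trans (ih a ha')
  have row : ∀ (k : ℕ), ((k : ℤ), (0 : ℤ)) ∈ TW.boxF n → (P ((k : ℤ), 0) ↔ P (0, 0)) := by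
    intro k
    induction k with
    | zero => intro _; simp
    | succ k ih =>
      intro ha
      have ha' : ((k : ℤ), (0 : ℤ)) ∈ TW.boxF n := by
        rw [TW.mem_boxF] at ha ⊢
        simp only at ha ⊢
        push_cast at ha
        omega
      have e : ((k : ℤ), (0 : ℤ)) + vec (true, true) = (((k + 1 : ℕ) : ℤ), 0) := by
        ext <;> simp [vec]
      have := hcl'.iff ha' (d := (true, true)) (by rw [e]; exact ha)
      rw [e] at this
      exact this.symm.trans (ih ha')
  have all : ∀ q ∈ TW.boxF n, (P q ↔ P (0, 0)) := by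
    intro q hq
    have hq' := TW.mem_boxF.mp hq
    obtain ⟨a, b⟩ := q
    simp only at hq'
    obtain ⟨a', rfl⟩ := Int.eq_ofNat_of_zero_le hq'.1.1
    obtain ⟨b', rfl⟩ := Int.eq_ofNat_of_zero_le hq'.2.1
    refine (col b' a' hq).trans (row a' ?_)
    rw [TW.mem_boxF]
    simp only
    omega
  exact (all q hq).mpr ((all p hp).mp hPp)

/-- The grid graph as a product of paths. -/
noncomputable def iso (n : ℕ) : lattice.induce ((TW.boxF n : Finset (ℤ × ℤ)) : Set (ℤ × ℤ)) ≃g
    (SimpleGraph.pathGraph n □ SimpleGraph.pathGraph n) where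
  toFun u := (⟨(u : ℤ × ℤ).1.toNat, by have := TW.mem_boxF.mp u.2; omega⟩,
    ⟨(u : ℤ × ℤ).2.toNat, by have := TW.mem_boxF.mp u.2; omega⟩)
  invFun v := ⟨((v.1 : ℤ), (v.2 : ℤ)), by
    have h1 := v.1.2
    have h2 := v.2.2
    rw [mem_coe, TW.mem_boxF]
    simp only
    omega⟩
  left_inv u := by
    have := TW.mem_boxF.mp u.2
    apply Subtype.ext
    ext
    · simp only; omega
    · simp only; omega
  right_inv v := by
    ext
    · simp
    · simp
  map_rel_iff' := by
    intro a b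
    have ha := TW.mem_boxF.mp a.2
    have hb := TW.mem_boxF.mp b.2
    simp only [Equiv.coe_fn_mk, SimpleGraph.boxProd_adj, SimpleGraph.pathGraph_adj,
      SimpleGraph.comap_adj, Function.Embedding.subtype_apply, Fin.ext_iff]
    change _ ↔ (((a : ℤ × ℤ).1 = (b : ℤ × ℤ).1 ∧ |(a : ℤ × ℤ).2 - (b : ℤ × ℤ).2| = 1) ∨
      ((a : ℤ × ℤ).2 = (b : ℤ × ℤ).2 ∧ |(a : ℤ × ℤ).1 - (b : ℤ × ℤ).1| = 1))
    rw [abs_eq (by norm_num : (0 : ℤ) ≤ 1), abs_eq (by norm_num : (0 : ℤ) ≤ 1)]
    omega

end Box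

end Pool.Agent.H.MP_9bb806_co
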