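import Mathlib

namespace Pool.Agent.H.MP_9bb806_co

/-- The infinite square lattice graph: two points of `ℤ × ℤ` are adjacent exactly when they agree
in one coordinate and differ by `1` in the other. -/
def lattice : SimpleGraph (ℤ × ℤ) where
  Adj p q := (p.1 = q.1 ∧ |p.2 - q.2| = 1) ∨ (p.2 = q.2 ∧ |p.1 - q.1| = 1)
  symm := ⟨by
    rintro p q (⟨h1, h2⟩ | ⟨h1, h2⟩)
    · exact Or.inl ⟨h1.symm, by rw [abs_sub_comm]; exact h2⟩
    · exact Or.inr ⟨h1.symm, by rw [abs_sub_comm]; exact h2⟩⟩
  loopless := ⟨by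
    rintro p (⟨_, h⟩ | ⟨_, h⟩) <;> simp at h⟩

/-- The number of spanning trees of a graph (on a finite vertex type): the number of subgraphs
on the whole vertex set which are trees. -/
noncomputable def numSpanningTrees {V : Type*} (G : SimpleGraph V) : ℕ :=
  {T : SimpleGraph V | T ≤ G ∧ T.IsTree}.ncard

end Pool.Agent.H.MP_9bb806_co
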