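import Mathlib

/-!
Linear algebra: complementary determinants.
-/

namespace Pool.Agent.H.MP_9bb806_co

open Matrix

/-- If `B = [B1 B2]`, `C = [C1 C2]`, `B Cᵀ = 0`, `B1` unimodular and `C2` invertible over `ℤ`
then `det (C Cᵀ) = det (B Bᵀ) * det (C2ᵀ C2)`. -/
theorem complementary_det {p q t : Type*} [Fintype p] [Fintype q] [Fintype t] [DecidableEq p]
    [DecidableEq q] [DecidableEq t] (B1 : Matrix p p ℤ) (B2 : Matrix p t ℤ) (C1 : Matrix q p ℤ)
    (C2 : Matrix q t ℤ) (Y : Matrix t q ℤ) (hBC : B1 * C1ᵀ + B2 * C2ᵀ = 0)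
    (hB1 : IsUnit B1.det) (h1 : Y * C2 = 1) (h2 : C2 * Y = 1) :
    (C1 * C1ᵀ + C2 * C2ᵀ).det = (B1 * B1ᵀ + B2 * B2ᵀ).det * (C2ᵀ * C2).det ∧
      IsUnit (C2ᵀ * C2).det := by
  set X : Matrix p t ℤ := B1⁻¹ * B2 with hX
  have hB1X : B1 * X = B2 := by
    rw [hX, ← Matrix.mul_assoc, Matrix.mul_nonsing_inv _ hB1, Matrix.one_mul]
  have hC1 : C1ᵀ = - (X * C2ᵀ) := by
    have e1 : B1 * (C1ᵀ + X * C2ᵀ) = 0 := by
      rw [Matrix.mul_add, ← Matrix.mul_assoc, hB1X, hBC]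
    have e2 : C1ᵀ + X * C2ᵀ = 0 := by
      have : B1⁻¹ * (B1 * (C1ᵀ + X * C2ᵀ)) = 0 := by rw [e1, Matrix.mul_zero]
      rwa [← Matrix.mul_assoc, Matrix.nonsing_inv_mul _ hB1, Matrix.one_mul] at this
    exact eq_neg_of_add_eq_zero_left e2
  have hC1' : C1 = - (C2 * Xᵀ) := by
    have := congrArg Matrix.transpose hC1
    rw [Matrix.transpose_transpose, Matrix.transpose_neg, Matrix.transpose_mul,
      Matrix.transpose_transpose] at this
    exact this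
  have hdetB : (B1 * B1ᵀ + B2 * B2ᵀ).det = (1 + X * Xᵀ).det := by
    have e : B1 * B1ᵀ + B2 * B2ᵀ = B1 * ((1 + X * Xᵀ) * B1ᵀ) := by
      rw [← hB1X, Matrix.transpose_mul, Matrix.add_mul, Matrix.one_mul, Matrix.mul_add]
      simp only [Matrix.mul_assoc]
    rw [e, Matrix.det_mul, Matrix.det_mul, Matrix.det_transpose]
    have hu : B1.det * B1.det = 1 := by
      rcases Int.isUnit_iff.mp hB1 with h | h <;> rw [h] <;> norm_num
    calc B1.det * ((1 + X * Xᵀ).det * B1.det) = (B1.det * B1.det) * (1 + X * Xᵀ).det := by ring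
      _ = _ := by rw [hu, one_mul]
  have hdetC : (C1 * C1ᵀ + C2 * C2ᵀ).det = (1 + Xᵀ * X).det * (C2ᵀ * C2).det := by
    have e : C1 * C1ᵀ + C2 * C2ᵀ = C2 * ((1 + Xᵀ * X) * C2ᵀ) := by
      rw [hC1, hC1', Matrix.neg_mul, Matrix.mul_neg, neg_neg, Matrix.add_mul, Matrix.one_mul,
        Matrix.mul_add, add_comm]
      simp only [Matrix.mul_assoc]
    rw [e, Matrix.det_comm' h2 h1, Matrix.mul_assoc, Matrix.det_mul]
  refine ⟨?_, ?_⟩
  · rw [hdetC, hdetB, Matrix.det_one_add_mul_comm]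
  · have e : (C2ᵀ * C2) * (Y * Yᵀ) = 1 := by
      calc (C2ᵀ * C2) * (Y * Yᵀ) = C2ᵀ * ((C2 * Y) * Yᵀ) := by simp only [Matrix.mul_assoc]
        _ = (Y * C2)ᵀ := by rw [h2, Matrix.one_mul, Matrix.transpose_mul]
        _ = 1 := by rw [h1, Matrix.transpose_one]
    have := congrArg Matrix.det e
    rw [Matrix.det_mul, Matrix.det_one] at this
    exact IsUnit.of_mul_eq_one _ this

end Pool.Agent.H.MP_9bb806_co
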