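import Mathlib
import Pool.Agent.H.MP_9bb806_co.Plane

/-!
Integer circulations on a hole-free set of lattice points are sums of face boundaries.
-/

namespace Pool.Agent.H.MP_9bb806_co

namespace Pot

open Finset

/-- A lower bound for the second coordinates. -/
lemma exists_lower (S : Finset (ℤ × ℤ)) : ∃ m : ℤ, ∀ p ∈ S, m < p.2 := by
  classical
  rcases S.eq_empty_or_nonempty with rfl | hne
  · exact ⟨0, by simp⟩
  · obtain ⟨q, _, hq⟩ := Finset.exists_min_image S Prod.snd hne
    exact ⟨q.2 - 1, fun p hp => by have := hq p hp; omega⟩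

/-- Column sums of `h`. -/
noncomputable def pot (m : ℤ) (h : ℤ × ℤ → ℤ) (p : ℤ × ℤ) : ℤ := ∑ t ∈ Finset.Ioc m p.2, h (p.1, t)

lemma pot_low (m : ℤ) (h : ℤ × ℤ → ℤ) (p : ℤ × ℤ) (hp : p.2 ≤ m) : pot m h p = 0 := by
  unfold pot
  rw [Finset.Ioc_eq_empty (by omega)]
  simp

lemma pot_sub (m : ℤ) (h : ℤ × ℤ → ℤ) (hlow : ∀ p : ℤ × ℤ, p.2 ≤ m → h p = 0) (p : ℤ × ℤ) :
    pot m h p - pot m h (p - (0, 1)) = h p := by
  rcases le_or_gt p.2 m with hp | hp
  · rw [pot_low m h p hp, pot_low m h _ (by simp; omega), hlow p hp]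
    ring
  · have e1 : Finset.Ioc m p.2 = insert p.2 (Finset.Ioc m (p.2 - 1)) := by
      ext t
      simp only [Finset.mem_Ioc, Finset.mem_insert]
      omega
    have e2 : (p - (0, 1)).2 = p.2 - 1 := by simp
    have e3 : (p - (0, 1)).1 = p.1 := by simp
    unfold pot
    rw [e2, e3, e1, Finset.sum_insert (by simp)]
    ring

lemma pot_side (m : ℤ) (h v : ℤ × ℤ → ℤ) (hlow : ∀ p : ℤ × ℤ, p.2 ≤ m → h p = 0)
    (vlow : ∀ p : ℤ × ℤ, p.2 ≤ m → v p = 0)
    (hc : ∀ p, h p - h (p - (1, 0)) + v p - v (p - (0, 1)) = 0) (n : ℕ) (x : ℤ) :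
    pot m h (x - 1, m + n) - pot m h (x, m + n) = v (x, m + n) := by
  induction n with
  | zero =>
    rw [pot_low m h _ (by simp), pot_low m h _ (by simp), vlow _ (by simp)]
    ring
  | succ n ih =>
    have a1 := pot_sub m h hlow (x - 1, m + (n + 1 : ℕ))
    have a2 := pot_sub m h hlow (x, m + (n + 1 : ℕ))
    have a3 := hc (x, m + (n + 1 : ℕ))
    have e1 : (x - 1, m + ((n + 1 : ℕ) : ℤ)) - (0, 1) = (x - 1, m + (n : ℤ)) := by
      ext
      · simp
      · simp only [Prod.snd_sub]; push_cast; ring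
    have e2 : (x, m + ((n + 1 : ℕ) : ℤ)) - (0, 1) = (x, m + (n : ℤ)) := by
      ext
      · simp
      · simp only [Prod.snd_sub]; push_cast; ring
    have e3 : (x, m + ((n + 1 : ℕ) : ℤ)) - (1, 0) = (x - 1, m + ((n + 1 : ℕ) : ℤ)) := by
      ext <;> simp
    rw [e1] at a1
    rw [e2] at a2 a3
    rw [e3] at a3
    linarith

/-- Potential of a circulation. -/
theorem potential {S : Finset (ℤ × ℤ)} (hS : HoleFree S) (h v : ℤ × ℤ → ℤ)
    (hh : ∀ p, h p ≠ 0 → p ∈ S ∧ p + (1, 0) ∈ S)
    (hv : ∀ p, v p ≠ 0 → p ∈ S ∧ p + (0, 1) ∈ S)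
    (hc : ∀ p, h p - h (p - (1, 0)) + v p - v (p - (0, 1)) = 0) :
    ∃ y : ℤ × ℤ → ℤ, (∀ p, p ∉ faces S → y p = 0) ∧ (∀ p, y p - y (p - (0, 1)) = h p) ∧
      (∀ p, y (p - (1, 0)) - y p = v p) := by
  obtain ⟨m, hm⟩ := exists_lower S
  have hlow : ∀ p : ℤ × ℤ, p.2 ≤ m → h p = 0 := by
    intro p hp
    by_contra hne
    have := hm p (hh p hne).1
    omega
  have vlow : ∀ p : ℤ × ℤ, p.2 ≤ m → v p = 0 := by
    intro p hp
    by_contra hne
    have := hm p (hv p hne).1
    omega
  obtain ⟨y, hyd⟩ : ∃ y : ℤ × ℤ → ℤ, y = pot m h := ⟨_, rfl⟩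
  have hy1 : ∀ p, y p - y (p - (0, 1)) = h p := by
    intro p
    rw [hyd]
    exact pot_sub m h hlow p
  have hy2 : ∀ p, y (p - (1, 0)) - y p = v p := by
    intro p
    rw [hyd]
    rcases le_or_gt p.2 m with hp | hp
    · rw [pot_low m h p hp, pot_low m h _ (by simp; omega), vlow p hp]; ring
    · have := pot_side m h v hlow vlow hc (p.2 - m).toNat p.1
      have e1 : m + ((p.2 - m).toNat : ℤ) = p.2 := by omega
      rw [e1] at this
      have e2 : p - (1, 0) = (p.1 - 1, p.2) := by ext <;> simp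
      rw [e2]
      exact this
  have hzero : ∀ w, Out S w → y w = 0 ∧ y (w - (1, 0)) = 0 ∧ y (w - (0, 1)) = 0 ∧
      y (w - (1, 1)) = 0 := by
    intro w hw
    -- edges at points outside `S` carry nothing
    have nh : ∀ w, w ∉ S → h w = 0 := by
      intro w hw
      by_contra hne
      exact hw (hh w hne).1
    have nh' : ∀ w, w ∉ S → h (w - (1, 0)) = 0 := by
      intro w hw
      by_contra hne
      have := (hh _ hne).2
      rw [sub_add_cancel] at this
      exact hw this
    have nv : ∀ w, w ∉ S → v w = 0 := by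
      intro w hw
      by_contra hne
      exact hw (hv w hne).1
    have nv' : ∀ w, w ∉ S → v (w - (0, 1)) = 0 := by
      intro w hw
      by_contra hne
      have := (hv _ hne).2
      rw [sub_add_cancel] at this
      exact hw this
    -- the four cells around a point of the complement carry the same value
    have hsame : ∀ w, w ∉ S → y (w - (1, 0)) = y w ∧ y (w - (0, 1)) = y w ∧
        y (w - (1, 1)) = y w := by
      intro w hw
      have a1 := hy1 w
      have a2 := hy2 w
      have a3 := hy1 (w - (1, 0))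
      rw [nh w hw] at a1
      rw [nv w hw] at a2
      rw [nh' w hw] at a3
      have e : w - (1, 0) - (0, 1) = w - (1, 1) := by
        ext <;> simp
      rw [e] at a3
      refine ⟨by linarith, by linarith, by linarith⟩
    have hy0 : y w = 0 := by
      induction hw with
      | far w hfar =>
        rw [hyd, pot]
        apply Finset.sum_eq_zero
        intro t _
        by_contra hne
        have := hfar _ (hh _ hne).1
        simp at this
      | step w d hwS hout ih =>
        have hs := hsame w hwS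
        have hs' := hsame _ hout.notMem
        have ih' := ih
        rcases d with ⟨_ | _, _ | _⟩
        · -- (-1, 0)
          have e : w + vec (false, false) = w - (1, 0) := by
            ext <;> simp [vec, sub_eq_add_neg]
          rw [e] at ih'
          rw [← hs.1]; exact ih'
        · -- (0, -1)
          have e : w + vec (false, true) = w - (0, 1) := by
            ext <;> simp [vec, sub_eq_add_neg]
          rw [e] at ih'
          rw [← hs.2.1]; exact ih'
        · -- (0, 1)
          have e : w + vec (true, false) - (0, 1) = w := by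
            ext <;> simp [vec]
          have := hs'.2.1
          rw [e] at this
          rw [this]; exact ih'
        · have e : w + vec (true, true) - (1, 0) = w := by
            ext <;> simp [vec]
          have := hs'.1
          rw [e] at this
          rw [this]; exact ih'
    have hs := hsame w hw.notMem
    exact ⟨hy0, by rw [hs.1, hy0], by rw [hs.2.1, hy0], by rw [hs.2.2, hy0]⟩
  refine ⟨y, ?_, hy1, hy2⟩
  intro p hp
  rw [mem_faces] at hp
  by_cases h0 : p ∈ S
  · by_cases h1 : p + (1, 0) ∈ S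
    · by_cases h2 : p + (0, 1) ∈ S
      · have h3 : p + (1, 1) ∉ S := fun h3 => hp ⟨h0, h1, h2, h3⟩
        have := (hzero _ (hS _ h3)).2.2.2
        rwa [add_sub_cancel_right] at this
      · have := (hzero _ (hS _ h2)).2.2.1
        rwa [add_sub_cancel_right] at this
    · have := (hzero _ (hS _ h1)).2.1
      rwa [add_sub_cancel_right] at this
  · exact (hzero _ (hS _ h0)).1

/-- Conservation at one further point is automatic. -/
theorem conserve_root {S : Finset (ℤ × ℤ)} (h v : ℤ × ℤ → ℤ) (r : ℤ × ℤ)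
    (hh : ∀ p, h p ≠ 0 → p ∈ S ∧ p + (1, 0) ∈ S)
    (hv : ∀ p, v p ≠ 0 → p ∈ S ∧ p + (0, 1) ∈ S)
    (hc : ∀ p ∈ S, p ≠ r → h p - h (p - (1, 0)) + v p - v (p - (0, 1)) = 0) :
    ∀ p, h p - h (p - (1, 0)) + v p - v (p - (0, 1)) = 0 := by
  classical
  have hout : ∀ p, p ∉ S → h p - h (p - (1, 0)) + v p - v (p - (0, 1)) = 0 := by
    intro p hp
    have e1 : h p = 0 := by
      by_contra hne; exact hp (hh p hne).1
    have e2 : h (p - (1, 0)) = 0 := by
      by_contra hne
      have := (hh _ hne).2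
      rw [sub_add_cancel] at this
      exact hp this
    have e3 : v p = 0 := by
      by_contra hne; exact hp (hv p hne).1
    have e4 : v (p - (0, 1)) = 0 := by
      by_contra hne
      have := (hv _ hne).2
      rw [sub_add_cancel] at this
      exact hp this
    rw [e1, e2, e3, e4]; ring
  have hsum1 : ∑ p ∈ S, h (p - (1, 0)) = ∑ p ∈ S, h p := by
    have e1 : ∑ p ∈ S, h p = ∑ p ∈ S.filter (fun p => h p ≠ 0), h p :=
      (Finset.sum_filter_ne_zero S).symm
    have e2 : ∑ p ∈ S, h (p - (1, 0)) = ∑ p ∈ S.filter (fun p => h (p - (1, 0)) ≠ 0),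
        h (p - (1, 0)) := (Finset.sum_filter_ne_zero S).symm
    rw [e1, e2]
    apply Finset.sum_bij (fun p _ => p - (1, 0))
    · intro p hp
      rw [Finset.mem_filter] at hp ⊢
      exact ⟨(hh _ hp.2).1, hp.2⟩
    · intro a _ b _ hab
      exact sub_left_injective hab
    · intro b hb
      rw [Finset.mem_filter] at hb
      refine ⟨b + (1, 0), ?_, by simp⟩
      rw [Finset.mem_filter, add_sub_cancel_right]
      exact ⟨(hh _ hb.2).2, hb.2⟩
    · intro a _
      rfl
  have hsum2 : ∑ p ∈ S, v (p - (0, 1)) = ∑ p ∈ S, v p := by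
    have e1 : ∑ p ∈ S, v p = ∑ p ∈ S.filter (fun p => v p ≠ 0), v p :=
      (Finset.sum_filter_ne_zero S).symm
    have e2 : ∑ p ∈ S, v (p - (0, 1)) = ∑ p ∈ S.filter (fun p => v (p - (0, 1)) ≠ 0),
        v (p - (0, 1)) := (Finset.sum_filter_ne_zero S).symm
    rw [e1, e2]
    apply Finset.sum_bij (fun p _ => p - (0, 1))
    · intro p hp
      rw [Finset.mem_filter] at hp ⊢
      exact ⟨(hv _ hp.2).1, hp.2⟩
    · intro a _ b _ hab
      exact sub_left_injective hab
    · intro b hb
      rw [Finset.mem_filter] at hb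
      refine ⟨b + (0, 1), ?_, by simp⟩
      rw [Finset.mem_filter, add_sub_cancel_right]
      exact ⟨(hv _ hb.2).2, hb.2⟩
    · intro a _
      rfl
  have htot : ∑ p ∈ S, (h p - h (p - (1, 0)) + v p - v (p - (0, 1))) = 0 := by
    rw [Finset.sum_sub_distrib, Finset.sum_add_distrib, Finset.sum_sub_distrib, hsum1, hsum2]
    ring
  intro p
  by_cases hp : p ∈ S
  · by_cases hpr : p = r
    · subst hpr
      rw [← Finset.sum_erase_add S _ hp] at htot
      have : ∑ x ∈ S.erase p, (h x - h (x - (1, 0)) + v x - v (x - (0, 1))) = 0 := by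
        apply Finset.sum_eq_zero
        intro x hx
        rw [Finset.mem_erase] at hx
        exact hc x hx.2 hx.1
      rw [this] at htot
      linarith
    · exact hc p hp hpr
  · exact hout p hp

end Pot

end Pool.Agent.H.MP_9bb806_co
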