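import Mathlib

/-!
The rectangle comparison inequality.
-/

namespace Pool.Agent.H.MP_9bb806_co

namespace Rect

/-- Positive part. -/
def pp (x : ℤ) : ℤ := max 0 x

lemma pp_nonneg (x : ℤ) : 0 ≤ pp x := le_max_left _ _
lemma pp_of_nonneg {x : ℤ} (h : 0 ≤ x) : pp x = x := max_eq_right h
lemma pp_of_nonpos {x : ℤ} (h : x ≤ 0) : pp x = 0 := max_eq_left h

/-- Symmetrised number of excluded positions. -/
def g (w h a b : ℤ) : ℤ := 2 * (a * b) - pp (a - w) * pp (b - h) - pp (a - h) * pp (b - w)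

lemma g_symm (w h a b : ℤ) : g w h a b = g w h b a := by
  unfold g; ring

lemma diag (w h N s : ℤ) (hs : 0 ≤ s) : g w h (N - s) (N + s) ≤ g w h N N := by
  unfold g
  have key : 2 * (pp (N - w) * pp (N - h)) ≤ pp (N - s - w) * pp (N + s - h) +
      pp (N - s - h) * pp (N + s - w) + 2 * s ^ 2 := by
    have n1 := mul_nonneg (pp_nonneg (N - s - w)) (pp_nonneg (N + s - h))
    have n2 := mul_nonneg (pp_nonneg (N - s - h)) (pp_nonneg (N + s - w))
    rcases le_or_gt (N - w) 0 with hA | hA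
    · rw [pp_of_nonpos hA]; nlinarith
    rcases le_or_gt (N - h) 0 with hB | hB
    · rw [pp_of_nonpos hB]; nlinarith
    rw [pp_of_nonneg hA.le, pp_of_nonneg hB.le, pp_of_nonneg (x := N + s - h) (by linarith),
      pp_of_nonneg (x := N + s - w) (by linarith)]
    rcases le_or_gt (N - s - w) 0 with h1 | h1
    · rw [pp_of_nonpos h1]
      rcases le_or_gt (N - s - h) 0 with h2 | h2
      · rw [pp_of_nonpos h2]
        nlinarith
      · rw [pp_of_nonneg h2.le]
        nlinarith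
    · rw [pp_of_nonneg h1.le]
      rcases le_or_gt (N - s - h) 0 with h2 | h2
      · rw [pp_of_nonpos h2]
        nlinarith
      · rw [pp_of_nonneg h2.le]
        nlinarith
  nlinarith

lemma f_step_b (w h a b : ℤ) (hw : 0 ≤ w) (hh : 0 ≤ h) (ha : 0 ≤ a) (hab : a ≤ b) :
    a * (b + 1) - pp (a - w) * pp (b + 1 - h) ≤ a * b - pp (a - w) * pp (b - h) + (w + h) := by
  rcases le_or_gt 0 (b - h) with h1 | h1
  · rw [pp_of_nonneg (x := b + 1 - h) (by linarith), pp_of_nonneg h1]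
    rcases le_or_gt (a - w) 0 with h2 | h2
    · rw [pp_of_nonpos h2]; nlinarith
    · rw [pp_of_nonneg h2.le]; nlinarith
  · rw [pp_of_nonpos (x := b - h) (by linarith), pp_of_nonpos (x := b + 1 - h) (by linarith)]
    nlinarith

lemma f_step_a (w h a b : ℤ) (hw : 0 ≤ w) (hh : 0 ≤ h) (ha : 0 ≤ a) (hab : b = a + 1) :
    (a + 1) * b - pp (a + 1 - w) * pp (b - h) ≤ a * b - pp (a - w) * pp (b - h) + (w + h) := by
  rcases le_or_gt 0 (a - w) with h1 | h1
  · rw [pp_of_nonneg (x := a + 1 - w) (by linarith), pp_of_nonneg h1]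
    rcases le_or_gt (b - h) 0 with h2 | h2
    · rw [pp_of_nonpos h2]; nlinarith
    · rw [pp_of_nonneg h2.le]; nlinarith
  · rw [pp_of_nonpos (x := a - w) (by linarith), pp_of_nonpos (x := a + 1 - w) (by linarith)]
    nlinarith

lemma g_step_b (w h a b : ℤ) (hw : 0 ≤ w) (hh : 0 ≤ h) (ha : 0 ≤ a) (hab : a ≤ b) :
    g w h a (b + 1) ≤ g w h a b + 2 * (w + h) := by
  have h1 := f_step_b w h a b hw hh ha hab
  have h2 := f_step_b h w a b hh hw ha hab
  unfold g
  linarith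

lemma g_step_a (w h a : ℤ) (hw : 0 ≤ w) (hh : 0 ≤ h) (ha : 0 ≤ a) :
    g w h (a + 1) (a + 1) ≤ g w h a (a + 1) + 2 * (w + h) := by
  have h1 := f_step_a w h a (a + 1) hw hh ha rfl
  have h2 := f_step_a h w a (a + 1) hh hw ha rfl
  unfold g
  linarith

lemma g_steps_b (w h a b : ℤ) (hw : 0 ≤ w) (hh : 0 ≤ h) (ha : 0 ≤ a) (hab : a ≤ b) (k : ℕ) :
    g w h a (b + k) ≤ g w h a b + 2 * (w + h) * k := by
  induction k with
  | zero => simp
  | succ k ih =>
    have := g_step_b w h a (b + k) hw hh ha (by omega)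
    push_cast
    rw [← add_assoc]
    nlinarith

lemma g_steps_diag (w h N : ℤ) (hw : 0 ≤ w) (hh : 0 ≤ h) (hN : 0 ≤ N) (k : ℕ) :
    g w h (N + k) (N + k) ≤ g w h N N + 4 * (w + h) * k := by
  induction k with
  | zero => simp
  | succ k ih =>
    have h1 := g_step_b w h (N + k) (N + k) hw hh (by omega) le_rfl
    have h2 := g_step_a w h (N + k) hw hh (by omega)
    push_cast
    rw [← add_assoc]
    nlinarith

lemma main_le (w h N a b : ℤ) (hw : 0 ≤ w) (hh : 0 ≤ h) (hN : 0 ≤ N) (ha : 0 ≤ a) (hab : a ≤ b)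
    (hprod : (N + 1) ^ 2 ≤ (a + 1) * (b + 1)) :
    g w h a b ≤ g w h N N + 2 * (w + h) * (a + b - 2 * N) := by
  rcases le_or_gt N a with hNa | hNa
  · obtain ⟨k, hk⟩ : ∃ k : ℕ, a = N + k := ⟨(a - N).toNat, by omega⟩
    obtain ⟨l, hl⟩ : ∃ l : ℕ, b = a + l := ⟨(b - a).toNat, by omega⟩
    have h1 := g_steps_diag w h N hw hh hN k
    have h2 := g_steps_b w h a a hw hh ha le_rfl l
    rw [← hk] at h1
    rw [← hl] at h2
    have : a + b - 2 * N = 2 * k + l := by rw [hl, hk]; ring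
    rw [this]
    nlinarith
  · obtain ⟨s, hs⟩ : ∃ s : ℤ, s = N - a := ⟨_, rfl⟩
    have hs1 : 1 ≤ s := by omega
    have hb : N + s ≤ b := by
      by_contra hcon
      have h1 : b + 1 ≤ N + s := by omega
      have h2 : (a + 1) * (b + 1) ≤ (a + 1) * (N + s) :=
        mul_le_mul_of_nonneg_left h1 (by omega)
      have h3 : a = N - s := by omega
      rw [h3] at h2 hprod
      nlinarith
    obtain ⟨l, hl⟩ : ∃ l : ℕ, b = (N + s) + l := ⟨(b - (N + s)).toNat, by omega⟩
    have h1 := diag w h N s (by omega)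
    have h2 := g_steps_b w h a (N + s) hw hh ha (by omega) l
    rw [← hl] at h2
    have h3 : N - s = a := by omega
    rw [h3] at h1
    have : a + b - 2 * N = l := by rw [hl]; omega
    rw [this]
    nlinarith

/-- Rectangle comparison. -/
theorem main (w h N a b : ℤ) (hw : 0 ≤ w) (hh : 0 ≤ h) (hN : 0 ≤ N) (ha : 0 ≤ a) (hb : 0 ≤ b)
    (hprod : (N + 1) ^ 2 ≤ (a + 1) * (b + 1)) :
    g w h a b ≤ g w h N N + 2 * (w + h) * (a + b - 2 * N) := by
  rcases le_total a b with hab | hab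
  · exact main_le w h N a b hw hh hN ha hab hprod
  · rw [g_symm, show a + b = b + a by ring]
    exact main_le w h N b a hw hh hN hb hab (by linarith [mul_comm (a + 1) (b + 1)])

lemma sum_ge (N a b : ℤ) (hN : 0 ≤ N) (ha : 0 ≤ a) (hb : 0 ≤ b)
    (hprod : (N + 1) ^ 2 ≤ (a + 1) * (b + 1)) : 2 * N ≤ a + b := by
  by_contra hcon
  have h1 : a + b + 2 < 2 * (N + 1) := by linarith
  nlinarith [sq_nonneg (a - b)]

end Rect

end Pool.Agent.H.MP_9bb806_co
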