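import Mathlib
import Pool.Agent.H.MP_9bb806_co.Plane
import Pool.Agent.H.MP_9bb806_co.TraceWords
import Pool.Agent.H.MP_9bb806_co.Rect

/-!
The combinatorial inequality: rectangles of cells in a hole-free set.
-/

namespace Pool.Agent.H.MP_9bb806_co

namespace Runs

open Finset

/-- Vertical erosion. -/
noncomputable def ver (S : Finset (ℤ × ℤ)) (j : ℕ) : Finset (ℤ × ℤ) := by
  classical
  exact S.filter (fun q => ∀ b < j, q + ((0 : ℤ), (b : ℤ)) ∈ S)

lemma mem_ver {S : Finset (ℤ × ℤ)} {j : ℕ} (hj : 1 ≤ j) {q : ℤ × ℤ} :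
    q ∈ ver S j ↔ ∀ b < j, q + ((0 : ℤ), (b : ℤ)) ∈ S := by
  classical
  rw [ver, mem_filter]
  constructor
  · intro h; exact h.2
  · intro h
    refine ⟨?_, h⟩
    have := h 0 (by omega)
    simpa [Prod.mk_zero_zero] using this

/-- Blocks. -/
noncomputable def blk (S : Finset (ℤ × ℤ)) (i j : ℕ) : Finset (ℤ × ℤ) := by
  classical
  exact S.filter (fun q => ∀ a < i, ∀ b < j, q + ((a : ℤ), (b : ℤ)) ∈ S)

lemma mem_blk {S : Finset (ℤ × ℤ)} {i j : ℕ} (hi : 1 ≤ i) (hj : 1 ≤ j) {q : ℤ × ℤ} :
    q ∈ blk S i j ↔ ∀ a < i, ∀ b < j, q + ((a : ℤ), (b : ℤ)) ∈ S := by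
  classical
  rw [blk, mem_filter]
  constructor
  · intro h; exact h.2
  · intro h
    refine ⟨?_, h⟩
    have := h 0 (by omega) 0 (by omega)
    simpa [Prod.mk_zero_zero] using this

/-- Tops of columns runs. -/
def cset (S : Finset (ℤ × ℤ)) : Finset (ℤ × ℤ) := S.filter (fun q => q + (0, 1) ∉ S)
/-- Right ends of row runs. -/
def rset (S : Finset (ℤ × ℤ)) : Finset (ℤ × ℤ) := S.filter (fun q => q + (1, 0) ∉ S)

lemma ver_card (S : Finset (ℤ × ℤ)) (j : ℕ) :
    S.card ≤ (ver S (j + 1)).card + j * (cset S).card := by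
  classical
  induction j with
  | zero =>
    have : S ⊆ ver S 1 := by
      intro q hq
      rw [mem_ver le_rfl]
      intro b hb
      have : b = 0 := by omega
      subst this
      simpa [Prod.mk_zero_zero] using hq
    simpa using card_le_card this
  | succ j ih =>
    have h1 : (ver S (j + 1)).card ≤ (ver S (j + 1 + 1)).card + (cset S).card := by
      have hsub : ver S (j + 1) ⊆ ver S (j + 1 + 1) ∪
          (cset S).image (fun q => q - ((0 : ℤ), (j : ℤ))) := by
        intro q hq
        rw [mem_union]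
        rw [mem_ver (by omega)] at hq
        by_cases h : q + ((0 : ℤ), ((j + 1 : ℕ) : ℤ)) ∈ S
        · left
          rw [mem_ver (by omega)]
          intro b hb
          rcases Nat.lt_or_ge b (j + 1) with h' | h'
          · exact hq b h'
          · have : b = j + 1 := by omega
            subst this
            exact h
        · right
          rw [mem_image]
          refine ⟨q + ((0 : ℤ), (j : ℤ)), ?_, by simp⟩
          rw [cset, mem_filter]
          refine ⟨hq j (by omega), ?_⟩
          have e : q + ((0 : ℤ), (j : ℤ)) + (0, 1) = q + ((0 : ℤ), ((j + 1 : ℕ) : ℤ)) := by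
            ext
            · simp
            · simp only [Prod.snd_add]; push_cast; ring
          rw [e]; exact h
      calc (ver S (j + 1)).card ≤ _ := card_le_card hsub
        _ ≤ (ver S (j + 1 + 1)).card + ((cset S).image (fun q => q - ((0 : ℤ), (j : ℤ)))).card :=
            card_union_le _ _
        _ ≤ _ := Nat.add_le_add_left card_image_le _
    calc S.card ≤ (ver S (j + 1)).card + j * (cset S).card := ih
      _ ≤ (ver S (j + 1 + 1)).card + (cset S).card + j * (cset S).card := by omega
      _ = _ := by ring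

lemma blk_card (S : Finset (ℤ × ℤ)) (i j : ℕ) (hj : 1 ≤ j) :
    (ver S j).card ≤ (blk S (i + 1) j).card + i * (rset (ver S j)).card := by
  classical
  induction i with
  | zero =>
    have : ver S j ⊆ blk S 1 j := by
      intro q hq
      rw [mem_ver hj] at hq
      rw [mem_blk le_rfl hj]
      intro a ha b hb
      have : a = 0 := by omega
      subst this
      simpa using hq b hb
    simpa using card_le_card this
  | succ i ih =>
    have h1 : (blk S (i + 1) j).card ≤ (blk S (i + 1 + 1) j).card + (rset (ver S j)).card := by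
      have hsub : blk S (i + 1) j ⊆ blk S (i + 1 + 1) j ∪
          (rset (ver S j)).image (fun q => q - ((i : ℤ), (0 : ℤ))) := by
        intro q hq
        rw [mem_union]
        rw [mem_blk (by omega) hj] at hq
        by_cases h : q + (((i + 1 : ℕ) : ℤ), (0 : ℤ)) ∈ ver S j
        · left
          rw [mem_ver hj] at h
          rw [mem_blk (by omega) hj]
          intro a ha b hb
          rcases Nat.lt_or_ge a (i + 1) with h' | h'
          · exact hq a h' b hb
          · have : a = i + 1 := by omega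
            subst this
            have := h b hb
            have e : q + (((i + 1 : ℕ) : ℤ), (0 : ℤ)) + ((0 : ℤ), (b : ℤ)) =
              q + (((i + 1 : ℕ) : ℤ), (b : ℤ)) := by
              ext <;> simp
            rwa [e] at this
        · right
          rw [mem_image]
          refine ⟨q + ((i : ℤ), (0 : ℤ)), ?_, by simp⟩
          rw [rset, mem_filter]
          refine ⟨?_, ?_⟩
          · rw [mem_ver hj]
            intro b hb
            have := hq i (by omega) b hb
            have e : q + ((i : ℤ), (0 : ℤ)) + ((0 : ℤ), (b : ℤ)) = q + ((i : ℤ), (b : ℤ)) := by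
              ext <;> simp
            rwa [e]
          · have e : q + ((i : ℤ), (0 : ℤ)) + (1, 0) = q + (((i + 1 : ℕ) : ℤ), (0 : ℤ)) := by
              ext
              · simp only [Prod.fst_add]; push_cast; ring
              · simp
            rw [e]; exact h
      calc (blk S (i + 1) j).card ≤ _ := card_le_card hsub
        _ ≤ (blk S (i + 1 + 1) j).card +
            ((rset (ver S j)).image (fun q => q - ((i : ℤ), (0 : ℤ)))).card := card_union_le _ _
        _ ≤ _ := Nat.add_le_add_left card_image_le _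
    calc (ver S j).card ≤ (blk S (i + 1) j).card + i * (rset (ver S j)).card := ih
      _ ≤ (blk S (i + 1 + 1) j).card + (rset (ver S j)).card + i * (rset (ver S j)).card := by omega
      _ = _ := by ring

/-- Blocks of points give rectangles of faces. -/
lemma blk_subset_rects (S : Finset (ℤ × ℤ)) (w h : ℕ) :
    blk S (w + 2) (h + 2) ⊆ TW.rects (faces S) w h := by
  classical
  intro q hq
  rw [mem_blk (by omega) (by omega)] at hq
  have hf : ∀ i ≤ w, ∀ j ≤ h, q + ((i : ℤ), (j : ℤ)) ∈ faces S := by
    intro i hi j hj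
    rw [mem_faces]
    refine ⟨hq i (by omega) j (by omega), ?_, ?_, ?_⟩
    · have := hq (i + 1) (by omega) j (by omega)
      have e : q + ((i : ℤ), (j : ℤ)) + (1, 0) = q + (((i + 1 : ℕ) : ℤ), (j : ℤ)) := by
        ext
        · simp only [Prod.fst_add]; push_cast; ring
        · simp
      rwa [e]
    · have := hq i (by omega) (j + 1) (by omega)
      have e : q + ((i : ℤ), (j : ℤ)) + (0, 1) = q + ((i : ℤ), ((j + 1 : ℕ) : ℤ)) := by
        ext
        · simp
        · simp only [Prod.snd_add]; push_cast; ring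
      rwa [e]
    · have := hq (i + 1) (by omega) (j + 1) (by omega)
      have e : q + ((i : ℤ), (j : ℤ)) + (1, 1) = q + (((i + 1 : ℕ) : ℤ), ((j + 1 : ℕ) : ℤ)) := by
        ext
        · simp only [Prod.fst_add]; push_cast; ring
        · simp only [Prod.snd_add]; push_cast; ring
      rwa [e]
  rw [TW.rects, mem_filter]
  refine ⟨?_, hf⟩
  have := hf 0 (by omega) 0 (by omega)
  simpa [Prod.mk_zero_zero] using this

/-- Gap starts. -/
noncomputable def gset (S : Finset (ℤ × ℤ)) : Finset (ℤ × ℤ) := by
  classical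
  exact (rset S).filter (fun q => ∃ q' ∈ S, q'.2 = q.2 ∧ q.1 < q'.1)

lemma rset_card_ge (S : Finset (ℤ × ℤ)) :
    (S.image Prod.snd).card + (gset S).card ≤ (rset S).card := by
  classical
  have h1 : (S.image Prod.snd).card ≤ ((rset S) \ (gset S)).card := by
    apply Finset.card_le_card_of_forall_subsingleton (fun (y : ℤ) (q : ℤ × ℤ) => q.2 = y)
    · intro y hy
      rw [mem_image] at hy
      obtain ⟨q0, hq0, hy0⟩ := hy
      obtain ⟨q, hq, hmax⟩ := Finset.exists_max_image (S.filter (fun q => q.2 = y)) Prod.fst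
        ⟨q0, by simp [hq0, hy0]⟩
      rw [mem_filter] at hq
      refine ⟨q, ?_, hq.2⟩
      rw [mem_sdiff]
      constructor
      · rw [rset, mem_filter]
        refine ⟨hq.1, fun hc => ?_⟩
        have := hmax (q + (1, 0)) (by simp [hc, hq.2])
        simp at this
      · intro hg
        rw [gset, mem_filter] at hg
        obtain ⟨q', hq', h1, h2⟩ := hg.2
        have := hmax q' (by simp [hq', h1, hq.2])
        omega
    · intro q _ y1 hy1 y2 hy2
      rw [← hy1.2, ← hy2.2]
  have h2 : gset S ⊆ rset S := by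
    classical
    intro q hq
    rw [gset, mem_filter] at hq
    exact hq.1
  have h3 := Finset.card_sdiff_add_card_eq_card h2
  omega

lemma cset_card_ge (S : Finset (ℤ × ℤ)) : (S.image Prod.fst).card ≤ (cset S).card := by
  classical
  apply Finset.card_le_card_of_forall_subsingleton (fun (x : ℤ) (q : ℤ × ℤ) => q.1 = x)
  · intro y hy
    rw [mem_image] at hy
    obtain ⟨q0, hq0, hy0⟩ := hy
    obtain ⟨q, hq, hmax⟩ := Finset.exists_max_image (S.filter (fun q => q.1 = y)) Prod.snd
      ⟨q0, by simp [hq0, hy0]⟩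
    rw [mem_filter] at hq
    refine ⟨q, ?_, hq.2⟩
    rw [cset, mem_filter]
    refine ⟨hq.1, fun hc => ?_⟩
    have := hmax (q + (0, 1)) (by simp [hc, hq.2])
    simp at this
  · intro q _ y1 hy1 y2 hy2
    rw [← hy1.2, ← hy2.2]

lemma card_le_mul (S : Finset (ℤ × ℤ)) :
    S.card ≤ (S.image Prod.fst).card * (S.image Prod.snd).card := by
  classical
  rw [← Finset.card_product]
  apply Finset.card_le_card
  intro q hq
  rw [mem_product]
  exact ⟨mem_image_of_mem _ hq, mem_image_of_mem _ hq⟩

/-- Number of rows of the erosion. -/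
lemma rows_ver (S : Finset (ℤ × ℤ)) (j : ℕ) :
    ((ver S (j + 1)).image Prod.snd).card ≤ (S.image Prod.snd).card - j := by
  classical
  rcases Finset.eq_empty_or_nonempty ((ver S (j + 1)).image Prod.snd) with h0 | hne
  · rw [h0]; simp
  · set Y := (ver S (j + 1)).image Prod.snd with hY
    set m := Y.max' hne with hm
    have hmY : m ∈ Y := Finset.max'_mem _ _
    have hsub : Y ∪ (Finset.Ioc m (m + j)) ⊆ S.image Prod.snd := by
      intro y hy
      rw [mem_union] at hy
      rcases hy with hy | hy
      · rw [hY, mem_image] at hy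
        obtain ⟨q, hq, rfl⟩ := hy
        have := (mem_ver (by omega)).mp hq 0 (by omega)
        simp only [Nat.cast_zero] at this
        rw [mem_image]
        exact ⟨_, this, by simp⟩
      · rw [mem_Ioc] at hy
        rw [hY, mem_image] at hmY
        obtain ⟨q, hq, hqm⟩ := hmY
        have := (mem_ver (by omega)).mp hq (y - m).toNat (by omega)
        rw [mem_image]
        refine ⟨_, this, ?_⟩
        simp only [Prod.snd_add]
        omega
    have hdisj : Disjoint Y (Finset.Ioc m (m + j)) := by
      rw [Finset.disjoint_left]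
      intro y hy hy'
      rw [mem_Ioc] at hy'
      have := Finset.le_max' Y y hy
      omega
    have := Finset.card_le_card hsub
    rw [Finset.card_union_of_disjoint hdisj, Int.card_Ioc] at this
    omega

/-- Key step: a non-final right end of the erosion produces a gap start in its bottom or top
row. -/
lemma gap_exists {S : Finset (ℤ × ℤ)} (hS : HoleFree S) {j : ℕ} {q : ℤ × ℤ}
    (hq : q ∈ ver S (j + 1)) (hq1 : q + (1, 0) ∉ ver S (j + 1))
    (hlast : ∃ q' ∈ ver S (j + 1), q'.2 = q.2 ∧ q.1 < q'.1) :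
    ∃ g ∈ gset S, (g.2 = q.2 ∨ g.2 = q.2 + j) ∧ q.1 ≤ g.1 ∧
      ∀ q' ∈ ver S (j + 1), q'.2 = q.2 → q.1 < q'.1 → g.1 < q'.1 := by
  classical
  -- the next element
  obtain ⟨q0, hq0, hq0y, hq0x⟩ := hlast
  obtain ⟨t, ht, hmin⟩ := Finset.exists_min_image
    ((ver S (j + 1)).filter (fun q' => q'.2 = q.2 ∧ q.1 < q'.1)) Prod.fst
    ⟨q0, by simp [hq0, hq0y, hq0x]⟩
  rw [mem_filter] at ht
  obtain ⟨ht, hty, htx⟩ := ht
  have hnext : ∀ q' ∈ ver S (j + 1), q'.2 = q.2 → q.1 < q'.1 → t.1 ≤ q'.1 := by
    intro q' h1 h2 h3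
    exact hmin q' (by simp [h1, h2, h3])
  have hqS : ∀ b : ℕ, b < j + 1 → (q.1, q.2 + (b : ℤ)) ∈ S := by
    intro b hb
    have := (mem_ver (by omega)).mp hq b hb
    have e : q + ((0 : ℤ), (b : ℤ)) = (q.1, q.2 + (b : ℤ)) := by ext <;> simp
    rwa [e] at this
  have htS : ∀ b : ℕ, b < j + 1 → (t.1, q.2 + (b : ℤ)) ∈ S := by
    intro b hb
    have := (mem_ver (by omega)).mp ht b hb
    have e : t + ((0 : ℤ), (b : ℤ)) = (t.1, q.2 + (b : ℤ)) := by ext <;> simp [hty]
    rwa [e] at this
  -- a missing point in bottom or top row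
  have hmiss : ∃ x y : ℤ, q.1 < x ∧ x < t.1 ∧ (y = q.2 ∨ y = q.2 + j) ∧ (x, y) ∉ S := by
    by_contra hcon
    push Not at hcon
    have hno : ∀ p, Out S p → ¬ (q.1 < p.1 ∧ p.1 < t.1 ∧ q.2 ≤ p.2 ∧ p.2 ≤ q.2 + j) := by
      intro p hp
      induction hp with
      | far p h =>
        rintro ⟨h1, h2, -, -⟩
        have := h _ (htS 0 (by omega))
        simp only at this
        omega
      | step p d hp h ih =>
        rintro ⟨h1, h2, h3, h4⟩
        -- p is strictly inside
        have h5 : p.2 ≠ q.2 := fun hc => hp (hcon p.1 p.2 h1 h2 (Or.inl hc))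
        have h6 : p.2 ≠ q.2 + j := fun hc => hp (hcon p.1 p.2 h1 h2 (Or.inr hc))
        have hout := h.notMem
        apply ih
        have hcol1 : ∀ y, q.2 ≤ y → y ≤ q.2 + j → (q.1, y) ∈ S := by
          intro y hy1 hy2
          have := hqS (y - q.2).toNat (by omega)
          have e : q.2 + ((y - q.2).toNat : ℤ) = y := by omega
          rwa [e] at this
        have hcol2 : ∀ y, q.2 ≤ y → y ≤ q.2 + j → (t.1, y) ∈ S := by
          intro y hy1 hy2
          have := htS (y - q.2).toNat (by omega)
          have e : q.2 + ((y - q.2).toNat : ℤ) = y := by omega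
          rwa [e] at this
        have hne1 : (p + vec d).1 ≠ q.1 ∨ ¬ (q.2 ≤ (p + vec d).2 ∧ (p + vec d).2 ≤ q.2 + j) := by
          by_contra hc
          push Not at hc
          apply hout
          have := hcol1 (p + vec d).2 hc.2.1 hc.2.2
          rw [← hc.1] at this
          exact this
        have hne2 : (p + vec d).1 ≠ t.1 ∨ ¬ (q.2 ≤ (p + vec d).2 ∧ (p + vec d).2 ≤ q.2 + j) := by
          by_contra hc
          push Not at hc
          apply hout
          have := hcol2 (p + vec d).2 hc.2.1 hc.2.2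
          rw [← hc.1] at this
          exact this
        rcases d with ⟨_ | _, _ | _⟩ <;>
          simp only [vec, Prod.fst_add, Prod.snd_add] at hne1 hne2 ⊢ <;> omega
    -- column q.1 + 1 is not full
    have : ∃ b : ℕ, b < j + 1 ∧ (q.1 + 1, q.2 + (b : ℤ)) ∉ S := by
      by_contra hc
      push Not at hc
      apply hq1
      rw [mem_ver (by omega)]
      intro b hb
      have e : q + (1, 0) + ((0 : ℤ), (b : ℤ)) = (q.1 + 1, q.2 + (b : ℤ)) := by ext <;> simp
      rw [e]
      exact hc b hb
    obtain ⟨b, hb, hbS⟩ := this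
    refine hno _ (hS _ hbS) ⟨by simp, ?_, by simp, by simp; omega⟩
    -- t.1 ≠ q.1 + 1
    have : t.1 ≠ q.1 + 1 := by
      intro hc
      apply hq1
      have e : q + (1, 0) = t := by
        ext
        · simp [hc]
        · simp [hty]
      rw [e]; exact ht
    simp only
    omega
  obtain ⟨x, y, hx1, hx2, hy, hxy⟩ := hmiss
  -- first missing point to the right of q.1 in row y
  have hex : ∃ k : ℕ, (q.1 + 1 + (k : ℤ), y) ∉ S :=
    ⟨(x - q.1 - 1).toNat, by
      have e : q.1 + 1 + ((x - q.1 - 1).toNat : ℤ) = x := by omega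
      rw [e]; exact hxy⟩
  have hk := Nat.find_spec hex
  set k := Nat.find hex with hkdef
  have hkle : q.1 + 1 + (k : ℤ) ≤ x := by
    have : k ≤ (x - q.1 - 1).toNat := Nat.find_min' hex (by
      have e : q.1 + 1 + ((x - q.1 - 1).toNat : ℤ) = x := by omega
      rw [e]; exact hxy)
    omega
  have hgS : (q.1 + (k : ℤ), y) ∈ S := by
    rcases Nat.eq_zero_or_pos k with h0 | h0
    · rw [h0]
      rcases hy with hy | hy
      · have := hqS 0 (by omega)
        rw [hy]; simpa using this
      · have := hqS j (by omega)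
        rw [hy]; simpa using this
    · have := Nat.find_min hex (m := k - 1) (by omega)
      rw [not_not] at this
      have e : q.1 + 1 + ((k - 1 : ℕ) : ℤ) = q.1 + (k : ℤ) := by omega
      rwa [e] at this
  refine ⟨(q.1 + (k : ℤ), y), ?_, hy, by simp, ?_⟩
  · rw [gset, mem_filter, rset, mem_filter]
    refine ⟨⟨hgS, ?_⟩, (t.1, y), ?_, rfl, ?_⟩
    · have e : (q.1 + (k : ℤ), y) + (1, 0) = (q.1 + 1 + (k : ℤ), y) := by
        ext
        · simp only [Prod.fst_add]; ring
        · simp
      rw [e]; exact hk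
    · rcases hy with hy | hy
      · have := htS 0 (by omega)
        rw [hy]; simpa using this
      · have := htS j (by omega)
        rw [hy]; simpa using this
    · simp only
      omega
  · intro q' h1 h2 h3
    have := hnext q' h1 h2 h3
    simp only
    omega

lemma rset_ver_le {S : Finset (ℤ × ℤ)} (hS : HoleFree S) (j : ℕ) :
    (rset (ver S (j + 1))).card ≤ ((S.image Prod.snd).card - j) + 2 * (gset S).card := by
  classical
  set X := ver S (j + 1) with hX
  -- final right ends
  have hfin : ((rset X) \ (gset X)).card ≤ (X.image Prod.snd).card := by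
    apply Finset.card_le_card_of_injOn Prod.snd
    · intro q hq
      rw [Finset.mem_coe, mem_sdiff, rset, mem_filter] at hq
      exact mem_image_of_mem _ hq.1.1
    · intro a ha b hb hab
      rw [Finset.mem_coe, mem_sdiff] at ha hb
      have ha1 := ha.1
      have hb1 := hb.1
      rw [rset, mem_filter] at ha1 hb1
      by_contra hne
      rcases lt_trichotomy a.1 b.1 with h | h | h
      · apply ha.2
        rw [gset, mem_filter]
        exact ⟨ha.1, b, hb1.1, hab.symm, h⟩
      · exact hne (Prod.ext h hab)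
      · apply hb.2
        rw [gset, mem_filter]
        exact ⟨hb.1, a, ha1.1, hab, h⟩
  -- non-final ones: split according to type
  have hsub : gset X ⊆ (gset X).filter (fun q => ∃ g ∈ gset S, g.2 = q.2 ∧ q.1 ≤ g.1 ∧
      ∀ q' ∈ X, q'.2 = q.2 → q.1 < q'.1 → g.1 < q'.1) ∪
      (gset X).filter (fun q => ∃ g ∈ gset S, g.2 = q.2 + j ∧ q.1 ≤ g.1 ∧
      ∀ q' ∈ X, q'.2 = q.2 → q.1 < q'.1 → g.1 < q'.1) := by
    intro q hq
    have hq' := hq
    rw [gset, mem_filter, rset, mem_filter] at hq'
    obtain ⟨⟨hqX, hq1⟩, hlast⟩ := hq'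
    obtain ⟨g, hg, hy | hy, h1, h2⟩ := gap_exists hS hqX hq1 hlast
    · rw [mem_union]; left
      rw [mem_filter]; exact ⟨hq, g, hg, hy, h1, h2⟩
    · rw [mem_union]; right
      rw [mem_filter]; exact ⟨hq, g, hg, hy, h1, h2⟩
  have hmemX : ∀ q ∈ gset X, q ∈ X := by
    intro q hq
    rw [gset, mem_filter, rset, mem_filter] at hq
    exact hq.1.1
  have hA : ((gset X).filter (fun q => ∃ g ∈ gset S, g.2 = q.2 ∧ q.1 ≤ g.1 ∧
      ∀ q' ∈ X, q'.2 = q.2 → q.1 < q'.1 → g.1 < q'.1)).card ≤ (gset S).card := by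
    apply Finset.card_le_card_of_forall_subsingleton (fun (q g : ℤ × ℤ) => g.2 = q.2 ∧ q.1 ≤ g.1 ∧
      ∀ q' ∈ X, q'.2 = q.2 → q.1 < q'.1 → g.1 < q'.1)
    · intro q hq
      rw [mem_filter] at hq
      exact hq.2
    · intro g _ a ha b hb
      obtain ⟨ha0, ha1, ha2, ha3⟩ := ha
      obtain ⟨hb0, hb1, hb2, hb3⟩ := hb
      have ha0' := hmemX a (mem_filter.mp ha0).1
      have hb0' := hmemX b (mem_filter.mp hb0).1
      by_contra hne
      rcases lt_trichotomy a.1 b.1 with h | h | h
      · have := ha3 b hb0' (by omega) h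
        omega
      · exact hne (Prod.ext h (by omega))
      · have := hb3 a ha0' (by omega) h
        omega
  have hB : ((gset X).filter (fun q => ∃ g ∈ gset S, g.2 = q.2 + j ∧ q.1 ≤ g.1 ∧
      ∀ q' ∈ X, q'.2 = q.2 → q.1 < q'.1 → g.1 < q'.1)).card ≤ (gset S).card := by
    apply Finset.card_le_card_of_forall_subsingleton (fun (q g : ℤ × ℤ) => g.2 = q.2 + j ∧
      q.1 ≤ g.1 ∧ ∀ q' ∈ X, q'.2 = q.2 → q.1 < q'.1 → g.1 < q'.1)
    · intro q hq
      rw [mem_filter] at hq
      exact hq.2
    · intro g _ a ha b hb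
      obtain ⟨ha0, ha1, ha2, ha3⟩ := ha
      obtain ⟨hb0, hb1, hb2, hb3⟩ := hb
      have ha0' := hmemX a (mem_filter.mp ha0).1
      have hb0' := hmemX b (mem_filter.mp hb0).1
      by_contra hne
      rcases lt_trichotomy a.1 b.1 with h | h | h
      · have := ha3 b hb0' (by omega) h
        omega
      · exact hne (Prod.ext h (by omega))
      · have := hb3 a ha0' (by omega) h
        omega
  have hg : (gset X).card ≤ 2 * (gset S).card := by
    calc (gset X).card ≤ _ := card_le_card hsub
      _ ≤ _ := card_union_le _ _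
      _ ≤ (gset S).card + (gset S).card := Nat.add_le_add hA hB
      _ = _ := by ring
  have hgsub : gset X ⊆ rset X := by
    intro q hq
    rw [gset, mem_filter] at hq
    exact hq.1
  have h3 := Finset.card_sdiff_add_card_eq_card hgsub
  have h4 := rows_ver S j
  rw [← hX] at h4
  omega

/-- Main combinatorial inequality. -/
theorem main {S : Finset (ℤ × ℤ)} (hS : HoleFree S) (w h : ℕ) :
    Rect.pp (((S.image Prod.fst).card : ℤ) - 1 - w) * Rect.pp (((S.image Prod.snd).card : ℤ) - 1 - h)
      - (((S.image Prod.fst).card : ℤ) * (S.image Prod.snd).card - S.card)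
      - (h + 1) * ((cset S).card - (S.image Prod.fst).card)
      - 2 * (w + 1) * ((rset S).card - (S.image Prod.snd).card)
      ≤ ((TW.rects (faces S) w h).card : ℤ) := by
  set n1 := (S.image Prod.fst).card with hn1
  set n2 := (S.image Prod.snd).card with hn2
  have hblk : (blk S (w + 2) (h + 2)).card ≤ (TW.rects (faces S) w h).card :=
    card_le_card (blk_subset_rects S w h)
  have h1 : S.card ≤ (ver S (h + 2)).card + (h + 1) * (cset S).card := ver_card S (h + 1)
  have h2 : (ver S (h + 2)).card ≤ (blk S (w + 2) (h + 2)).card +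
    (w + 1) * (rset (ver S (h + 2))).card := blk_card S (w + 1) (h + 2) (by omega)
  have h3 : (rset (ver S (h + 2))).card ≤ ((S.image Prod.snd).card - (h + 1)) +
    2 * (gset S).card := rset_ver_le hS (h + 1)
  have h4 := rset_card_ge S
  have h5 := cset_card_ge S
  have h6 := card_le_mul S
  rw [← hn1] at h5 h6
  rw [← hn2] at h3 h4 h6
  have h7 : (S.card : ℤ) ≤ (blk S (w + 2) (h + 2)).card + (w + 1) * (rset (ver S (h + 2))).card +
      (h + 1) * (cset S).card := by
    have : S.card ≤ (blk S (w + 2) (h + 2)).card + (w + 1) * (rset (ver S (h + 2))).card +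
      (h + 1) * (cset S).card := by
      calc S.card ≤ _ := h1
        _ ≤ _ := by
          have := h2
          omega
    exact_mod_cast this
  have h8 : ((rset (ver S (h + 2))).card : ℤ) ≤ Rect.pp ((n2 : ℤ) - 1 - h) +
      2 * ((rset S).card - n2) := by
    have e1 : ((rset (ver S (h + 2))).card : ℤ) ≤ ((n2 - (h + 1) : ℕ) : ℤ) + 2 * (gset S).card := by
      exact_mod_cast h3
    have e2 : ((n2 - (h + 1) : ℕ) : ℤ) = Rect.pp ((n2 : ℤ) - 1 - h) := by
      unfold Rect.pp
      omega
    have e3 : ((gset S).card : ℤ) ≤ (rset S).card - n2 := by omega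
    rw [e2] at e1
    linarith
  have h9 : (0 : ℤ) ≤ (cset S).card - n1 := by omega
  have h10 : (0 : ℤ) ≤ (rset S).card - n2 := by omega
  have h6' : (S.card : ℤ) ≤ n1 * n2 := by exact_mod_cast h6
  have hblk' : ((blk S (w + 2) (h + 2)).card : ℤ) ≤ (TW.rects (faces S) w h).card := by
    exact_mod_cast hblk
  have hw0 : (0 : ℤ) ≤ (w : ℤ) + 1 := by positivity
  have hh0 : (0 : ℤ) ≤ (h : ℤ) + 1 := by positivity
  have hM0 : (0 : ℤ) ≤ (TW.rects (faces S) w h).card := by positivity
  have p1 := mul_nonneg hh0 h9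
  have p2 := mul_nonneg hw0 h10
  have p3 := mul_le_mul_of_nonneg_left h8 hw0
  rcases le_or_gt ((n1 : ℤ) - 1 - w) 0 with hc1 | hc1
  · rw [Rect.pp_of_nonpos hc1]
    nlinarith
  · rcases le_or_gt ((n2 : ℤ) - 1 - h) 0 with hc2 | hc2
    · rw [Rect.pp_of_nonpos hc2]
      nlinarith
    · rw [Rect.pp_of_nonneg hc2.le] at p3 ⊢
      rw [Rect.pp_of_nonneg hc1.le]
      nlinarith

end Runs

end Pool.Agent.H.MP_9bb806_co
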