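import Mathlib
import Pool.Agent.H.MP_9bb806_co.Mats
import Pool.Agent.H.MP_9bb806_co.HodgeLin
import Pool.Agent.H.MP_9bb806_co.Potential
import Pool.Agent.H.MP_9bb806_co.Runs

/-!
Planar duality for connected hole-free sets: the reduced Laplacian and the Dirichlet Laplacian of
the faces have the same determinant; Euler's formula.
-/

namespace Pool.Agent.H.MP_9bb806_co

open Finset

namespace Dual

/-- Balls around the root inside `S`. -/
def Ball (S : Finset (ℤ × ℤ)) (r : ℤ × ℤ) : ℕ → ℤ × ℤ → Prop
  | 0, p => p = r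
  | n + 1, p => Ball S r n p ∨ (p ∈ S ∧ ∃ d : Dir, Ball S r n (p + vec d))

/-- Spanning-tree choice: every non-root point of a connected set can choose a direction so that
all orbits reach the root. -/
theorem exists_choice {S : Finset (ℤ × ℤ)} (hS : Conn S) {r : ℤ × ℤ} (hr : r ∈ S) :
    ∃ c : S.erase r → Dir, (∀ u : S.erase r, (u : ℤ × ℤ) + vec (c u) ∈ S) ∧
      Acyclic (tgtA (S.erase r)) c := by
  classical
  have hB0 : ∀ p, Ball S r 0 p ↔ p = r := fun p => Iff.rfl
  have hBs : ∀ n p, Ball S r (n + 1) p ↔
      (Ball S r n p ∨ (p ∈ S ∧ ∃ d : Dir, Ball S r n (p + vec d))) :=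
    fun n p => Iff.rfl
  have hBS : ∀ n p, Ball S r n p → p ∈ S := by
    intro n
    induction n with
    | zero => intro p hp; rw [hB0] at hp; rw [hp]; exact hr
    | succ n ih =>
      intro p hp
      rw [hBs] at hp
      rcases hp with h | h
      · exact ih p h
      · exact h.1
  have hall : ∀ q ∈ S, ∃ n, Ball S r n q := by
    apply hS (fun q => ∃ n, Ball S r n q) r hr ⟨0, rfl⟩
    intro q hq d hqd ⟨n, hn⟩
    refine ⟨n + 1, ?_⟩
    rw [hBs]
    right
    refine ⟨hqd, (!d.1, !d.2), ?_⟩
    have e : q + vec d + vec (!d.1, !d.2) = q := by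
      rcases d with ⟨_ | _, _ | _⟩ <;> ext <;> simp [vec]
    rw [e]; exact hn
  have hdist : ∀ u : S.erase r, ∃ n, Ball S r n (u : ℤ × ℤ) := fun u => hall u (mem_of_mem_erase u.2)
  have hstep : ∀ u : S.erase r, ∃ d : Dir, (u : ℤ × ℤ) + vec d ∈ S ∧
      ∀ v : S.erase r, (u : ℤ × ℤ) + vec d = v → Nat.find (hdist v) < Nat.find (hdist u) := by
    intro u
    have hspec := Nat.find_spec (hdist u)
    obtain ⟨m, hm⟩ : ∃ m, Nat.find (hdist u) = m + 1 := by
      refine ⟨Nat.find (hdist u) - 1, ?_⟩
      have : Nat.find (hdist u) ≠ 0 := by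
        intro h0
        rw [h0, hB0] at hspec
        exact (mem_erase.mp u.2).1 hspec
      omega
    rw [hm, hBs] at hspec
    rcases hspec with h | ⟨_, d, hd⟩
    · exfalso
      have := Nat.find_min' (hdist u) h
      omega
    · refine ⟨d, hBS _ _ hd, ?_⟩
      intro v hv
      rw [hv] at hd
      have := Nat.find_min' (hdist v) hd
      omega
  choose c hc1 hc2 using hstep
  refine ⟨c, hc1, ?_⟩
  -- acyclicity by strong induction
  have key : ∀ (n : ℕ) (u : S.erase r), Nat.find (hdist u) ≤ n →
      ∃ k : ℕ, (nxt (tgtA (S.erase r)) c)^[k] (some u) = none := by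
    intro n
    induction n with
    | zero =>
      intro u hu
      exfalso
      have hspec := Nat.find_spec (hdist u)
      have h0 : Nat.find (hdist u) = 0 := by omega
      rw [h0, hB0] at hspec
      exact (mem_erase.mp u.2).1 hspec
    | succ n ih =>
      intro u hu
      rcases ht : tgtA (S.erase r) u (c u) with _ | v
      · exact ⟨1, ht⟩
      · have hlt := hc2 u v (tgtA_eq_some.mp ht)
        obtain ⟨k, hk⟩ := ih v (by omega)
        refine ⟨k + 1, ?_⟩
        rw [Function.iterate_succ_apply]
        have : nxt (tgtA (S.erase r)) c (some u) = some v := ht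
        rw [this]; exact hk
  intro u
  exact key _ u le_rfl

variable {S : Finset (ℤ × ℤ)} {r : ℤ × ℤ}

/-- Lower left end of the edge from `v` in direction `d`. -/
def lowv (v : ℤ × ℤ) (d : Dir) : ℤ × ℤ := if d.1 then v else v + vec d

lemma lowv_mem {v : ℤ × ℤ} {d : Dir} (hv : v ∈ S) (h : v + vec d ∈ S) :
    lowv v d ∈ eset S (d.1 == d.2) := by
  rw [mem_eset]
  rcases d with ⟨_ | _, _ | _⟩
  · refine ⟨h, ?_⟩
    have e : v + vec (false, false) + ev true = v := by
      ext <;> simp [vec, ev]
    change v + vec (false, false) + ev true ∈ S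
    rw [e]; exact hv
  · refine ⟨h, ?_⟩
    have e : v + vec (false, true) + ev false = v := by
      ext <;> simp [vec, ev]
    change v + vec (false, true) + ev false ∈ S
    rw [e]; exact hv
  · exact ⟨hv, h⟩
  · exact ⟨hv, h⟩

lemma bf_lowv (u v : ℤ × ℤ) (d : Dir) : bf u (d.1 == d.2) (lowv v d) =
    sgn d.1 * ((if v = u then 1 else 0) - (if v + vec d = u then 1 else 0)) := by
  unfold bf
  rcases d with ⟨_ | _, _ | _⟩
  · have e1 : lowv v (false, false) = v + vec (false, false) := rfl
    have e2 : lowv v (false, false) + ev true = v := by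
      rw [e1]; ext <;> simp [vec, ev]
    have e3 : (((false, false) : Dir).1 == ((false, false) : Dir).2) = true := rfl
    rw [e3, e2, e1]
    simp only [sgn]
    simp
  · have e1 : lowv v (false, true) = v + vec (false, true) := rfl
    have e2 : lowv v (false, true) + ev false = v := by
      rw [e1]; ext <;> simp [vec, ev]
    have e3 : (((false, true) : Dir).1 == ((false, true) : Dir).2) = false := rfl
    rw [e3, e2, e1]
    simp only [sgn]
    simp
  · have e1 : lowv v (true, false) = v := rfl
    have e3 : (((true, false) : Dir).1 == ((true, false) : Dir).2) = false := rfl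
    have e : vec (true, false) = ev false := rfl
    rw [e3, e1, e]
    simp [sgn]
  · have e1 : lowv v (true, true) = v := rfl
    have e3 : (((true, true) : Dir).1 == ((true, true) : Dir).2) = true := rfl
    have e : vec (true, true) = ev true := rfl
    rw [e3, e1, e]
    simp [sgn]

/-- The edge chosen at `v`. -/
def phi (c : S.erase r → Dir) (hc : ∀ u : S.erase r, (u : ℤ × ℤ) + vec (c u) ∈ S)
    (v : S.erase r) : ET S :=
  ⟨(c v).1 == (c v).2, ⟨lowv v (c v), lowv_mem (mem_of_mem_erase v.2) (hc v)⟩⟩

lemma bf_phi (c : S.erase r → Dir) (hc : ∀ u : S.erase r, (u : ℤ × ℤ) + vec (c u) ∈ S)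
    (u v : S.erase r) : bf u (phi c hc v).1 (phi c hc v).2 =
      sgn (c v).1 * rowv (tgtA (S.erase r)) v (c v) u := by
  unfold rowv
  simp only [tgtA_eq_some, Subtype.ext_iff]
  exact bf_lowv u v (c v)

/-- The tree part of the incidence matrix. -/
def B1 (c : S.erase r → Dir) (hc : ∀ u : S.erase r, (u : ℤ × ℤ) + vec (c u) ∈ S) :
    Matrix (S.erase r) (S.erase r) ℤ :=
  Matrix.of fun u v => bf u (phi c hc v).1 (phi c hc v).2

lemma B1_unit (c : S.erase r → Dir) (hc : ∀ u : S.erase r, (u : ℤ × ℤ) + vec (c u) ∈ S)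
    (ha : Acyclic (tgtA (S.erase r)) c) : IsUnit (B1 c hc).det := by
  have e : (B1 c hc).transpose = Matrix.diagonal (fun v => sgn (c v).1) *
      Matrix.of (fun v => rowv (tgtA (S.erase r)) v (c v)) := by
    ext v u
    rw [Matrix.diagonal_mul, Matrix.transpose_apply]
    exact bf_phi c hc u v
  rw [← Matrix.det_transpose, e, Matrix.det_mul, det_acyclic _ _ ha, mul_one, Matrix.det_diagonal]
  apply IsUnit.prod_univ_iff.mpr
  intro v
  unfold sgn
  split_ifs
  · exact isUnit_one
  · exact isUnit_one.neg

lemma phi_injective (c : S.erase r → Dir) (hc : ∀ u : S.erase r, (u : ℤ × ℤ) + vec (c u) ∈ S)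
    (ha : Acyclic (tgtA (S.erase r)) c) : Function.Injective (phi c hc) := by
  intro u v huv
  by_contra hne
  have h0 : (B1 c hc).det = 0 := by
    apply Matrix.det_zero_of_column_eq hne
    intro k
    unfold B1
    rw [Matrix.of_apply, Matrix.of_apply, huv]
  have := B1_unit c hc ha
  rw [h0] at this
  exact not_isUnit_zero this

/-- Column sums of the face-edge incidence. -/
lemma colC {y : ℤ × ℤ → ℤ} (hy : ∀ p, p ∉ faces S → y p = 0) (b : Bool) (p : ℤ × ℤ) :
    ∑ f : faces S, cf f b p * y f = y (p - ca b) - y (p - cb b) := by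
  have h1 : ∀ f : faces S, cf f b p * y f =
      (if (f : ℤ × ℤ) = p - ca b then (1 : ℤ) else 0) * y f -
      (if (f : ℤ × ℤ) = p - cb b then (1 : ℤ) else 0) * y f := by
    intro f
    unfold cf
    rw [sub_mul]
    have i1 : (p = (f : ℤ × ℤ) + ca b) ↔ ((f : ℤ × ℤ) = p - ca b) := by
      rw [eq_sub_iff_add_eq, eq_comm]
    have i2 : (p = (f : ℤ × ℤ) + cb b) ↔ ((f : ℤ × ℤ) = p - cb b) := by
      rw [eq_sub_iff_add_eq, eq_comm]
    simp only [i1, i2]
  simp only [h1]
  rw [Finset.sum_sub_distrib, sum_coe_ite, sum_coe_ite]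
  congr 1
  · split_ifs with h
    · rfl
    · exact (hy _ h).symm
  · split_ifs with h
    · rfl
    · exact (hy _ h).symm

/-- Extension by zero of an edge function. -/
noncomputable def ext (c : ET S → ℤ) (b : Bool) (p : ℤ × ℤ) : ℤ :=
  if h : p ∈ eset S b then c ⟨b, ⟨p, h⟩⟩ else 0

lemma ext_coe (c : ET S → ℤ) (e : ET S) : ext c e.1 e.2 = c e := by
  unfold ext
  rw [dif_pos e.2.2]

/-- Every circulation is a sum of face boundaries. -/
theorem circulation (hS : HoleFree S) (c : ET S → ℤ)
    (hc : ∀ v : S.erase r, ∑ e : ET S, bf v e.1 e.2 * c e = 0) :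
    ∃ y : faces S → ℤ, ∀ e : ET S, ∑ f : faces S, cf f e.1 e.2 * y f = c e := by
  set h : ℤ × ℤ → ℤ := ext c true with hh
  set v : ℤ × ℤ → ℤ := ext c false with hv
  have hh' : ∀ p, h p ≠ 0 → p ∈ S ∧ p + (1, 0) ∈ S := by
    intro p hp
    by_contra hcon
    apply hp
    rw [hh, ext, dif_neg]
    rw [mem_eset]
    exact hcon
  have hv' : ∀ p, v p ≠ 0 → p ∈ S ∧ p + (0, 1) ∈ S := by
    intro p hp
    by_contra hcon
    apply hp
    rw [hv, ext, dif_neg]
    rw [mem_eset]
    exact hcon
  have hcons : ∀ p ∈ S, p ≠ r → h p - h (p - (1, 0)) + v p - v (p - (0, 1)) = 0 := by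
    intro p hp hpr
    have h1 := hc ⟨p, mem_erase.mpr ⟨hpr, hp⟩⟩
    have h2 : ∑ e : ET S, bf p e.1 e.2 * c e = ∑ e : ET S, bf p e.1 e.2 * ext c e.1 e.2 := by
      apply Finset.sum_congr rfl
      intro e _
      rw [ext_coe]
    have h1' : ∑ e : ET S, bf p e.1 e.2 * c e = 0 := h1
    rw [h2, sumB hp, Fintype.sum_bool] at h1'
    have a1 : (if p + ev true ∈ S then ext c true p else 0) = h p := by
      split_ifs with hif
      · rfl
      · by_contra hne
        exact hif (hh' p (fun h0 => hne (by rw [h0]))).2
    have a2 : (if p - ev true ∈ S then ext c true (p - ev true) else 0) = h (p - (1, 0)) := by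
      split_ifs with hif
      · rfl
      · by_contra hne
        exact hif (hh' (p - (1, 0)) (fun h0 => hne (by rw [h0]))).1
    have a3 : (if p + ev false ∈ S then ext c false p else 0) = v p := by
      split_ifs with hif
      · rfl
      · by_contra hne
        exact hif (hv' p (fun h0 => hne (by rw [h0]))).2
    have a4 : (if p - ev false ∈ S then ext c false (p - ev false) else 0) = v (p - (0, 1)) := by
      split_ifs with hif
      · rfl
      · by_contra hne
        exact hif (hv' (p - (0, 1)) (fun h0 => hne (by rw [h0]))).1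
    rw [a1, a2, a3, a4] at h1'
    linarith
  have hall := Pot.conserve_root h v r hh' hv' hcons
  obtain ⟨y, hy0, hy1, hy2⟩ := Pot.potential hS h v hh' hv' hall
  refine ⟨fun f => y f, fun e => ?_⟩
  rw [colC hy0 e.1 e.2]
  rcases e with ⟨_ | _, p⟩
  · have e1 : (p : ℤ × ℤ) - ca false = (p : ℤ × ℤ) - (1, 0) := rfl
    have e2 : (p : ℤ × ℤ) - cb false = p := by ext <;> simp [cb]
    simp only
    rw [e1, e2, hy2]
    exact ext_coe c ⟨false, p⟩
  · have e1 : (p : ℤ × ℤ) - ca true = p := by ext <;> simp [ca]
    have e2 : (p : ℤ × ℤ) - cb true = (p : ℤ × ℤ) - (0, 1) := rfl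
    simp only
    rw [e1, e2, hy1]
    exact ext_coe c ⟨true, p⟩

/-- A face function without boundary vanishes. -/
theorem no_boundary (y : faces S → ℤ)
    (hy : ∀ e : ET S, ∑ f : faces S, cf f e.1 e.2 * y f = 0) : y = 0 := by
  classical
  let z : ℤ × ℤ → ℤ := fun p => if h : p ∈ faces S then y ⟨p, h⟩ else 0
  have hz0 : ∀ p, p ∉ faces S → z p = 0 := fun p hp => dif_neg hp
  have hzc : ∀ f : faces S, z f = y f := fun f => dif_pos f.2
  have hstep : ∀ p, z p = z (p - (0, 1)) := by
    intro p
    by_cases hp : p ∈ eset S true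
    · have h1 := hy ⟨true, ⟨p, hp⟩⟩
      simp only at h1
      have h2 : ∑ f : faces S, cf f true p * y f = ∑ f : faces S, cf f true p * z f := by
        apply Finset.sum_congr rfl
        intro f _
        rw [hzc]
      rw [h2, colC hz0 true p] at h1
      have e1 : p - ca true = p := by ext <;> simp [ca]
      have e2 : p - cb true = p - (0, 1) := rfl
      rw [e1, e2] at h1
      linarith
    · rw [hz0 p, hz0 (p - (0, 1))]
      · intro hc
        rw [mem_faces] at hc
        apply hp
        rw [mem_eset]
        have h3 := hc.2.2.1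
        rw [sub_add_cancel] at h3
        refine ⟨h3, ?_⟩
        have h4 := hc.2.2.2
        have e : p - (0, 1) + (1, 1) = p + ev true := by ext <;> simp [ev]
        rwa [e] at h4
      · intro hc
        rw [mem_faces] at hc
        apply hp
        rw [mem_eset]
        exact ⟨hc.1, hc.2.1⟩
  obtain ⟨m, hm⟩ := Pot.exists_lower S
  have hdown : ∀ (n : ℕ) (p : ℤ × ℤ), z p = z (p.1, p.2 - n) := by
    intro n
    induction n with
    | zero => intro p; simp
    | succ n ih =>
      intro p
      rw [ih p, hstep]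
      congr 1
      ext
      · simp
      · simp only [Prod.snd_sub]; push_cast; ring
  have hz : ∀ p, z p = 0 := by
    intro p
    rw [hdown (p.2 - m).toNat p]
    apply hz0
    intro hc
    rw [mem_faces] at hc
    have := hm _ hc.1
    simp only at this
    omega
  funext f
  rw [← hzc f, hz]
  rfl

/-- Planar duality. -/
theorem main (hconn : Conn S) (hS : HoleFree S) (hr : r ∈ S) :
    (dirM (faces S)).det = (lapS S r).det ∧ (faces S).card + (Runs.rset S).card +
      (Runs.cset S).card = S.card + 1 := by
  classical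
  obtain ⟨c, hc, ha⟩ := exists_choice hconn hr
  have hinj := phi_injective c hc ha
  have hunit := B1_unit c hc ha
  -- complementary edges
  let T : Type := {e : ET S // e ∉ Set.range (phi c hc)}
  have : Fintype T := Fintype.ofFinite T
  have hsplit : ∀ (M : Type) [AddCommMonoid M] (g : ET S → M),
      ∑ e : ET S, g e = ∑ v : S.erase r, g (phi c hc v) + ∑ e : T, g e.1 := by
    intro M _ g
    have e1 := Equiv.sum_comp (Equiv.sumCompl (fun e : ET S => e ∈ Set.range (phi c hc))) g
    rw [← e1, Fintype.sum_sum_type]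
    congr 1
    have e2 := Equiv.sum_comp (Equiv.ofInjective (phi c hc) hinj)
      (fun e : Set.range (phi c hc) => g e.1)
    simp only [Equiv.ofInjective_apply] at e2
    exact e2.symm
  -- blocks
  let B2 : Matrix (S.erase r) T ℤ := Matrix.of fun u e => bf u e.1.1 e.1.2
  let C1 : Matrix (faces S) (S.erase r) ℤ :=
    Matrix.of fun f v => cf f (phi c hc v).1 (phi c hc v).2
  let C2 : Matrix (faces S) T ℤ := Matrix.of fun f e => cf f e.1.1 e.1.2
  have hBB : B1 c hc * (B1 c hc).transpose + B2 * B2.transpose = lapS S r := by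
    rw [← BBt]
    ext u v
    rw [Matrix.add_apply, Matrix.mul_apply, Matrix.mul_apply, Matrix.mul_apply,
      hsplit ℤ (fun e => BM S r u e * (BM S r).transpose e v)]
    rfl
  have hCC : C1 * C1.transpose + C2 * C2.transpose = dirM (faces S) := by
    rw [← CCt]
    ext u v
    rw [Matrix.add_apply, Matrix.mul_apply, Matrix.mul_apply, Matrix.mul_apply,
      hsplit ℤ (fun e => CM S u e * (CM S).transpose e v)]
    rfl
  have hBC : B1 c hc * C1.transpose + B2 * C2.transpose = 0 := by
    rw [← BCt S r]
    ext u v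
    rw [Matrix.add_apply, Matrix.mul_apply, Matrix.mul_apply, Matrix.mul_apply,
      hsplit ℤ (fun e => BM S r u e * (CM S).transpose e v)]
    rfl
  -- injectivity
  have hker : ∀ y : faces S → ℤ, (∀ e : T, ∑ f, C2 f e * y f = 0) → y = 0 := by
    intro y hy
    set g : ET S → ℤ := fun e => ∑ f : faces S, cf f e.1 e.2 * y f with hg
    have hg0 : ∀ e : T, g e.1 = 0 := fun e => hy e
    have hBg : ∀ u : S.erase r, ∑ e : ET S, bf u e.1 e.2 * g e = 0 := by
      intro u
      have : ∑ e : ET S, bf u e.1 e.2 * g e =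
          ∑ f : faces S, (BM S r * (CM S).transpose) u f * y f := by
        simp only [hg, Matrix.mul_apply, Finset.mul_sum, Finset.sum_mul]
        rw [Finset.sum_comm]
        apply Finset.sum_congr rfl
        intro f _
        apply Finset.sum_congr rfl
        intro e _
        have : BM S r u e * (CM S).transpose e f = bf u e.1 e.2 * cf f e.1 e.2 := rfl
        rw [this]; ring
      rw [this, BCt]
      simp
    have hB1g : (B1 c hc).mulVec (fun v => g (phi c hc v)) = 0 := by
      funext u
      have h1 := hBg u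
      rw [hsplit ℤ (fun e => bf u e.1 e.2 * g e)] at h1
      have h2 : ∑ e : T, bf u e.1.1 e.1.2 * g e.1 = 0 := by
        apply Finset.sum_eq_zero
        intro e _
        rw [hg0 e, mul_zero]
      rw [h2, add_zero] at h1
      exact h1
    have hphi0 : (fun v => g (phi c hc v)) = 0 := by
      have := congrArg (fun w => ((B1 c hc)⁻¹).mulVec w) hB1g
      simp only [Matrix.mulVec_mulVec, Matrix.nonsing_inv_mul _ hunit, Matrix.one_mulVec,
        Matrix.mulVec_zero] at this
      exact this
    apply no_boundary y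
    intro e
    change g e = 0
    by_cases he : e ∈ Set.range (phi c hc)
    · obtain ⟨v, rfl⟩ := he
      exact congrFun hphi0 v
    · exact hg0 ⟨e, he⟩
  -- right inverse rows
  have hrow : ∀ e0 : T, ∃ y : faces S → ℤ, ∀ e : T, ∑ f, y f * C2 f e =
      if e0 = e then 1 else 0 := by
    intro e0
    set w : S.erase r → ℤ := fun u => bf u e0.1.1 e0.1.2 with hw
    set α : S.erase r → ℤ := ((B1 c hc)⁻¹).mulVec w with hα
    have hBα : (B1 c hc).mulVec α = w := by
      rw [hα, Matrix.mulVec_mulVec, Matrix.mul_nonsing_inv _ hunit, Matrix.one_mulVec]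
    set g : ET S → ℤ := fun e => if e0.1 = e then 1 else
      (if h : e ∈ Set.range (phi c hc) then - α h.choose else 0) with hg
    have hgphi : ∀ v, g (phi c hc v) = - α v := by
      intro v
      rw [hg]
      simp only
      rw [if_neg, dif_pos ⟨v, rfl⟩]
      · have : (⟨v, rfl⟩ : phi c hc v ∈ Set.range (phi c hc)).choose = v := hinj
          (⟨v, rfl⟩ : phi c hc v ∈ Set.range (phi c hc)).choose_spec
        rw [this]
      · intro hcon
        exact e0.2 ⟨v, hcon.symm⟩
    have hgT : ∀ e : T, g e.1 = if e0 = e then 1 else 0 := by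
      intro e
      rw [hg]
      simp only
      by_cases h : e0 = e
      · subst h; simp
      · rw [if_neg (fun hc => h (Subtype.ext hc)), dif_neg e.2, if_neg h]
    have hBg : ∀ u : S.erase r, ∑ e : ET S, bf u e.1 e.2 * g e = 0 := by
      intro u
      rw [hsplit ℤ (fun e => bf u e.1 e.2 * g e)]
      simp only [hgphi, hgT]
      have h1 : ∑ v : S.erase r, bf u (phi c hc v).1 (phi c hc v).2 * - α v = - w u := by
        have := congrFun hBα u
        simp only [Matrix.mulVec, dotProduct] at this
        rw [← this, ← Finset.sum_neg_distrib]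
        apply Finset.sum_congr rfl
        intro v _
        have : B1 c hc u v = bf u (phi c hc v).1 (phi c hc v).2 := rfl
        rw [this]; ring
      have h2 : ∑ e : T, bf u e.1.1 e.1.2 * (if e0 = e then 1 else 0) = w u := by
        simp only [mul_ite, mul_one, mul_zero]
        rw [Finset.sum_ite_eq Finset.univ e0]
        simp [hw]
      rw [h1, h2]; ring
    obtain ⟨y, hy⟩ := circulation hS g hBg
    refine ⟨y, fun e => ?_⟩
    rw [← hgT e, ← hy e.1]
    apply Finset.sum_congr rfl
    intro f _
    exact mul_comm _ _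
  choose Yf hYf using hrow
  let Y : Matrix T (faces S) ℤ := Matrix.of Yf
  have hYC : Y * C2 = 1 := by
    ext e0 e
    rw [Matrix.mul_apply, Matrix.one_apply]
    exact hYf e0 e
  have hCY : C2 * Y = 1 := by
    have h0 : ∀ i, (C2 * Y - 1 : Matrix (faces S) (faces S) ℤ) i = 0 := by
      intro i
      apply hker
      intro e
      have : ((C2 * Y - 1 : Matrix (faces S) (faces S) ℤ) * C2) i e = 0 := by
        rw [Matrix.sub_mul, Matrix.mul_assoc, hYC, Matrix.mul_one, Matrix.one_mul, sub_self]
        rfl
      rw [Matrix.mul_apply] at this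
      rw [← this]
      apply Finset.sum_congr rfl
      intro f _
      exact mul_comm _ _
    have : (C2 * Y - 1 : Matrix (faces S) (faces S) ℤ) = 0 := by
      ext i j
      rw [h0 i]; rfl
    exact sub_eq_zero.mp this
  obtain ⟨hdet, hu⟩ := complementary_det (B1 c hc) B2 C1 C2 Y hBC hunit hYC hCY
  rw [hBB, hCC] at hdet
  have hpos : 1 ≤ (lapS S r).det := by
    rw [det_lapS]
    have : 0 < Nat.card {c : S.erase r → Dir // (∀ u : S.erase r, (u : ℤ × ℤ) + vec (c u) ∈ S) ∧
      Acyclic (tgtA (S.erase r)) c} := by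
      haveI : Nonempty {c : S.erase r → Dir // (∀ u : S.erase r, (u : ℤ × ℤ) + vec (c u) ∈ S) ∧
        Acyclic (tgtA (S.erase r)) c} := ⟨⟨c, hc, ha⟩⟩
      exact Nat.card_pos
    exact_mod_cast this
  have hnn : 0 ≤ (dirM (faces S)).det := by
    rw [det_dirM]; positivity
  refine ⟨?_, ?_⟩
  · rcases Int.isUnit_iff.mp hu with h | h
    · rw [hdet, h, mul_one]
    · rw [h] at hdet
      omega
  · have hcard1 : Fintype.card (faces S) = Fintype.card T :=
      Matrix.square_of_invertible C2 Y hCY hYC
    have hcard2 : Fintype.card (ET S) = Fintype.card (S.erase r) + Fintype.card T := by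
      have := hsplit ℕ (fun _ => 1)
      simpa using this
    have hcard3 : Fintype.card (ET S) = (eset S true).card + (eset S false).card := by
      rw [Fintype.card_sigma, Fintype.sum_bool, Fintype.card_coe, Fintype.card_coe]
    have h1 : (eset S true).card + (Runs.rset S).card = S.card := by
      have := Finset.card_filter_add_card_filter_not (s := S) (fun p => p + (1, 0) ∈ S)
      exact this
    have h2 : (eset S false).card + (Runs.cset S).card = S.card := by
      have := Finset.card_filter_add_card_filter_not (s := S) (fun p => p + (0, 1) ∈ S)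
      exact this
    rw [Fintype.card_coe] at hcard1
    rw [Fintype.card_coe, Finset.card_erase_of_mem hr] at hcard2
    have : 0 < S.card := Finset.card_pos.mpr ⟨r, hr⟩
    omega

end Dual

end Pool.Agent.H.MP_9bb806_co
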