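import Pool.Agent.H.MP_9bb806_co.Words

/-!
Sum over closed lattice walks of `(extent + 1)` weighted by `x^{-n}/n`.
-/

set_option autoImplicit false

namespace Pool.Agent.H.MP_9bb806_co

namespace WalkSum

open Finset

section basic
variable {α β : Type} [Fintype α] [Fintype β]

theorem W_congr : ∀ (n : ℕ) {f g : List α → ℝ}, (∀ s, s.length = n → f s = g s) → W n f = W n g
  | 0, f, g, h => h [] rfl
  | n + 1, f, g, h => by
    unfold W
    exact Finset.sum_congr rfl fun a _ => W_congr n fun s hs => h (a :: s) (by simp [hs])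

theorem W_mono : ∀ (n : ℕ) {f g : List α → ℝ}, (∀ s, s.length = n → f s ≤ g s) → W n f ≤ W n g
  | 0, f, g, h => h [] rfl
  | n + 1, f, g, h => by
    unfold W
    exact Finset.sum_le_sum fun a _ => W_mono n fun s hs => h (a :: s) (by simp [hs])

theorem W_add : ∀ (n : ℕ) (f g : List α → ℝ), W n (fun s => f s + g s) = W n f + W n g
  | 0, f, g => rfl
  | n + 1, f, g => by
    unfold W
    rw [← Finset.sum_add_distrib]
    exact Finset.sum_congr rfl fun a _ => W_add n _ _

theorem W_mul_const : ∀ (n : ℕ) (f : List α → ℝ) (c : ℝ), W n (fun s => f s * c) = W n f * c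
  | 0, f, c => rfl
  | n + 1, f, c => by
    unfold W
    rw [Finset.sum_mul]
    exact Finset.sum_congr rfl fun a _ => W_mul_const n _ _

theorem W_const_mul (n : ℕ) (f : List α → ℝ) (c : ℝ) : W n (fun s => c * f s) = c * W n f := by
  rw [mul_comm, ← W_mul_const]
  exact W_congr n fun s _ => mul_comm _ _

theorem W_zero (n : ℕ) : W n (fun _ : List α => (0:ℝ)) = 0 := by
  have := W_const_mul (α := α) n (fun _ => (0:ℝ)) 0
  simpa using this

theorem W_eq_zero (n : ℕ) {f : List α → ℝ} (h : ∀ s, s.length = n → f s = 0) : W n f = 0 :=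
  (W_congr n h).trans (W_zero n)

theorem W_nonneg (n : ℕ) {f : List α → ℝ} (h : ∀ s, s.length = n → 0 ≤ f s) : 0 ≤ W n f :=
  (W_zero n).symm.le.trans (W_mono n h)

theorem W_sum {ι : Type} (S : Finset ι) (n : ℕ) (f : ι → List α → ℝ) :
    W n (fun s => ∑ i ∈ S, f i s) = ∑ i ∈ S, W n (f i) := by
  classical
  induction S using Finset.induction_on with
  | empty => simpa using W_zero n
  | insert a S ha ih =>
    rw [Finset.sum_insert ha, ← ih, ← W_add]
    exact W_congr n fun s _ => Finset.sum_insert ha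

theorem W_map (σ : α ≃ α) : ∀ (n : ℕ) (f : List α → ℝ), W n (fun s => f (s.map σ)) = W n f
  | 0, f => rfl
  | n + 1, f => by
    unfold W
    rw [← Equiv.sum_comp σ (fun a => W n (fun s => f (a :: s)))]
    refine Finset.sum_congr rfl fun a _ => ?_
    exact W_map σ n (fun s => f (σ a :: s))

theorem W_prod : ∀ (n : ℕ) (g : List α → ℝ) (h : List β → ℝ),
    W n (fun s : List (α × β) => g (s.map Prod.fst) * h (s.map Prod.snd)) = W n g * W n h
  | 0, g, h => rfl
  | n + 1, g, h => by
    unfold W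
    rw [Fintype.sum_prod_type, Finset.sum_mul_sum]
    refine Finset.sum_congr rfl fun a _ => Finset.sum_congr rfl fun b _ => ?_
    exact W_prod n (fun s => g (a :: s)) (fun s => h (b :: s))

theorem W_one (n : ℕ) : W n (fun _ : List Bool => (1:ℝ)) = 2 ^ n := by
  induction n with
  | zero => simp [W]
  | succ n ih =>
    unfold W
    rw [Fintype.sum_bool, ih, pow_succ]; ring

end basic

theorem sgn_true : sgn true = 1 := rfl
theorem sgn_false : sgn false = -1 := rfl

theorem sgn_not (b : Bool) : sgn (!b) = - sgn b := by cases b <;> rfl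

theorem sgn_abs (b : Bool) : |sgn b| = 1 := by cases b <;> rfl

theorem tot_map_not : ∀ s : List Bool, tot (s.map (!·)) = - tot s
  | [] => rfl
  | b :: s => by
    rw [List.map_cons, tot, tot, tot_map_not s, sgn_not]; ring

theorem mx_map_not : ∀ s : List Bool, mx (s.map (!·)) = - mn s
  | [] => rfl
  | b :: s => by
    rw [List.map_cons, mx, mn, mx_map_not s, sgn_not]; omega

theorem tot_abs_le : ∀ s : List Bool, |tot s| ≤ s.length
  | [] => by simp [tot]
  | b :: s => by
    rw [tot, List.length_cons]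
    have h1 := tot_abs_le s
    have h2 := sgn_abs b
    push_cast
    calc |sgn b + tot s| ≤ |sgn b| + |tot s| := abs_add_le _ _
      _ ≤ _ := by rw [h2]; linarith

theorem mx_nonneg (s : List Bool) : 0 ≤ mx s := by
  cases s with
  | nil => simp [mx]
  | cons b s => simp [mx]

theorem mx_le : ∀ s : List Bool, mx s ≤ s.length
  | [] => by simp [mx]
  | b :: s => by
    rw [mx, List.length_cons]
    have h1 := mx_le s
    cases b
    · rw [sgn_false]; push_cast; omega
    · rw [sgn_true]; push_cast; omega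

/-- the number of walks of length `n` with end point `d` -/
noncomputable def cnt (n : ℕ) (d : ℤ) : ℝ := W n (fun b => if tot b = d then 1 else 0)

/-- `not` as an equivalence -/
def notEquiv : Bool ≃ Bool := ⟨(!·), (!·), fun b => by simp, fun b => by simp⟩

theorem cnt_neg (n : ℕ) (d : ℤ) : cnt n (-d) = cnt n d := by
  unfold cnt
  rw [← W_map notEquiv]
  refine W_congr n fun s _ => ?_
  have : tot (s.map notEquiv) = - tot s := tot_map_not s
  rw [this]
  simp only [neg_inj]

theorem cnt_succ (n : ℕ) (d : ℤ) : cnt (n + 1) d = cnt n (d - 1) + cnt n (d + 1) := by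
  unfold cnt
  rw [W, Fintype.sum_bool]
  congr 1
  · refine W_congr n fun s _ => ?_
    simp only [tot, sgn_true]
    congr 1
    apply propext
    constructor <;> intro h <;> linarith
  · refine W_congr n fun s _ => ?_
    simp only [tot, sgn_false]
    congr 1
    apply propext
    constructor <;> intro h <;> linarith

theorem cnt_eq_zero {n : ℕ} {d : ℤ} (h : (n:ℤ) < |d|) : cnt n d = 0 := by
  refine W_eq_zero n fun s hs => if_neg ?_
  intro he
  have := tot_abs_le s
  rw [he, hs] at this
  omega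

theorem cnt_choose (n j : ℕ) : cnt n (2 * j - n) = n.choose j := by
  induction n generalizing j with
  | zero =>
    cases j with
    | zero => simp [cnt, W, tot]
    | succ j =>
      rw [cnt_eq_zero]
      · simp
      · push_cast
        rw [abs_of_pos] <;> omega
  | succ n ih =>
    rw [cnt_succ]
    cases j with
    | zero =>
      have h0 := ih 0
      have e : 2 * ((0:ℕ):ℤ) - ((n+1:ℕ):ℤ) + 1 = 2 * ((0:ℕ):ℤ) - (n:ℤ) := by push_cast; ring
      rw [e, h0, cnt_eq_zero]
      · simp
      · push_cast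
        rw [abs_of_neg] <;> omega
    | succ j =>
      have h0 := ih j
      have h1 := ih (j+1)
      have e : 2 * ((j+1:ℕ):ℤ) - ((n+1:ℕ):ℤ) + 1 = 2 * ((j+1:ℕ):ℤ) - (n:ℤ) := by push_cast; ring
      have e' : 2 * ((j+1:ℕ):ℤ) - ((n+1:ℕ):ℤ) - 1 = 2 * ((j:ℕ):ℤ) - (n:ℤ) := by push_cast; ring
      rw [e, e', h0, h1, Nat.choose_succ_succ]
      push_cast; ring

theorem cnt_even (m : ℕ) : cnt (2 * m) 0 = m.centralBinom := by
  have := cnt_choose (2*m) m
  rw [Nat.centralBinom, ← this]
  congr 1
  push_cast; ring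

theorem tot_parity : ∀ s : List Bool, (tot s - s.length) % 2 = 0
  | [] => by simp [tot]
  | b :: s => by
    have := tot_parity s
    rw [tot, List.length_cons]
    cases b
    · rw [sgn_false]; push_cast; omega
    · rw [sgn_true]; push_cast; omega

theorem cnt_odd {n : ℕ} (h : n % 2 = 1) : cnt n 0 = 0 := by
  refine W_eq_zero n fun s hs => if_neg ?_
  intro he
  have := tot_parity s
  rw [he, hs] at this
  omega

theorem cnt_nonneg (n : ℕ) (d : ℤ) : 0 ≤ cnt n d := by
  refine W_nonneg n fun s _ => ?_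
  split_ifs <;> norm_num

theorem reflection (k : ℤ) (hk : 0 ≤ k) : ∀ (n : ℕ) (x : ℤ), x ≤ k →
    W n (fun b => if x + tot b = 0 ∧ k ≤ x + mx b then (1:ℝ) else 0) ≤ cnt n (2 * k - x)
  | 0, x, hx => by
    have t0 : tot [] = 0 := rfl
    have m0 : mx [] = 0 := rfl
    show (if x + tot [] = 0 ∧ k ≤ x + mx [] then (1:ℝ) else 0) ≤
      if tot [] = 2 * k - x then (1:ℝ) else 0
    by_cases h1 : x + tot [] = 0 ∧ k ≤ x + mx []
    · rw [if_pos h1, if_pos (by omega)]
    · rw [if_neg h1]
      split_ifs <;> norm_num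
  | n + 1, x, hx => by
    rcases eq_or_lt_of_le hx with rfl | hlt
    · have : cnt (n+1) (2 * x - x) = cnt (n+1) (-x) := by
        rw [cnt_neg]; congr 1; ring
      rw [this]
      unfold cnt
      refine W_mono _ fun s _ => ?_
      split_ifs with h1 h2 h2
      · exact le_rfl
      · exfalso; apply h2; omega
      · norm_num
      · norm_num
    · have e : cnt (n+1) (2 * k - x) = cnt n (2 * k - (x + 1)) + cnt n (2 * k - (x + -1)) := by
        rw [cnt_succ]; congr 2 <;> ring
      rw [e, W, Fintype.sum_bool]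
      refine add_le_add ?_ ?_
      · refine le_trans (le_of_eq ?_) (reflection k hk n (x + 1) (by omega))
        refine W_congr n fun s _ => ?_
        simp only [tot, mx, sgn_true]
        congr 1
        apply propext
        constructor <;> intro h <;> constructor <;> omega
      · refine le_trans (le_of_eq ?_) (reflection k hk n (x + -1) (by omega))
        refine W_congr n fun s _ => ?_
        simp only [tot, mx, sgn_false]
        congr 1
        apply propext
        constructor <;> intro h <;> constructor <;> omega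

theorem mx_sum (n : ℕ) : W n (fun b => if tot b = 0 then ((mx b : ℤ) : ℝ) else 0) ≤
    ∑ k ∈ Icc 1 n, cnt n (2 * k) := by
  have h1 : W n (fun b => if tot b = 0 then ((mx b : ℤ) : ℝ) else 0) =
      ∑ k ∈ Icc 1 n, W n (fun b => if 0 + tot b = 0 ∧ (k:ℤ) ≤ 0 + mx b then (1:ℝ) else 0) := by
    rw [← W_sum]
    refine W_congr n fun s hs => ?_
    by_cases ht : tot s = 0
    · simp only [ht, if_true, zero_add, true_and]
      rw [Finset.sum_boole]
      obtain ⟨m, hm⟩ := Int.eq_ofNat_of_zero_le (mx_nonneg s)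
      have hmn : m ≤ n := by
        have := mx_le s
        rw [hs, hm] at this
        exact_mod_cast this
      have : (Icc 1 n).filter (fun k : ℕ => (k:ℤ) ≤ mx s) = Icc 1 m := by
        ext k
        simp only [Finset.mem_filter, Finset.mem_Icc, hm, Nat.cast_le]
        omega
      rw [this, hm]
      simp
    · simp [ht]
  rw [h1]
  refine Finset.sum_le_sum fun k _ => ?_
  have := reflection (k:ℤ) (by positivity) n 0 (by positivity)
  rw [sub_zero] at this
  exact this

/-- sum of the extents of closed 1D walks -/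
noncomputable def S1 (n : ℕ) : ℝ :=
  W n (fun b => if tot b = 0 then ((mx b - mn b + 1 : ℤ) : ℝ) else 0)

theorem S1_le (n : ℕ) : S1 n ≤ 2 ^ n := by
  have hmn : W n (fun b => if tot b = 0 then ((- mn b : ℤ) : ℝ) else 0) =
      W n (fun b => if tot b = 0 then ((mx b : ℤ) : ℝ) else 0) := by
    rw [← W_map notEquiv n (fun b => if tot b = 0 then ((mx b : ℤ) : ℝ) else 0)]
    refine W_congr n fun s _ => ?_
    have h1 : tot (s.map notEquiv) = - tot s := tot_map_not s
    have h2 : mx (s.map notEquiv) = - mn s := mx_map_not s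
    rw [h1, h2]
    simp only [neg_eq_zero]
  have hS : S1 n = cnt n 0 + (W n (fun b => if tot b = 0 then ((mx b : ℤ) : ℝ) else 0) +
      W n (fun b => if tot b = 0 then ((- mn b : ℤ) : ℝ) else 0)) := by
    unfold S1 cnt
    rw [← W_add, ← W_add]
    refine W_congr n fun s _ => ?_
    by_cases ht : tot s = 0
    · simp only [ht, if_true]; push_cast; ring
    · simp [ht]
  have hpt : cnt n 0 + ∑ k ∈ Icc 1 n, (cnt n (2 * k) + cnt n (-(2 * k))) ≤ 2 ^ n := by
    have : cnt n 0 + ∑ k ∈ Icc 1 n, (cnt n (2 * k) + cnt n (-(2 * k))) =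
        W n (fun b => (if tot b = 0 then (1:ℝ) else 0) +
          ∑ k ∈ Icc 1 n, ((if tot b = 2 * (k:ℤ) then (1:ℝ) else 0) +
            (if tot b = -(2 * (k:ℤ)) then (1:ℝ) else 0))) := by
      rw [W_add, W_sum]
      congr 1
      refine Finset.sum_congr rfl fun k _ => ?_
      rw [W_add]
      rfl
    rw [this, ← W_one]
    refine W_mono n fun s _ => ?_
    by_cases ht : tot s = 0
    · rw [if_pos ht, Finset.sum_eq_zero]
      · norm_num
      · intro k hk
        rw [Finset.mem_Icc] at hk
        rw [if_neg (by omega), if_neg (by omega)]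
        norm_num
    · rw [if_neg ht, zero_add]
      have h1 : ∑ k ∈ Icc 1 n, ((if tot s = 2 * (k:ℤ) then (1:ℝ) else 0) +
            (if tot s = -(2 * (k:ℤ)) then (1:ℝ) else 0)) =
          ∑ k ∈ Icc 1 n, (if |tot s| = 2 * (k:ℤ) then (1:ℝ) else 0) := by
        refine Finset.sum_congr rfl fun k hk => ?_
        rw [Finset.mem_Icc] at hk
        rcases lt_or_gt_of_ne ht with h | h
        · rw [abs_of_neg h, if_neg (by omega), zero_add]
          congr 1
          apply propext
          constructor <;> intro h <;> omega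
        · rw [abs_of_pos h, if_neg (show ¬ (tot s = -(2 * (k:ℤ))) by omega), add_zero]
      rw [h1, Finset.sum_boole]
      have : (((Icc 1 n).filter (fun k : ℕ => |tot s| = 2 * (k:ℤ))).card) ≤ 1 := by
        rw [Finset.card_le_one]
        intro a ha b hb
        simp only [Finset.mem_filter] at ha hb
        omega
      exact_mod_cast this
  rw [hS, hmn]
  have h2 := mx_sum n
  have h3 : ∑ k ∈ Icc 1 n, (cnt n (2 * k) + cnt n (-(2 * k))) =
      ∑ k ∈ Icc 1 n, cnt n (2 * k) + ∑ k ∈ Icc 1 n, cnt n (2 * k) := by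
    rw [← Finset.sum_add_distrib]
    refine Finset.sum_congr rfl fun k _ => ?_
    rw [cnt_neg]
  rw [h3] at hpt
  linarith

theorem vec1 (d : Dir) : 2 * (vec d).1 = sgn d.1 + sgn d.2 := by
  rcases d with ⟨_ | _, _ | _⟩ <;> rfl

theorem vec2 (d : Dir) : 2 * (vec d).2 = sgn d.1 - sgn d.2 := by
  rcases d with ⟨_ | _, _ | _⟩ <;> rfl

theorem totv1 : ∀ s : List Dir, 2 * (totv s).1 = tot (s.map Prod.fst) + tot (s.map Prod.snd)
  | [] => rfl
  | d :: s => by
    have := totv1 s
    have h := vec1 d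
    simp only [totv, List.map_cons, tot, Prod.fst_add]
    omega

theorem totv2 : ∀ s : List Dir, 2 * (totv s).2 = tot (s.map Prod.fst) - tot (s.map Prod.snd)
  | [] => rfl
  | d :: s => by
    have := totv2 s
    have h := vec2 d
    simp only [totv, List.map_cons, tot, Prod.snd_add]
    omega

theorem closed_iff (s : List Dir) :
    Closed s ↔ tot (s.map Prod.fst) = 0 ∧ tot (s.map Prod.snd) = 0 := by
  have h1 := totv1 s
  have h2 := totv2 s
  unfold Closed
  rw [Prod.ext_iff]
  simp only [Prod.fst_zero, Prod.snd_zero]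
  omega

theorem mxx_le : ∀ s : List Dir, 2 * mxx s ≤ mx (s.map Prod.fst) + mx (s.map Prod.snd)
  | [] => le_rfl
  | d :: s => by
    have := mxx_le s
    have h := vec1 d
    simp only [mxx, List.map_cons, mx]
    omega

theorem mnx_ge : ∀ s : List Dir, mn (s.map Prod.fst) + mn (s.map Prod.snd) ≤ 2 * mnx s
  | [] => le_rfl
  | d :: s => by
    have := mnx_ge s
    have h := vec1 d
    simp only [mnx, List.map_cons, mn]
    omega

theorem mxy_le : ∀ s : List Dir, 2 * mxy s ≤ mx (s.map Prod.fst) - mn (s.map Prod.snd)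
  | [] => le_rfl
  | d :: s => by
    have := mxy_le s
    have h := vec2 d
    simp only [mxy, List.map_cons, mx, mn]
    omega

theorem mny_ge : ∀ s : List Dir, mn (s.map Prod.fst) - mx (s.map Prod.snd) ≤ 2 * mny s
  | [] => le_rfl
  | d :: s => by
    have := mny_ge s
    have h := vec2 d
    simp only [mny, List.map_cons, mx, mn]
    omega

theorem prod_bound (n : ℕ) (F : List Dir → ℤ)
    (hF : ∀ s, 2 * F s ≤ (mx (s.map Prod.fst) - mn (s.map Prod.fst) + 1) +
      (mx (s.map Prod.snd) - mn (s.map Prod.snd) + 1)) :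
    W n (fun s : List Dir => if Closed s then ((F s : ℤ) : ℝ) else 0) ≤ 2 ^ n * cnt n 0 := by
  set g : List Bool → ℝ := fun b => if tot b = 0 then ((mx b - mn b + 1 : ℤ) : ℝ) else 0 with hg
  set h : List Bool → ℝ := fun b => if tot b = 0 then (1:ℝ) else 0 with hh
  have hle : W n (fun s : List Dir => if Closed s then ((F s : ℤ) : ℝ) else 0) ≤
      W n (fun s : List Dir => (g (s.map Prod.fst) * h (s.map Prod.snd) +
        h (s.map Prod.fst) * g (s.map Prod.snd)) * (1/2)) := by
    refine W_mono n fun s _ => ?_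
    by_cases hc : Closed s
    · rw [if_pos hc]
      rw [closed_iff] at hc
      simp only [hg, hh, hc.1, hc.2, if_true]
      have := hF s
      have h' : (2:ℝ) * ((F s : ℤ):ℝ) ≤ ((mx (s.map Prod.fst) - mn (s.map Prod.fst) + 1 : ℤ) : ℝ) +
        ((mx (s.map Prod.snd) - mn (s.map Prod.snd) + 1 : ℤ) : ℝ) := by exact_mod_cast this
      linarith
    · rw [if_neg hc]
      rw [closed_iff, not_and_or] at hc
      rcases hc with hc | hc
      · simp [hg, hh, hc]
      · simp [hg, hh, hc]
  refine hle.trans ?_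
  rw [W_mul_const, W_add, W_prod, W_prod]
  have h1 : W n g = S1 n := rfl
  have h2 : W n h = cnt n 0 := rfl
  rw [h1, h2]
  have h3 := S1_le n
  have h4 := cnt_nonneg n 0
  nlinarith

theorem bX_le (n : ℕ) : bX n ≤ 2 ^ n * cnt n 0 := by
  unfold bX
  refine prod_bound n (fun s => mxx s - mnx s + 1) fun s => ?_
  have := mxx_le s
  have := mnx_ge s
  omega

theorem bY_le (n : ℕ) : bY n ≤ 2 ^ n * cnt n 0 := by
  unfold bY
  refine prod_bound n (fun s => mxy s - mny s + 1) fun s => ?_
  have := mxy_le s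
  have := mny_ge s
  omega

theorem centralBinom_prod (m : ℕ) : (m.centralBinom : ℝ) / 4 ^ m =
    ∏ i ∈ range m, ((2:ℝ) * i + 1) / (2 * i + 2) := by
  induction m with
  | zero => simp
  | succ m ih =>
    rw [Finset.prod_range_succ, ← ih]
    have h := Nat.succ_mul_centralBinom_succ m
    have h' : ((m:ℝ) + 1) * (m+1).centralBinom = 2 * (2 * m + 1) * m.centralBinom := by
      exact_mod_cast h
    have h'' : ((m+1).centralBinom : ℝ) = 2 * (2 * m + 1) * m.centralBinom / (m + 1) := by
      field_simp; linarith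
    rw [h'', pow_succ]
    field_simp
    ring

theorem log_partial {t : ℝ} (ht0 : 0 ≤ t) (ht1 : t < 1) (M : ℕ) :
    ∑ m ∈ Icc 1 M, t ^ m / (2 * m) ≤ - Real.log (1 - t) / 2 := by
  have h := Real.hasSum_pow_div_log_of_abs_lt_one (x := t) (by rw [abs_of_nonneg ht0]; exact ht1)
  have h2 := sum_le_hasSum (range M) (fun i _ => by positivity) h
  have h3 : ∑ m ∈ Icc 1 M, t ^ m / (2 * m) = (∑ i ∈ range M, t ^ (i+1) / ((i:ℝ) + 1)) / 2 := by
    clear h2
    induction M with
    | zero => simp
    | succ M ih =>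
      rw [Finset.sum_Icc_succ_top (by omega), ih, Finset.sum_range_succ]
      push_cast
      field_simp
  rw [h3]
  linarith

theorem central_sum (M : ℕ) :
    ∑ m ∈ Icc 1 M, ((m.centralBinom : ℝ) / 4 ^ m) / (2 * m) ≤ Real.log 2 := by
  have hpi : 0 < Real.pi := Real.pi_pos
  have hcos : ∀ m : ℕ, ∫ x in (0:ℝ)..Real.pi/2, Real.cos x ^ (2 * m) =
      (Real.pi / 2) * ((m.centralBinom : ℝ) / 4 ^ m) := by
    intro m
    rw [EulerSine.integral_cos_pow_eq, integral_sin_pow_even, centralBinom_prod]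
    ring
  have hint : ∀ m ∈ Icc 1 M, IntervalIntegrable (fun x => Real.cos x ^ (2*m) / (2 * (m:ℝ)))
      MeasureTheory.volume 0 (Real.pi/2) := fun m _ =>
    Continuous.intervalIntegrable (by fun_prop) _ _
  have h1 : (Real.pi / 2) * ∑ m ∈ Icc 1 M, ((m.centralBinom : ℝ) / 4 ^ m) / (2 * m) =
      ∫ x in (0:ℝ)..Real.pi/2, ∑ m ∈ Icc 1 M, Real.cos x ^ (2*m) / (2 * (m:ℝ)) := by
    rw [intervalIntegral.integral_finsetSum hint, Finset.mul_sum]
    refine Finset.sum_congr rfl fun m _ => ?_
    rw [intervalIntegral.integral_div, hcos]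
    ring
  have h2 : ∫ x in (0:ℝ)..Real.pi/2, ∑ m ∈ Icc 1 M, Real.cos x ^ (2*m) / (2 * (m:ℝ)) ≤
      ∫ x in (0:ℝ)..Real.pi/2, - Real.log (Real.sin x) := by
    refine intervalIntegral.integral_mono_on_of_le_Ioo (by positivity)
      (Continuous.intervalIntegrable (by fun_prop) _ _) (intervalIntegrable_log_sin).neg ?_
    intro x hx
    have hs : 0 < Real.sin x := Real.sin_pos_of_pos_of_lt_pi hx.1 (by linarith [hx.2])
    have hc2 : Real.cos x ^ 2 = 1 - Real.sin x ^ 2 := Real.cos_sq' x
    have ht1 : Real.cos x ^ 2 < 1 := by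
      rw [hc2]; nlinarith
    have h := log_partial (sq_nonneg (Real.cos x)) ht1 M
    have e : Real.log (1 - Real.cos x ^ 2) = 2 * Real.log (Real.sin x) := by
      rw [hc2, sub_sub_cancel, Real.log_pow]; norm_num
    rw [e] at h
    calc ∑ m ∈ Icc 1 M, Real.cos x ^ (2*m) / (2 * (m:ℝ)) =
        ∑ m ∈ Icc 1 M, (Real.cos x ^ 2) ^ m / (2 * (m:ℝ)) :=
          Finset.sum_congr rfl fun m _ => by rw [pow_mul]
      _ ≤ _ := h
      _ = _ := by ring
  rw [intervalIntegral.integral_neg, integral_log_sin_zero_pi_div_two] at h2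
  rw [← h1] at h2
  have h3 : (Real.pi / 2) * ∑ m ∈ Icc 1 M, ((m.centralBinom : ℝ) / 4 ^ m) / (2 * m) ≤
      (Real.pi / 2) * Real.log 2 := by
    linarith
  exact le_of_mul_le_mul_left h3 (by positivity)

theorem final_sum (x : ℝ) (hx : 4 ≤ x) (N : ℕ) (b : ℕ → ℝ) (hb : ∀ n, b n ≤ 2 ^ n * cnt n 0) :
    ∑ n ∈ Icc 1 N, b n / (n * x ^ n) ≤ Real.log 2 := by
  have h1 : ∀ n ∈ Icc 1 N, b n / (n * x ^ n) ≤ cnt n 0 / 2 ^ n / n := by
    intro n hn
    rw [Finset.mem_Icc] at hn
    have hn0 : (0:ℝ) < n := by exact_mod_cast hn.1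
    have hc := cnt_nonneg n 0
    calc b n / (n * x ^ n) ≤ (2 ^ n * cnt n 0) / (n * x ^ n) := by
          gcongr; exact hb n
      _ ≤ (2 ^ n * cnt n 0) / (n * 4 ^ n) := by gcongr
      _ = cnt n 0 / 2 ^ n / n := by
          have : (4:ℝ) ^ n = 2 ^ n * 2 ^ n := by rw [← mul_pow]; norm_num
          rw [this]; field_simp
  refine (Finset.sum_le_sum h1).trans ?_
  refine le_trans ?_ (central_sum N)
  -- keep only the even terms
  have h2 : ∑ n ∈ Icc 1 N, cnt n 0 / 2 ^ n / (n:ℝ) ≤
      ∑ n ∈ (Icc 1 N).image (fun m => 2 * m), cnt n 0 / 2 ^ n / (n:ℝ) := by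
    have h3 : ∑ n ∈ Icc 1 N, cnt n 0 / 2 ^ n / (n:ℝ) =
        ∑ n ∈ (Icc 1 N).filter (fun n => n % 2 = 0), cnt n 0 / 2 ^ n / (n:ℝ) := by
      rw [Finset.sum_filter]
      refine Finset.sum_congr rfl fun n _ => ?_
      split_ifs with h
      · rfl
      · rw [cnt_odd (by omega)]; simp
    rw [h3]
    refine Finset.sum_le_sum_of_subset_of_nonneg ?_ ?_
    · intro n hn
      rw [Finset.mem_filter, Finset.mem_Icc] at hn
      rw [Finset.mem_image]
      exact ⟨n / 2, by rw [Finset.mem_Icc]; omega, by omega⟩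
    · intro n _ _
      have := cnt_nonneg n 0
      positivity
  refine h2.trans (le_of_eq ?_)
  rw [Finset.sum_image (fun a _ b _ h => by simpa using h)]
  refine Finset.sum_congr rfl fun m _ => ?_
  rw [cnt_even, pow_mul]
  push_cast
  norm_num

end WalkSum

theorem bX_series (x : ℝ) (hx : 4 ≤ x) (N : ℕ) :
    ∑ n ∈ Finset.Icc 1 N, bX n / (n * x ^ n) ≤ Real.log 2 :=
  WalkSum.final_sum x hx N bX WalkSum.bX_le

theorem bY_series (x : ℝ) (hx : 4 ≤ x) (N : ℕ) :
    ∑ n ∈ Finset.Icc 1 N, bY n / (n * x ^ n) ≤ Real.log 2 :=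
  WalkSum.final_sum x hx N bY WalkSum.bY_le

end Pool.Agent.H.MP_9bb806_co
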