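import Mathlib
import Pool.Agent.H.MP_9bb806_co.TraceWords
import Pool.Agent.H.MP_9bb806_co.WalkSum
import Pool.Agent.H.MP_9bb806_co.Runs
import Pool.Agent.H.MP_9bb806_co.Mats

/-!
The determinant inequality: Dirichlet Laplacians of the faces of a hole-free set against a box.
-/

namespace Pool.Agent.H.MP_9bb806_co

open Finset

namespace Ineq

/-- Reflection in the diagonal. -/
def flip (d : Dir) : Dir := (d.1, !d.2)

lemma flip_flip (d : Dir) : flip (flip d) = d := by
  rcases d with ⟨_ | _, _ | _⟩ <;> rfl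

/-- Reflection as a permutation. -/
def flipEquiv : Dir ≃ Dir := ⟨flip, flip, flip_flip, flip_flip⟩

lemma vec_flip1 (d : Dir) : (vec (flipEquiv d)).1 = (vec d).2 := by
  rcases d with ⟨_ | _, _ | _⟩ <;> rfl

lemma vec_flip2 (d : Dir) : (vec (flipEquiv d)).2 = (vec d).1 := by
  rcases d with ⟨_ | _, _ | _⟩ <;> rfl

lemma mxx_flip (s : List Dir) : mxx (s.map flipEquiv) = mxy s := by
  induction s with
  | nil => rfl
  | cons d s ih => simp only [List.map_cons, mxx, mxy, ih, vec_flip1]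

lemma mnx_flip (s : List Dir) : mnx (s.map flipEquiv) = mny s := by
  induction s with
  | nil => rfl
  | cons d s ih => simp only [List.map_cons, mnx, mny, ih, vec_flip1]

lemma mxy_flip (s : List Dir) : mxy (s.map flipEquiv) = mxx s := by
  induction s with
  | nil => rfl
  | cons d s ih => simp only [List.map_cons, mxx, mxy, ih, vec_flip2]

lemma mny_flip (s : List Dir) : mny (s.map flipEquiv) = mnx s := by
  induction s with
  | nil => rfl
  | cons d s ih => simp only [List.map_cons, mnx, mny, ih, vec_flip2]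

lemma totv_flip1 (s : List Dir) : (totv (s.map flipEquiv)).1 = (totv s).2 := by
  induction s with
  | nil => rfl
  | cons d s ih => simp only [List.map_cons, totv, Prod.fst_add, Prod.snd_add, ih, vec_flip1]

lemma totv_flip2 (s : List Dir) : (totv (s.map flipEquiv)).2 = (totv s).1 := by
  induction s with
  | nil => rfl
  | cons d s ih => simp only [List.map_cons, totv, Prod.fst_add, Prod.snd_add, ih, vec_flip2]

lemma closed_flip (s : List Dir) : Closed (s.map flipEquiv) ↔ Closed s := by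
  unfold Closed
  rw [Prod.ext_iff, Prod.ext_iff, totv_flip1, totv_flip2]
  exact and_comm

lemma wx_flip (s : List Dir) : TW.wx (s.map flipEquiv) = TW.wy s := by
  unfold TW.wx TW.wy
  rw [mxx_flip, mnx_flip]

lemma wy_flip (s : List Dir) : TW.wy (s.map flipEquiv) = TW.wx s := by
  unfold TW.wx TW.wy
  rw [mxy_flip, mny_flip]

lemma sub_cast (N w : ℕ) : ((N - w : ℕ) : ℤ) = Rect.pp ((N : ℤ) - w) := by
  unfold Rect.pp
  omega

/-- The excess of the semi-perimeter. -/
def Ex (S : Finset (ℤ × ℤ)) (N : ℕ) : ℤ :=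
  ((S.image Prod.fst).card : ℤ) - 1 + (((S.image Prod.snd).card : ℤ) - 1) - 2 * N
/-- Excess of vertical runs. -/
def Cx (S : Finset (ℤ × ℤ)) : ℤ := ((Runs.cset S).card : ℤ) - (S.image Prod.fst).card
/-- Excess of horizontal runs. -/
def Rx (S : Finset (ℤ × ℤ)) : ℤ := ((Runs.rset S).card : ℤ) - (S.image Prod.snd).card

lemma Cx_nonneg (S : Finset (ℤ × ℤ)) : 0 ≤ Cx S := by
  have := Runs.cset_card_ge S
  unfold Cx
  omega

lemma Rx_nonneg (S : Finset (ℤ × ℤ)) : 0 ≤ Rx S := by
  have := Runs.rset_card_ge S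
  unfold Rx
  omega

lemma image_card_pos {S : Finset (ℤ × ℤ)} (h : 0 < S.card) :
    1 ≤ (S.image Prod.fst).card ∧ 1 ≤ (S.image Prod.snd).card := by
  rw [card_pos] at h
  exact ⟨card_pos.mpr (h.image _), card_pos.mpr (h.image _)⟩

lemma prod_ge {S I : Finset (ℤ × ℤ)} {N : ℕ} (hcard : S.card = (N + 1) ^ 2 + I.card) :
    ((N : ℤ) + 1) ^ 2 ≤ (((S.image Prod.fst).card : ℤ) - 1 + 1) *
      (((S.image Prod.snd).card : ℤ) - 1 + 1) := by
  have h1 := Runs.card_le_mul S
  have h2 : (N + 1) ^ 2 ≤ (S.image Prod.fst).card * (S.image Prod.snd).card := by omega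
  have h3 : (((N + 1) ^ 2 : ℕ) : ℤ) ≤
    (((S.image Prod.fst).card * (S.image Prod.snd).card : ℕ) : ℤ) := by exact_mod_cast h2
  push_cast at h3
  ring_nf at h3 ⊢
  exact h3

lemma Ex_nonneg {S I : Finset (ℤ × ℤ)} {N : ℕ} (hcard : S.card = (N + 1) ^ 2 + I.card) :
    0 ≤ Ex S N := by
  obtain ⟨h1, h2⟩ := image_card_pos (S := S) (by rw [hcard]; positivity)
  have := Rect.sum_ge N (((S.image Prod.fst).card : ℤ) - 1) (((S.image Prod.snd).card : ℤ) - 1)
    (by positivity) (by omega) (by omega) (prod_ge hcard)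
  unfold Ex
  omega

lemma Np_le_card (F : Finset (ℤ × ℤ)) (s : List Dir) : TW.Np F s ≤ F.card :=
  card_filter_le _ _

lemma Np_box_le' (N : ℕ) (s : List Dir) : (TW.Np (TW.boxF N) s : ℤ) ≤
    Rect.pp ((N : ℤ) - TW.wx s) * Rect.pp ((N : ℤ) - TW.wy s) := by
  have h := TW.Np_box_le N s
  rw [← sub_cast, ← sub_cast]
  exact_mod_cast h

lemma key_int {S I : Finset (ℤ × ℤ)} {N : ℕ} (hS : HoleFree S)
    (hcard : S.card = (N + 1) ^ 2 + I.card) (s : List Dir) :
    ((TW.Np I s : ℤ) + TW.Np (TW.boxF N) s - TW.Np (faces S) s) +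
      ((TW.Np I (s.map flipEquiv) : ℤ) + TW.Np (TW.boxF N) (s.map flipEquiv) -
        TW.Np (faces S) (s.map flipEquiv)) ≤
      (2 * Ex S N + Cx S + 2 * Rx S) * (((TW.wx s : ℤ) + 1) + ((TW.wy s : ℤ) + 1)) := by
  have hE := Ex_nonneg hcard
  obtain ⟨hn1, hn2⟩ := image_card_pos (S := S) (by rw [hcard]; positivity)
  have a1 : (TW.Np I s : ℤ) ≤ I.card := by exact_mod_cast Np_le_card I s
  have a2 : (TW.Np I (s.map flipEquiv) : ℤ) ≤ I.card := by exact_mod_cast Np_le_card I _
  have b1 := Np_box_le' N s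
  have b2 := Np_box_le' N (s.map flipEquiv)
  rw [wx_flip, wy_flip] at b2
  have c1 : ((TW.rects (faces S) (TW.wx s) (TW.wy s)).card : ℤ) ≤ TW.Np (faces S) s := by
    exact_mod_cast TW.rects_le_Np (faces S) s
  have c2 : ((TW.rects (faces S) (TW.wy s) (TW.wx s)).card : ℤ) ≤
      TW.Np (faces S) (s.map flipEquiv) := by
    have := TW.rects_le_Np (faces S) (s.map flipEquiv)
    rw [wx_flip, wy_flip] at this
    exact_mod_cast this
  have d1 := Runs.main hS (TW.wx s) (TW.wy s)
  have d2 := Runs.main hS (TW.wy s) (TW.wx s)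
  have e1 := Rect.main (TW.wx s) (TW.wy s) N (((S.image Prod.fst).card : ℤ) - 1)
    (((S.image Prod.snd).card : ℤ) - 1) (by positivity) (by positivity) (by positivity)
    (by omega) (by omega) (prod_ge hcard)
  unfold Rect.g at e1
  have hc : (S.card : ℤ) = ((N : ℤ) + 1) ^ 2 + I.card := by
    rw [hcard]; push_cast; ring
  unfold Ex Cx Rx at *
  set n1 : ℤ := ((S.image Prod.fst).card : ℤ)
  set n2 : ℤ := ((S.image Prod.snd).card : ℤ)
  set w : ℤ := (TW.wx s : ℤ)
  set h : ℤ := (TW.wy s : ℤ)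
  set P1 := Rect.pp (n1 - 1 - w) * Rect.pp (n2 - 1 - h)
  set P2 := Rect.pp (n1 - 1 - h) * Rect.pp (n2 - 1 - w)
  set Q1 := Rect.pp ((N : ℤ) - w) * Rect.pp ((N : ℤ) - h)
  have hQ : Rect.pp ((N : ℤ) - h) * Rect.pp ((N : ℤ) - w) = Q1 := mul_comm _ _
  rw [hQ] at b2 e1
  nlinarith

/-- The word sums. -/
noncomputable def ws (F : Finset (ℤ × ℤ)) (n : ℕ) : ℝ :=
  W n (fun s : List Dir => if Closed s then (TW.Np F s : ℝ) else 0)

lemma ws_sym (F : Finset (ℤ × ℤ)) (n : ℕ) : ws F n =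
    W n (fun s : List Dir => if Closed s then (TW.Np F (s.map flipEquiv) : ℝ) else 0) := by
  unfold ws
  rw [← TW.W_map flipEquiv n (fun s : List Dir => if Closed s then (TW.Np F s : ℝ) else 0)]
  apply TW.W_congr
  intro s
  simp only [closed_flip]

lemma two_ws (F : Finset (ℤ × ℤ)) (n : ℕ) : 2 * ws F n =
    W n (fun s : List Dir => if Closed s then (TW.Np F s : ℝ) + TW.Np F (s.map flipEquiv) else 0) := by
  have h1 : 2 * ws F n = ws F n + W n (fun s : List Dir =>
      if Closed s then (TW.Np F (s.map flipEquiv) : ℝ) else 0) := by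
    rw [← ws_sym]; ring
  rw [h1, ws, ← TW.W_add]
  apply TW.W_congr
  intro s
  split_ifs <;> simp

lemma bXY (n : ℕ) : bX n + bY n = W n (fun s : List Dir => if Closed s then
    (((TW.wx s : ℤ) + 1 + ((TW.wy s : ℤ) + 1) : ℤ) : ℝ) else 0) := by
  unfold bX bY
  rw [← TW.W_add]
  apply TW.W_congr
  intro s
  rw [TW.wx_cast, TW.wy_cast]
  split_ifs
  · push_cast; ring
  · simp

lemma term_le {S I : Finset (ℤ × ℤ)} {N : ℕ} (hS : HoleFree S)
    (hcard : S.card = (N + 1) ^ 2 + I.card) (n : ℕ) :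
    2 * (ws I n + ws (TW.boxF N) n - ws (faces S) n) ≤
      ((2 * Ex S N + Cx S + 2 * Rx S : ℤ) : ℝ) * (bX n + bY n) := by
  have h1 : 2 * (ws I n + ws (TW.boxF N) n - ws (faces S) n) =
      2 * ws I n + 2 * ws (TW.boxF N) n - 2 * ws (faces S) n := by ring
  rw [h1, two_ws, two_ws, two_ws, ← TW.W_add, ← TW.W_sub, bXY, ← TW.W_mul]
  apply TW.W_mono
  intro s
  by_cases hs : Closed s
  · simp only [hs, if_true]
    have := key_int hS hcard s
    have h2 : (((((TW.Np I s : ℤ) + TW.Np (TW.boxF N) s - TW.Np (faces S) s) +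
      ((TW.Np I (s.map flipEquiv) : ℤ) + TW.Np (TW.boxF N) (s.map flipEquiv) -
        TW.Np (faces S) (s.map flipEquiv)) : ℤ)) : ℝ) ≤
      (((2 * Ex S N + Cx S + 2 * Rx S) * (((TW.wx s : ℤ) + 1) + ((TW.wy s : ℤ) + 1)) : ℤ) : ℝ) := by
      exact_mod_cast this
    push_cast at h2 ⊢
    linarith
  · simp [hs]

lemma sum_shift (f : ℕ → ℝ) (M : ℕ) :
    ∑ k ∈ range M, f (k + 1) = ∑ n ∈ Icc 1 M, f n := by
  induction M with
  | zero => simp
  | succ M ih => rw [sum_range_succ, sum_Icc_succ_top (by omega), ih]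

/-- The logarithmic inequality. -/
lemma log_ineq {S I : Finset (ℤ × ℤ)} {N : ℕ} (hS : HoleFree S)
    (hcard : S.card = (N + 1) ^ 2 + I.card)
    (hF : (faces S).card + (Runs.rset S).card + (Runs.cset S).card = S.card + 1)
    {x : ℝ} (hx : 4 < x) :
    (x • (1 : Matrix (faces S) (faces S) ℝ) - TW.adjM (faces S)).det ≤
      (x • (1 : Matrix I I ℝ) - TW.adjM I).det *
        (x • (1 : Matrix (TW.boxF N) (TW.boxF N) ℝ) - TW.adjM (TW.boxF N)).det := by
  have sI := TW.hasSum_word I hx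
  have sB := TW.hasSum_word (TW.boxF N) hx
  have sF := TW.hasSum_word (faces S) hx
  have sT := (sI.add sB).sub sF
  have dI := TW.det_pos I hx
  have dB := TW.det_pos (TW.boxF N) hx
  have dF := TW.det_pos (faces S) hx
  set DI := (x • (1 : Matrix I I ℝ) - TW.adjM I).det
  set DB := (x • (1 : Matrix (TW.boxF N) (TW.boxF N) ℝ) - TW.adjM (TW.boxF N)).det
  set DF := (x • (1 : Matrix (faces S) (faces S) ℝ) - TW.adjM (faces S)).det
  have hx0 : 0 < x := by linarith
  have hE := Ex_nonneg hcard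
  have hC := Cx_nonneg S
  have hR := Rx_nonneg S
  set K : ℤ := 2 * Ex S N + Cx S + 2 * Rx S with hK
  have hK0 : 0 ≤ K := by omega
  have hK0' : (0 : ℝ) ≤ K := by exact_mod_cast hK0
  have hlim := sT.tendsto_sum_nat
  have hbound : (I.card * Real.log x - Real.log DI) + ((TW.boxF N).card * Real.log x - Real.log DB)
      - ((faces S).card * Real.log x - Real.log DF) ≤ K * Real.log 2 := by
    refine le_of_tendsto hlim (Filter.Eventually.of_forall fun M => ?_)
    have hterm : ∀ k : ℕ, W (k + 1) (fun s => if Closed s then (TW.Np I s : ℝ) else 0) /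
        ((k + 1 : ℕ) * x ^ (k + 1)) + W (k + 1) (fun s => if Closed s then
          (TW.Np (TW.boxF N) s : ℝ) else 0) / ((k + 1 : ℕ) * x ^ (k + 1)) -
        W (k + 1) (fun s => if Closed s then (TW.Np (faces S) s : ℝ) else 0) /
        ((k + 1 : ℕ) * x ^ (k + 1)) ≤
        (K : ℝ) / 2 * (bX (k + 1) / ((k + 1 : ℕ) * x ^ (k + 1)) +
          bY (k + 1) / ((k + 1 : ℕ) * x ^ (k + 1))) := by
      intro k
      have h1 := term_le hS hcard (k + 1)
      rw [← hK] at h1
      unfold ws at h1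
      have hden : (0 : ℝ) < ((k + 1 : ℕ) : ℝ) * x ^ (k + 1) := by positivity
      rw [← add_div, ← sub_div, ← add_div, ← mul_div_assoc]
      apply div_le_div_of_nonneg_right _ hden.le
      linarith
    calc _ ≤ ∑ k ∈ range M, (K : ℝ) / 2 * (bX (k + 1) / ((k + 1 : ℕ) * x ^ (k + 1)) +
          bY (k + 1) / ((k + 1 : ℕ) * x ^ (k + 1))) := Finset.sum_le_sum (fun k _ => hterm k)
      _ = (K : ℝ) / 2 * (∑ n ∈ Icc 1 M, bX n / (n * x ^ n) + ∑ n ∈ Icc 1 M, bY n / (n * x ^ n)) := by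
        rw [← Finset.mul_sum, Finset.sum_add_distrib,
          sum_shift (fun n => bX n / ((n : ℝ) * x ^ n)) M,
          sum_shift (fun n => bY n / ((n : ℝ) * x ^ n)) M]
      _ ≤ (K : ℝ) / 2 * (Real.log 2 + Real.log 2) := by
        apply mul_le_mul_of_nonneg_left _ (by positivity)
        exact add_le_add (bX_series x hx.le M) (bY_series x hx.le M)
      _ = K * Real.log 2 := by ring
  have hboxcard : (TW.boxF N).card = N ^ 2 := by
    unfold TW.boxF
    rw [card_product, Int.card_Ico]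
    simp
    ring
  have hcnt : (I.card : ℤ) + (TW.boxF N).card - (faces S).card = Ex S N + Rx S + Cx S := by
    rw [hboxcard]
    have h1 : ((faces S).card : ℤ) + (Runs.rset S).card + (Runs.cset S).card = S.card + 1 := by
      exact_mod_cast hF
    have h2 : (S.card : ℤ) = ((N : ℤ) + 1) ^ 2 + I.card := by rw [hcard]; push_cast; ring
    unfold Ex Rx Cx
    push_cast
    nlinarith
  have hcntR : (I.card : ℝ) + (TW.boxF N).card - (faces S).card =
      ((Ex S N + Rx S + Cx S : ℤ) : ℝ) := by exact_mod_cast hcnt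
  have hlog4 : 2 * Real.log 2 ≤ Real.log x := by
    have : Real.log 4 ≤ Real.log x := Real.log_le_log (by norm_num) hx.le
    have h4 : Real.log 4 = 2 * Real.log 2 := by
      rw [show (4 : ℝ) = 2 ^ 2 by norm_num, Real.log_pow]; norm_num
    linarith
  have hlog2 : 0 ≤ Real.log 2 := Real.log_nonneg (by norm_num)
  have hEC : ((0 : ℤ) : ℝ) ≤ ((Ex S N + Rx S + Cx S : ℤ) : ℝ) := by
    exact_mod_cast (by omega : (0 : ℤ) ≤ Ex S N + Rx S + Cx S)
  have hKle : (K : ℝ) ≤ 2 * ((Ex S N + Rx S + Cx S : ℤ) : ℝ) := by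
    have : K ≤ 2 * (Ex S N + Rx S + Cx S) := by omega
    exact_mod_cast this
  have hfin : (K : ℝ) * Real.log 2 ≤ ((Ex S N + Rx S + Cx S : ℤ) : ℝ) * Real.log x := by
    calc (K : ℝ) * Real.log 2 ≤ (2 * ((Ex S N + Rx S + Cx S : ℤ) : ℝ)) * Real.log 2 :=
          mul_le_mul_of_nonneg_right hKle hlog2
      _ = ((Ex S N + Rx S + Cx S : ℤ) : ℝ) * (2 * Real.log 2) := by ring
      _ ≤ _ := mul_le_mul_of_nonneg_left hlog4 (by simpa using hEC)
  have hlogs : Real.log DF ≤ Real.log DI + Real.log DB := by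
    rw [← hcntR] at hfin
    nlinarith
  rw [← Real.log_mul dI.ne' dB.ne'] at hlogs
  exact (Real.log_le_log_iff dF (mul_pos dI dB)).mp hlogs

lemma cont_det (F : Finset (ℤ × ℤ)) :
    Continuous (fun x : ℝ => (x • (1 : Matrix F F ℝ) - TW.adjM F).det) := by
  apply Continuous.matrix_det
  fun_prop

lemma dirM_cast (F : Finset (ℤ × ℤ)) :
    (((dirM F).det : ℤ) : ℝ) = ((4 : ℝ) • (1 : Matrix F F ℝ) - TW.adjM F).det := by
  have h := (Int.castRingHom ℝ).map_det (dirM F)
  rw [eq_intCast] at h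
  rw [h]
  congr 1
  ext v w
  simp only [RingHom.mapMatrix_apply, Matrix.map_apply, eq_intCast, Matrix.sub_apply,
    Matrix.smul_apply, Matrix.one_apply, TW.adjM_apply, dirM_apply]
  rw [dir_sum, dir_sum]
  have : ((v : ℤ × ℤ) = w) ↔ v = w := Subtype.ext_iff.symm
  simp only [this]
  push_cast
  simp only [smul_eq_mul]
  ring

/-- The determinant inequality at the critical value. -/
theorem main {S I : Finset (ℤ × ℤ)} {N : ℕ} (hS : HoleFree S)
    (hcard : S.card = (N + 1) ^ 2 + I.card)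
    (hF : (faces S).card + (Runs.rset S).card + (Runs.cset S).card = S.card + 1) :
    (dirM (faces S)).det ≤ (dirM I).det * (dirM (TW.boxF N)).det := by
  have h : ((4 : ℝ) • (1 : Matrix (faces S) (faces S) ℝ) - TW.adjM (faces S)).det ≤
      ((4 : ℝ) • (1 : Matrix I I ℝ) - TW.adjM I).det *
        ((4 : ℝ) • (1 : Matrix (TW.boxF N) (TW.boxF N) ℝ) - TW.adjM (TW.boxF N)).det := by
    have c1 := ((cont_det (faces S)).tendsto 4).mono_left (nhdsWithin_le_nhds (s := Set.Ioi 4))
    have c2 := (((cont_det I).mul (cont_det (TW.boxF N))).tendsto 4).mono_left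
      (nhdsWithin_le_nhds (s := Set.Ioi 4))
    refine le_of_tendsto_of_tendsto c1 c2 ?_
    filter_upwards [self_mem_nhdsWithin] with x hx
    exact log_ineq hS hcard hF hx
  rw [← dirM_cast, ← dirM_cast, ← dirM_cast] at h
  exact_mod_cast h

end Ineq

end Pool.Agent.H.MP_9bb806_co
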